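import Pool.Agent.Lib.MP_bc213e_ag.OW.Defs

/-!
Sheaves of covariant tensors. If `D a = ∂/∂τₐ`, then `ξ (s, a)` is the differential `dτₐ` on the
`s`-th summand of `T ⊕ ⋯ ⊕ T` (`k` copies of the tangent space), and a tensor is a polynomial
function on this sum. The map `c : Fin p → Fin k` fixes the multidegree: the degree on the summand
`s` is the number `d s` of elements of the fibre of `c` over `s`.
-/

namespace Pool.Agent.Lib.MP_bc213e_ag.OW

open Pool.Agent.Lib.MP_bc213e_ag.Hyp WithZero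

variable {K P ι : Type} [Field K] [Algebra ℂ K] [CommRing P] [Algebra K P] [Algebra ℂ P]
  {n k p : ℕ} (D : Fin n → Derivation ℂ K K) (ξ : Fin k × Fin n → P) (c : Fin p → Fin k)

/-- The differential of `f` on the summand `s`. -/
def dT (s : Fin k) (f : K) : P := ∑ a, D a f • ξ (s, a)

variable (K) in
/-- The rational tensors of multidegree `d`. -/
def Mon : Submodule K P :=
  Submodule.span K (Set.range fun a : Fin p → Fin n => ∏ r, ξ (c r, a r))

/-- The tensors with a pole of order at most `e` along `w`. -/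
def Reg (w : ZVal K) (e : ℤ) : Submodule ℂ P :=
  Submodule.span ℂ {T | ∃ (f : K) (u : Fin p → K), w f ≤ exp e ∧ (∀ r, w (u r) ≤ 1) ∧
    T = f • ∏ r, dT D ξ (c r) (u r)}

/-- Sections of the reflexive hull of `S ^ (d 1) Ω ⊗ ⋯ ⊗ S ^ (d k) Ω ⊗ O(L)` over the intersection
of the charts in `σ`. -/
def SectT [IsScalarTower ℂ K P] {x : ι → Kˣ} (L : Prm x →₀ ℤ) (σ : Finset ι) : Submodule ℂ P :=
  (Mon K ξ c).restrictScalars ℂ ⊓
    ⨅ (w : Prm x) (_ : ∀ i ∈ σ, PrimeDiv (chart x i) w.1), Reg D ξ c w.1 (L w)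

/-- The variety is smooth of dimension `n` at the point with local ring `O`. -/
def SmoothAt (n : ℕ) (O : Subalgebra ℂ K) : Prop :=
  ∃ ζ : Fin n → O, Submodule.span O (Set.range fun l => KaehlerDifferential.D ℂ O (ζ l)) = ⊤

end Pool.Agent.Lib.MP_bc213e_ag.OW
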