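import Pool.Agent.Lib.MP_bc213e_ag.TE.IDefs
import Pool.Agent.Lib.MP_bc213e_ag.TE.C.Ten

/-! The uniform Hilbert polynomial of the sheaf of tensors. -/

namespace Pool.Agent.Lib.MP_bc213e_ag.OW

open Pool.Agent.Lib.MP_bc213e_ag.Hyp Pool.Agent.Lib.MP_bc213e_ag.KBB WithZero Filter Module

section map

variable {K P P' ι : Type} [Field K] [Algebra ℂ K] [CommRing P] [Algebra K P] [Algebra ℂ P]
  [IsScalarTower ℂ K P] [CommRing P'] [Algebra K P'] [Algebra ℂ P'] [IsScalarTower ℂ K P']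
  {n k p : ℕ} (D : Fin n → Derivation ℂ K K) (ξ : Fin k × Fin n → P) (c : Fin p → Fin k)
  (φ : P →ₐ[K] P')

omit [Algebra ℂ K] [Algebra ℂ P] [IsScalarTower ℂ K P] [Algebra ℂ P'] [IsScalarTower ℂ K P'] in
theorem map_Mon : (Mon K ξ c).map φ.toLinearMap = Mon K (φ ∘ ξ) c := by
  rw [Mon, Mon, Submodule.map_span, ← Set.range_comp]
  exact congrArg _ (congrArg _ (funext fun a => map_prod φ _ _))

theorem map_Reg (w : ZVal K) (e : ℤ) :
    (Reg D ξ c w e).map (φ.toLinearMap.restrictScalars ℂ) = Reg D (φ ∘ ξ) c w e := by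
  have h : ∀ (f : K) (u : Fin p → K), φ (f • ∏ r, dT D ξ (c r) (u r)) =
      f • ∏ r, dT D (φ ∘ ξ) (c r) (u r) := fun f u => by
    simp only [dT, map_smul, map_prod, map_sum, Function.comp_apply]
  rw [Reg, Reg, Submodule.map_span]
  refine congrArg _ (Set.ext fun T => ⟨?_, ?_⟩)
  · rintro ⟨_, ⟨f, u, h1, h2, rfl⟩, rfl⟩
    exact ⟨f, u, h1, h2, h f u⟩
  · rintro ⟨f, u, h1, h2, rfl⟩
    exact ⟨_, ⟨f, u, h1, h2, rfl⟩, h f u⟩

theorem map_SecE (hφ : Function.Injective φ) (x g : ι → Kˣ) (t a : ℕ) :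
    (SecE D ξ c x g t a).map (φ.toLinearMap.restrictScalars ℂ) = SecE D (φ ∘ ξ) c x g t a := by
  have h : ∀ (w : ZVal K) (T : P), φ T ∈ Reg D (φ ∘ ξ) c w 0 ↔ T ∈ Reg D ξ c w 0 := fun w T => by
    rw [← map_Reg]
    exact ⟨fun ⟨_, h1, h2⟩ => hφ h2 ▸ h1, fun h => ⟨T, h, rfl⟩⟩
  refine Submodule.ext fun T => ⟨?_, fun hT => ?_⟩
  · rintro ⟨T, hT, rfl⟩
    refine ⟨map_Mon ξ c φ ▸ ⟨T, hT.1, rfl⟩, fun j w hw => ?_⟩
    have h1 := (h w _).2 (hT.2 j w hw)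
    rwa [map_smul] at h1
  · obtain ⟨T, h1, rfl⟩ := (map_Mon ξ c φ).ge hT.1
    refine ⟨T, ⟨h1, fun j w hw => (h w _).1 ?_⟩, rfl⟩
    rw [map_smul]
    exact hT.2 j w hw

end map

theorem Emb.tens {K K' κ : Type} [Field K] [Algebra ℂ K] [Field K'] [Algebra ℂ K'] [Algebra K K']
    [IsScalarTower ℂ K K'] [Fintype κ] {N n k p : ℕ} {x : Fin (N + 1) → Kˣ}
    (normal : ∀ i, IsFractionRing (chart x i) K ∧ IsIntegrallyClosed (chart x i))
    {τ : Fin n → K} (_hτ : IsTranscendenceBasis ℂ τ) {D : Fin n → Derivation ℂ K K}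
    (hD : ∀ a b, D a (τ b) = if a = b then 1 else 0) {L : Prm x →₀ ℤ} (nef : IsNef L)
    {ξ : Fin k × Fin n → K'} (hξ : AlgebraicIndependent K ξ) (c : Fin p → Fin k) (E : Emb L κ) :
    ∃ (P : MvPolynomial (Fin 2) ℚ) (a₀ N' e : ℕ),
      (∀ t a, FiniteDimensional ℂ
        (SecE (P := MvPolynomial (Fin k × Fin n) K) D MvPolynomial.X c E.x' E.g' t a)) ∧
      (∀ t a : ℕ, a₀ ≤ a → (finrank ℂ
        (SecE (P := MvPolynomial (Fin k × Fin n) K) D MvPolynomial.X c E.x' E.g' t a) : ℚ) =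
          MvPolynomial.eval ![(t : ℚ), (a : ℚ)] P) ∧
      (∀ t : ℕ, (chi (SectT D ξ c (t • L)) : ℚ) = MvPolynomial.eval ![(t : ℚ), 0] P) ∧
      ∀ t a : ℕ, finrank ℂ
        (SecE (P := MvPolynomial (Fin k × Fin n) K) D MvPolynomial.X c E.x' E.g' t a) ≤
          N' * finrank ℂ (SecS E.x' E.g' t (a + e)) := by
  have : Nonempty κ := ⟨E.k₀⟩
  obtain ⟨I, _, Λ, h1, h2⟩ := TE.exists_lat hD hξ c
  obtain ⟨P, a₀, e, h3, h4, h5⟩ := Λ.emb_main E normal nef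
  have e0 : (MvPolynomial.aeval ξ : MvPolynomial _ K →ₐ[K] K') ∘ MvPolynomial.X = ξ :=
    funext fun v => MvPolynomial.aeval_X ξ v
  have e1 : ∀ t a : ℕ, (SecE D MvPolynomial.X c E.x' E.g' t a).map
      ((MvPolynomial.aeval ξ : MvPolynomial _ K →ₐ[K] K').toLinearMap.restrictScalars ℂ) =
        Λ.SE E.x' E.g' t a := fun t a => by
    rw [map_SecE D _ c _ hξ, e0]
    refine Submodule.ext fun T => ?_
    rw [mem_SecE, Λ.mem_SE, h1, h2]
    simp only [Algebra.smul_def, map_inv₀, div_eq_inv_mul]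
    rfl
  have e2 : ∀ t a : ℕ, Nonempty (SecE (P := MvPolynomial (Fin k × Fin n) K) D MvPolynomial.X c
      E.x' E.g' t a ≃ₗ[ℂ] Λ.SE E.x' E.g' t a) := fun t a =>
    ⟨(Submodule.equivMapOfInjective
      ((MvPolynomial.aeval ξ : MvPolynomial _ K →ₐ[K] K').toLinearMap.restrictScalars ℂ)
      (fun _ _ h => hξ h) _).trans (LinearEquiv.ofEq _ _ (e1 t a))⟩
  have e3 : ∀ L' : Prm x →₀ ℤ, SectT D ξ c L' = Λ.TS L' := fun L' => funext fun σ => by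
    rw [SectT, TE.Lat.TS, h1, h2]
  refine ⟨P, a₀, Fintype.card I, e, fun t a => ?_, fun t a ha => ?_,
    fun t => ?_, fun t a => ?_⟩
  · obtain ⟨ε⟩ := e2 t a
    have := (h3 t a).1
    exact ε.symm.finiteDimensional
  · obtain ⟨ε⟩ := e2 t a
    rw [ε.finrank_eq, h4 t a ha]
  · rw [e3, h5]
  · obtain ⟨ε⟩ := e2 t a
    rw [ε.finrank_eq]
    exact (h3 t a).2

end Pool.Agent.Lib.MP_bc213e_ag.OW
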