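import Pool.Agent.Lib.MP_bc213e_ag.TE.Main
import Pool.Agent.Lib.MP_bc213e_ag.TE.C
import Pool.Agent.Lib.MP_bc213e_ag.KL.G.Todd

/-! The theorem on the Euler characteristic of order `ν` of a sheaf of tensors. -/

namespace Pool.Agent.Lib.MP_bc213e_ag.OW

open Pool.Agent.Lib.MP_bc213e_ag.Hyp Pool.Agent.Lib.MP_bc213e_ag.KBB WithZero Filter

section poly

open Polynomial

theorem coeff_zero_of_le {q r : ℚ[X]} {ν : ℕ} (hr : r.natDegree ≤ ν) (h0 : r.coeff ν = 0)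
    (h : ∀ t : ℕ, |q.eval (t : ℚ)| ≤ |r.eval (t : ℚ)|) : q.coeff ν = 0 := by
  by_contra hq
  have hd : r.degree < q.degree := by
    refine lt_of_lt_of_le ?_ (le_degree_of_ne_zero hq)
    rw [degree_lt_iff_coeff_zero]
    intro m hm
    rcases hm.eq_or_lt with rfl | hm
    · exact h0
    · exact coeff_eq_zero_of_natDegree_lt (hr.trans_lt hm)
  have h1 := ((div_tendsto_atTop_zero_of_degree_lt _ _ hd).comp
    (tendsto_natCast_atTop_atTop (R := ℚ))).abs
  rw [abs_zero] at h1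
  have h2 := (tendsto_natCast_atTop_atTop (R := ℚ)).eventually
    (eventually_atTop_not_isRoot q fun e => hq (by rw [e, coeff_zero]))
  obtain ⟨t, h3, h4⟩ := ((h1.eventually_lt_const one_pos).and h2).exists
  simp only [Function.comp, abs_div] at h3
  exact (h t).not_gt ((div_lt_one (abs_pos.2 h4)).1 h3)

theorem exists_twoT (P : MvPolynomial (Fin 2) ℚ) {ν a₀ : ℕ}
    (h : ∀ a : ℕ, a₀ ≤ a → ∃ C : ℚ, ∀ t : ℕ,
      |MvPolynomial.eval ![(t : ℚ), (a : ℚ)] P| ≤ C * ((t : ℚ) + 1) ^ ν) :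
    ∃ Q : ℚ[X][X], (∀ t a : ℚ, Q.evalEval a t = MvPolynomial.eval ![t, a] P) ∧
      Q.natDegree ≤ ν := by
  let Q : ℚ[X][X] := MvPolynomial.aeval ![X, C X] P
  have hQ : ∀ t a : ℚ, Q.evalEval a t = MvPolynomial.eval ![t, a] P := fun t a => by
    simp only [Q, evalEval]
    clear h Q
    induction P using MvPolynomial.induction_on with
    | C r => simp
    | add p q hp hq => simp_all
    | mul_X p i hp => fin_cases i <;> simp_all
  refine ⟨Q, hQ, natDegree_le_iff_coeff_eq_zero.2 fun N hN => ?_⟩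
  refine eq_zero_of_infinite_isRoot _ (((Set.Ici_infinite a₀).image
    (Nat.cast_injective (R := ℚ)).injOn).mono ?_)
  rintro _ ⟨a, ha, rfl⟩
  obtain ⟨B, hB⟩ := h a ha
  have h1 := natDegree_le_of_bound (q := Q.map (evalRingHom a)) (C := B) fun t => by
    rw [map_evalRingHom_eval, hQ]
    exact hB t
  simpa using coeff_eq_zero_of_natDegree_lt (h1.trans_lt hN)

theorem top_ne_of_le {P Q : ℚ[X][X]} {ν a₀ e : ℕ} {c : ℚ} (hP : P.natDegree ≤ ν)
    (hQ : Q.coeff ν ≠ 0) (h : ∀ t a : ℕ, a₀ ≤ a →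
      |Q.evalEval (a : ℚ) (t : ℚ)| ≤ |c * P.evalEval ((a + e : ℕ) : ℚ) (t : ℚ)|) :
    P.coeff ν ≠ 0 := fun h0 => hQ <| by
  refine eq_zero_of_infinite_isRoot _ (((Set.Ici_infinite a₀).image
    (Nat.cast_injective (R := ℚ)).injOn).mono ?_)
  rintro _ ⟨a, ha, rfl⟩
  have h1 := coeff_zero_of_le (q := Q.map (evalRingHom (a : ℚ)))
    (r := C c * P.map (evalRingHom ((a + e : ℕ) : ℚ))) (ν := ν)
    ((natDegree_C_mul_le _ _).trans (natDegree_map_le.trans hP)) (by simp [h0]) fun t => by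
      rw [eval_mul, eval_C, map_evalRingHom_eval, map_evalRingHom_eval]
      exact h t a ha
  simpa using h1

end poly

theorem Emb.exists_suT {K κ : Type} [Field K] [Algebra ℂ K] [Fintype κ] {N n m d : ℕ} (hm : 0 < m)
    {x : Fin (N + 1) → Kˣ}
    (normal : ∀ i, IsFractionRing (chart x i) K ∧ IsIntegrallyClosed (chart x i))
    {τ : Fin n → K} (hτ : IsTranscendenceBasis ℂ τ) {D : Fin n → Derivation ℂ K K}
    (hD : ∀ a b, D a (τ b) = if a = b then 1 else 0)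
    {KX : Prm x →₀ ℤ} (canonical : IsCanonical D KX) {Δ : Prm x →₀ ℚ} (effective : 0 ≤ Δ)
    {L : Prm x →₀ ℤ} (hL : ∀ w, (L w : ℚ) = m * (KX w + Δ w)) (nef : IsNef L)
    (klt : ∀ (O : Subalgebra ℂ K) (F : Type) [Field F] [Algebra ℂ F] (ρ : O →ₐ[ℂ] F),
      IsPoint x O → Function.Surjective ρ → (d : Cardinal) < Algebra.trdeg ℂ F → KltAt D m L O)
    (E : Emb L κ) : ∃ S : DD.Su K (RatFunc K) κ n, S.x = E.x' ∧ S.g = E.g' ∧ S.D = D ∧
      S.d₀ = n - 1 ∧ S.VK d := by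
  refine ⟨⟨E.x', E.g', E.k₀, E.one, fun a => (E.normal normal a).1, fun a => (E.normal normal a).2,
    τ, hτ, D, hD, m, hm.ne', E.effective normal canonical effective hL, n - 1, fun a q hq h => ?_,
    E.cart, E.nef (fun i => (normal i).1) nef, RatFunc.X, RatFunc.transcendental_X,
    RatFunc.adjoin_X⟩, rfl, rfl, rfl, rfl, fun a p hp h3 A w hA hw h1 h2 => ?_⟩
  · have := (E.normal normal a).1
    exact E.sncKlt normal hD canonical hL a q (logSmooth_gen hτ hm Δ q h)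
  · obtain ⟨F, _, _, ρ, h4, h5⟩ := exists_residue p
    obtain ⟨k, hk⟩ := exists_least hA hw hD
    have h6 := klt _ F ρ ((E.loc a).isPoint p) h4 (h5 ▸ h3) A w k (E.g' a)⁻¹ hA hw (by
      rintro r ⟨s, hs, h6⟩
      have h8 := h1 ⟨_, h6⟩
      rwa [map_mul, h2 s hs, one_mul] at h8) hk (E.locEq a (loc_locAt p))
    obtain ⟨u, u1, u2, u3⟩ := hk.1
    rw [Units.val_inv_eq_inv_val, ord_inv] at h6
    have h7 : (0 : ℚ) < m := Nat.cast_pos.2 hm
    have h8 : ((m : ℤ) * -k : ℚ) < (m : ℤ) + ord w (E.g' a : K) := by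
      have h9 := mul_lt_mul_of_pos_left h6 h7
      rw [mul_sub, mul_div_cancel₀ _ h7.ne'] at h9
      push_cast at h9 ⊢
      linarith
    have h9 : (m : ℤ) * -k < m + ord w (E.g' a : K) := by exact_mod_cast h8
    refine VK.ld_of_klt (by simpa using hτ.lift_cardinalMk_eq_trdeg.symm) D
      (fun c => hw.2.1 _ (A.algebraMap_mem c)) hw.1 u1 u2 ?_
    change exp (-(m : ℤ)) * w (E.g' a : K) < w (jac D u) ^ m
    rw [(ord_eq_iff w u2 _).1 u3, (ord_eq_iff w (E.g' a).ne_zero _).1 rfl, ← exp_nsmul, ← exp_add,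
      exp_lt_exp, nsmul_eq_mul]
    linarith

theorem smooth_chart {K ι : Type} [Field K] [Algebra ℂ K] {n : ℕ} (x : ι → Kˣ) [Fintype ι] (i : ι)
    (q : Ideal (chart x i)) [q.IsPrime] (h : SmoothAt n (locAt (chart x i) q)) :
    ∃ (ζ : Fin n → chart x i) (s : chart x i), s ∉ q ∧
      ∀ f, s • KaehlerDifferential.D ℂ (chart x i) f ∈ Submodule.span (chart x i)
        (Set.range fun l => KaehlerDifferential.D ℂ (chart x i) (ζ l)) := by
  obtain ⟨ζ, hζ⟩ := h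
  obtain ⟨ζ', -, -, -, h1⟩ := klt_den q ζ hζ
  have : Algebra.FiniteType ℂ (chart x i) :=
    (Subalgebra.fg_iff_finiteType _).1 (Subalgebra.fg_def.2 ⟨_, Set.finite_range _, rfl⟩)
  obtain ⟨s, hs, h2⟩ := klt_span q ζ' h1
  exact ⟨ζ', s, hs, fun f => h2 _⟩

theorem tens_klt {K K' : Type} [Field K] [Algebra ℂ K] [Field K'] [Algebra ℂ K'] [Algebra K K']
    [IsScalarTower ℂ K K'] {N n m ν k p : ℕ} (hm : 0 < m) (x : Fin (N + 1) → Kˣ)
    (normal : ∀ i, IsFractionRing (chart x i) K ∧ IsIntegrallyClosed (chart x i))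
    (τ : Fin n → K) (hτ : IsTranscendenceBasis ℂ τ) (D : Fin n → Derivation ℂ K K)
    (hD : ∀ a b, D a (τ b) = if a = b then 1 else 0)
    (KX : Prm x →₀ ℤ) (canonical : IsCanonical D KX) (Δ : Prm x →₀ ℚ) (effective : 0 ≤ Δ)
    (L : Prm x →₀ ℤ) (hL : ∀ w, (L w : ℚ) = m * (KX w + Δ w))
    (cartier : IsCartier L) (nef : IsNef L)
    (klt : ∀ (O : Subalgebra ℂ K) (F : Type) [Field F] [Algebra ℂ F] (ρ : O →ₐ[ℂ] F),
      IsPoint x O → Function.Surjective ρ → (ν : Cardinal) < Algebra.trdeg ℂ F →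
        KltAt D m L O ∧ (p = 0 ∨ SmoothAt n O))
    (H : Prm x →₀ ℤ)
    (hyperplane : ∀ i (w : Prm x), PrimeDiv (chart x i) w.1 → H w = ord w.1 ((x 0 : K) / x i))
    (numdim : ∀ i j, ν < i → i + j = n → inter L H i j = 0)
    (ξ : Fin k × Fin n → K') (hξ : AlgebraicIndependent K ξ) (type : Fin p → Fin k)
    (c : ℚ) (hc : 0 < c)
    (euler : ∃ᶠ t : ℕ in atTop, c * (t : ℚ) ^ ν ≤ |(chi (SectT D ξ type (t • L)) : ℚ)|) :
    ∃ δ : ℚ, 0 < δ ∧ ∃ᶠ t : ℕ in atTop,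
      δ * (t : ℚ) ^ ν ≤ Module.finrank ℂ (Sect (t • L) ∅) := by
  obtain ⟨κ, _, ⟨E⟩⟩ := exists_emb normal cartier
  have hnef := E.nef (fun i => (normal i).1) nef
  have : Nonempty κ := ⟨E.k₀⟩
  obtain ⟨P, a₀, hP⟩ := uniform E.x' E.g' E.cart hnef
  obtain ⟨Q, a₁, N', e, e1, e2, e3, e4⟩ := E.tens normal hτ hD nef hξ type
  have tr : Algebra.trdeg ℂ K = n := by
    have h := hτ.lift_cardinalMk_eq_trdeg
    simpa using h.symm
  have hb := td_bound (E.td normal hnef tr hyperplane numdim (a₀ := a₀) fun t a ha => by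
    rw [← E.finrank_eq]
    exact (hP t a ha).2)
  have h1 : ∀ t a : ℕ, a₀ + a₁ ≤ a → |MvPolynomial.eval ![(t : ℚ), (a : ℚ)] Q| ≤
      |(N' : ℚ) * MvPolynomial.eval ![(t : ℚ), ((a + e : ℕ) : ℚ)] P| := fun t a ha => by
    rw [← e2 t a (by omega), ← (hP t (a + e) (by omega)).2, ← Nat.cast_mul, Nat.abs_cast,
      Nat.abs_cast]
    exact Nat.cast_le.2 (e4 t a)
  obtain ⟨P', p1, p2⟩ := exists_twoT P (ν := ν) (a₀ := 0) fun a _ => hb a
  obtain ⟨Q', q1, q2, q3⟩ := exists_two Q (ν := ν) (a₀ := a₀ + a₁) (fun a ha => by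
    obtain ⟨C, hC⟩ := hb ((a + e : ℕ) : ℚ)
    refine ⟨N' * C, fun t => (h1 t a ha).trans ?_⟩
    rw [abs_mul, Nat.abs_cast, mul_assoc]
    exact mul_le_mul_of_nonneg_left (hC t) (Nat.cast_nonneg _)) hc
    (by simpa only [e3] using euler)
  have top : P'.coeff ν ≠ 0 := top_ne_of_le (Q := Q') (a₀ := a₀ + a₁) (e := e) (c := N') p2
    (fun h => q3 (by rw [h, Polynomial.eval_zero])) fun t a ha => by
      rw [p1, Polynomial.evalEval, q1]
      exact h1 t a ha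
  obtain ⟨S, s1, s2, s3, s4, s5⟩ := E.exists_suT hm normal hτ hD canonical effective hL nef
    fun O F _ _ ρ h1 h2 h3 => (klt O F ρ h1 h2 h3).1
  have hQ : ∀ t a : ℕ, a₁ ≤ a → (Module.finrank ℂ (S.SE type t a) : ℚ) =
      Q'.evalEval (a : ℚ) (t : ℚ) := fun t a ha => by
    rw [Polynomial.evalEval, q1, ← e2 t a ha, DD.Su.SE, s1, s2, s3]
  have h2 : ∃ δ : ℚ, 0 < δ ∧ ∃ᶠ t : ℕ in atTop,
      δ * (t : ℚ) ^ ν ≤ Module.finrank ℂ (SecS S.x S.g t 0) := by
    rcases Nat.eq_zero_or_pos p with rfl | hp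
    · refine S.growthk s4 s5 q2 q3 fun t => ?_
      filter_upwards [eventually_ge_atTop a₁] with a ha
      rw [← hQ t a ha, S.finrank_SE_zero]
    · have hs : S.Sm ν := fun i q hq h3 => by
        obtain ⟨F, _, _, ρ, h4, h5⟩ := exists_residue q
        have h6 : Loc (chart x (E.j i)) (chart S.x i) := s1 ▸ E.loc i
        exact smooth_chart S.x i q
          ((klt _ F ρ (h6.isPoint q) h4 (h5 ▸ h3)).2.resolve_left hp.ne')
      have hfd : ∀ t a, FiniteDimensional ℂ (S.SE type t a) := fun t a => by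
        rw [DD.Su.SE, s1, s2, s3]
        exact e1 t a
      refine S.growthT s4 s5 hs type p2 top (fun t => ?_) hfd q2 q3 hQ
      filter_upwards [eventually_ge_atTop a₀] with a ha
      rw [s1, s2, (hP t a ha).2, p1]
  rw [s1, s2] at h2
  have h9 : ∀ t : ℕ, Module.finrank ℂ (Tw (t • L) (E.k * 0)) =
      Module.finrank ℂ (Sect (t • L) ∅) := fun t => by rw [mul_zero, tw_zero]
  simpa only [E.finrank_eq, h9] using h2

end Pool.Agent.Lib.MP_bc213e_ag.OW
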