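import Pool.Agent.Lib.MP_bc213e_ag.TE.IDefs

/-! Generation of the sections of the graded sheaf of tensors on the fibre. -/

namespace Pool.Agent.Lib.MP_bc213e_ag.DD.Geo

open Pool.Agent.Lib.MP_bc213e_ag.Hyp Pool.Agent.Lib.MP_bc213e_ag.DA Pool.Agent.Lib.MP_bc213e_ag.Jet
open Pool.Agent.Lib.MP_bc213e_ag.KBB Pool.Agent.Lib.MP_bc213e_ag.OW Module
open scoped TensorProduct MonomialOrder

variable {K M ι : Type} [Field K] [Algebra ℂ K] [Field M] [Algebra ℂ M] [Algebra K M] {n : ℕ}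
  {S : Su K M ι n} {Ω E : Type} [Field Ω] [Algebra ℂ Ω] [Field E] [Algebra ℂ E] [Algebra Ω E]
  [IsScalarTower ℂ Ω E] {b φ : ℕ} (G : Geo S Ω E b φ) [IsScalarTower ℂ K M] [Fintype ι]
  {k p : ℕ} {j₀ : Fin b}

theorem ratio_E {κ : Type} [Finite κ] (z : κ → E) :
    ∃ (N : ℕ) (t : E), t ≠ 0 ∧ ∀ i, t * z i ∈ G.R N := by
  have : IsFractionRing (G.C S.i₀) E := IsFractionRing.of_field _ _ fun z => by
    obtain ⟨a, ha, b, hb, e⟩ := IntermediateField.mem_adjoin_iff_div.1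
      (G.gen_E S.i₀ ▸ IntermediateField.mem_top :
        z ∈ IntermediateField.adjoin Ω (Set.range fun o => G.ι (S.gen S.i₀ o)))
    exact ⟨⟨a, ha⟩, ⟨b, hb⟩, e⟩
  obtain ⟨d, hd⟩ :=
    IsLocalization.exist_integer_multiples_of_finite (nonZeroDivisors (G.C S.i₀)) z
  choose r hr using hd
  choose N hN using fun i => G.homog (r i).2
  obtain ⟨N₀, h₀⟩ := (Set.finite_range N).bddAbove
  refine ⟨N₀, d.1, fun e => nonZeroDivisors.ne_zero d.2 (Subtype.ext e), fun i => ?_⟩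
  have := hN i N₀ (h₀ ⟨i, rfl⟩)
  rwa [G.X_one, one_pow, one_mul, show (r i : E) = d.1 * z i from hr i] at this

theorem mem_Bd {a : ℕ} {w : E} (hw : ∀ j, w / G.X j ^ a ∈ G.C j) : w ∈ DB.Bd Ω G.X a := by
  intro O c h1 _ _ h4
  obtain ⟨j, -, hj⟩ := Finset.univ.exists_max_image (fun l => O.valuation (G.X l))
    ⟨S.i₀, Finset.mem_univ _⟩
  have h5 := G.fibre_C_le O h1 j (fun l => (O.valuation_le_one_iff _).1 (by
    rw [map_div₀]
    exact div_le_one_of_le₀ (hj l (Finset.mem_univ _)) zero_le)) (hw j)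
  have h6 := mul_mem h5 (pow_mem (h4 j) a)
  rwa [div_pow, div_mul_div_cancel₀ (pow_ne_zero _ (G.X_ne j))] at h6

section gen

open MvPolynomial

variable {σ O : Type} (Y : ι → O → MvPolynomial σ E)

/-- The sections over the chart `j`. -/
noncomputable def GJ (a : ℕ) (j : ι) : Submodule Ω (MvPolynomial σ E) :=
  Submodule.span Ω {T | ∃ f ∈ G.C j, ∃ o, T = MvPolynomial.C (G.X j ^ a * f) * Y j o}

/-- The sections generated in degree `N`. -/
noncomputable def MY (a N : ℕ) : Submodule Ω (MvPolynomial σ E) :=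
  Submodule.span Ω {T | ∃ j, ∃ w ∈ G.R a, ∃ o, T = MvPolynomial.C (G.X j ^ N * w) * Y j o}

variable (σ) in
/-- The linear forms. -/
noncomputable def VX : Submodule Ω (MvPolynomial σ E) :=
  Submodule.span Ω (Set.range fun l => MvPolynomial.C (G.X l))

omit [IsScalarTower ℂ K M] [Fintype ι] in
theorem VX_eq : G.VX σ = (Submodule.span Ω (Set.range G.X)).map
    (IsScalarTower.toAlgHom Ω E (MvPolynomial σ E)).toLinearMap := by
  rw [Submodule.map_span, ← Set.range_comp]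
  rfl

theorem GJ_le [Finite O] : ∃ M₀ : Submodule Ω (MvPolynomial σ E), M₀.FG ∧
    ∀ a, ⨅ j, G.GJ Y a j ≤ G.VX σ ^ a * M₀ := by
  classical
  have : CharZero Ω := charZero_of_injective_algebraMap (algebraMap ℂ Ω).injective
  have := Fintype.ofFinite O
  have hV := Submodule.fg_span (R := Ω) (Set.finite_range G.X)
  obtain ⟨M₁, h1, h2⟩ := DB.gcd_mod G.X _ G.fibre_hw (G.gen_E S.i₀) G.trdeg_E _ hV
    (Submodule.subset_span ⟨S.i₀, G.X_one⟩) fun i => Submodule.subset_span ⟨i, rfl⟩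
  obtain ⟨A, hA⟩ : ∃ A : Finset (σ →₀ ℕ), ∀ j o μ, μ ∉ A → (Y j o).coeff μ = 0 :=
    ⟨Finset.univ.biUnion fun q : ι × O => (Y q.1 q.2).support, fun j o μ h => by_contra fun e =>
      h (Finset.mem_biUnion.2 ⟨(j, o), Finset.mem_univ _, mem_support_iff.2 e⟩)⟩
  obtain ⟨N, t, t0, ht⟩ := G.ratio_E fun q : ι × O × A => (Y q.1 q.2.1).coeff q.2.2
  have key : ∀ a j, ∀ T ∈ G.GJ Y a j, (∀ μ, μ ∉ A → T.coeff μ = 0) ∧
      ∀ μ ∈ A, t * T.coeff μ / G.X j ^ (a + N) ∈ G.C j := fun a j T hT => by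
    induction hT using Submodule.span_induction with
    | mem T hT =>
      obtain ⟨f, hf, o, rfl⟩ := hT
      refine ⟨fun μ h => by rw [coeff_C_mul, hA j o μ h, mul_zero], fun μ h => ?_⟩
      have := mul_mem hf (div_mem_C (ht (j, o, ⟨μ, h⟩)) j)
      convert this using 1
      have := G.X_ne j
      rw [coeff_C_mul, pow_add]
      field_simp
    | zero => exact ⟨fun _ _ => rfl, fun _ _ => by simp⟩
    | add T T' _ _ h h' =>
      refine ⟨fun μ e => by rw [coeff_add, h.1 μ e, h'.1 μ e, add_zero], fun μ e => ?_⟩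
      rw [coeff_add, mul_add, add_div]
      exact add_mem (h.2 μ e) (h'.2 μ e)
    | smul z T _ h =>
      refine ⟨fun μ e => by rw [coeff_smul, h.1 μ e, smul_zero], fun μ e => ?_⟩
      rw [coeff_smul, mul_smul_comm, smul_div_assoc]
      exact Subalgebra.smul_mem _ (h.2 μ e) z
  refine ⟨G.VX σ ^ N * M₁.map (IsScalarTower.toAlgHom Ω E (MvPolynomial σ E)).toLinearMap *
    Submodule.span Ω ((fun μ => monomial μ t⁻¹) '' (A : Set (σ →₀ ℕ))),
    (((Submodule.fg_span (Set.finite_range _)).pow N).mul (h1.map _)).mul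
      (Submodule.fg_span (A.finite_toSet.image _)), fun a T hT => ?_⟩
  have h3 := fun j => key a j T ((Submodule.mem_iInf _).1 hT j)
  have h4 : T = ∑ μ ∈ A, MvPolynomial.C (t * T.coeff μ) * monomial μ t⁻¹ := by
    simp only [C_mul_monomial, mul_right_comm t, mul_inv_cancel₀ t0, one_mul]
    exact T.as_sum.trans (Finset.sum_subset
      (fun μ h => by_contra fun e => mem_support_iff.1 h ((h3 S.i₀).1 μ e))
      fun μ _ h => by rw [notMem_support_iff.1 h, map_zero])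
  rw [h4, ← mul_assoc, ← mul_assoc, ← pow_add, VX_eq, ← Submodule.map_pow, ← Submodule.map_mul]
  exact Submodule.sum_mem _ fun μ h => Submodule.mul_mem_mul
    (Submodule.mem_map_of_mem (h2 _ (G.mem_Bd fun j => (h3 j).2 μ h)))
    (Submodule.subset_span ⟨μ, h, rfl⟩)

theorem fd_GJ [Finite O] (a : ℕ) : FiniteDimensional Ω (⨅ j, G.GJ Y a j :) := by
  obtain ⟨M₀, h1, h2⟩ := G.GJ_le Y
  have : FiniteDimensional Ω (G.VX σ ^ a * M₀ :) := (Submodule.fg_iff_finiteDimensional _).1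
    (((Submodule.fg_span (Set.finite_range _)).pow a).mul h1)
  exact Submodule.finiteDimensional_of_le (h2 a)

omit [IsScalarTower ℂ K M] [Fintype ι] in
theorem VX_mul (a : ℕ) (j : ι) : G.VX σ * G.GJ Y a j ≤ G.GJ Y (a + 1) j := by
  rw [VX, GJ, Submodule.span_mul_span]
  refine Submodule.span_mono ?_
  rintro _ ⟨_, ⟨l, rfl⟩, _, ⟨f, hf, o, rfl⟩, rfl⟩
  refine ⟨_, mul_mem (G.fibre_gen j l ▸ G.ι_mem_C (S.gen_mem j (some l))) hf, o, ?_⟩
  have := G.X_ne j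
  beta_reduce
  rw [← mul_assoc, ← map_mul]
  congr 2
  field_simp
  ring

omit [IsScalarTower ℂ K M] [Fintype ι] in
theorem VX_MY (a N d : ℕ) : G.VX σ ^ d * G.MY Y a N ≤ G.MY Y (a + d) N := by
  induction d with
  | zero => simp
  | succ d ih =>
    rw [pow_succ', mul_assoc]
    refine (mul_le_mul_right ih _).trans ?_
    rw [VX, MY, Submodule.span_mul_span]
    refine Submodule.span_mono ?_
    rintro _ ⟨_, ⟨l, rfl⟩, _, ⟨j, w, hw, o, rfl⟩, rfl⟩
    have h1 : w * G.X l ∈ G.R (a + d + 1) := mul_mem_R hw (G.X_mem_R l)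
    refine ⟨j, _, add_assoc a d 1 ▸ h1, o, ?_⟩
    beta_reduce
    rw [← mul_assoc, ← map_mul]
    congr 2
    ring

theorem GJ_le_MY [Finite O] (N : ℕ) :
    ∃ a₀, ∀ a, a₀ ≤ a → ⨅ j, G.GJ Y (a + N) j ≤ G.MY Y a N := by
  obtain ⟨M₀, h1, h2⟩ := G.GJ_le Y
  obtain ⟨μ₀, hμ⟩ := KBN.noeth_gen (Submodule.fg_span (Set.finite_range _)) h1 _ h2 fun μ =>
    le_iInf fun j => (mul_le_mul_right (iInf_le _ j) _).trans (G.VX_mul Y μ j)
  have h3 : ∀ j, ∀ T ∈ G.GJ Y μ₀ j, ∃ N₁, ∀ d, N₁ ≤ d →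
      MvPolynomial.C (G.X j) ^ (N + d) * T ∈ G.MY Y (μ₀ + d) N := fun j T hT => by
    induction hT using Submodule.span_induction with
    | mem T hT =>
      obtain ⟨f, hf, o, rfl⟩ := hT
      obtain ⟨N₁, h⟩ := G.homog hf
      refine ⟨N₁, fun d hd => Submodule.subset_span ⟨j, _, h (μ₀ + d) (by omega), o, ?_⟩⟩
      rw [← mul_assoc, ← map_pow, ← map_mul]
      congr 2
      ring
    | zero => exact ⟨0, fun _ _ => by simp⟩
    | add T T' _ _ h h' =>
      obtain ⟨m, hm⟩ := h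
      obtain ⟨m', hm'⟩ := h'
      exact ⟨max m m', fun d hd => mul_add _ T T' ▸
        add_mem (hm d (le_of_max_le_left hd)) (hm' d (le_of_max_le_right hd))⟩
    | smul z T _ h =>
      exact h.imp fun m hm d hd => mul_smul_comm z _ T ▸ Submodule.smul_mem _ z (hm d hd)
  obtain ⟨t, ht⟩ := (Submodule.fg_iff_finiteDimensional _).2 (G.fd_GJ Y μ₀)
  choose m hm using fun q : t × ι => h3 q.2 q.1
    ((Submodule.mem_iInf _).1 (ht ▸ Submodule.subset_span q.1.2) q.2)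
  obtain ⟨N₀, h₀⟩ := (Set.finite_range m).bddAbove
  have h4 : Submodule.span Ω (Set.range fun j => MvPolynomial.C (G.X j) ^ (N + N₀)) *
      ⨅ j, G.GJ Y μ₀ j ≤ G.MY Y (μ₀ + N₀) N := by
    rw [← ht, Submodule.span_mul_span, Submodule.span_le]
    rintro _ ⟨_, ⟨j, rfl⟩, T, hT, rfl⟩
    exact hm (⟨T, hT⟩, j) N₀ (h₀ ⟨_, rfl⟩)
  have : Nonempty ι := ⟨S.i₀⟩
  refine ⟨μ₀ + N₀ + Fintype.card ι * (N + N₀), fun a ha => ?_⟩
  obtain ⟨d, rfl⟩ := Nat.exists_eq_add_of_le ((Nat.le_add_right _ _).trans ha)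
  have h5 := KBN.noeth_pow (M := fun μ => ⨅ j, G.GJ Y μ j) hμ le_rfl (N + N₀ + d)
  rw [show μ₀ + (N + N₀ + d) = μ₀ + N₀ + d + N by omega] at h5
  refine h5.trans ((mul_le_mul_left (fibre_pow _ (by omega)) _).trans ?_)
  rw [mul_right_comm, mul_comm]
  exact (mul_le_mul_right h4 _).trans (G.VX_MY Y _ N d)

omit [IsScalarTower ℂ K M] in
theorem fd_MY [Finite O] (a N : ℕ) : FiniteDimensional Ω (G.MY Y a N) := by
  have := (Submodule.fg_iff_finiteDimensional _).1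
    ((((Submodule.fg_iff_finiteDimensional _).2 (G.fd_R a)).map
      (IsScalarTower.toAlgHom Ω E (MvPolynomial σ E)).toLinearMap).mul
      (Submodule.fg_span (Set.finite_range
        fun q : ι × O => MvPolynomial.C (G.X q.1 ^ N) * Y q.1 q.2)))
  refine @Submodule.finiteDimensional_of_le _ _ _ _ _ _ _ this (Submodule.span_le.2 ?_)
  rintro _ ⟨j, w, hw, o, rfl⟩
  rw [mul_comm _ w, map_mul, mul_assoc]
  exact Submodule.mul_mem_mul (Submodule.mem_map_of_mem hw) (Submodule.subset_span ⟨(j, o), rfl⟩)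

end gen

theorem fd_GT (j₀ : Fin b) (c : Fin p → Fin k) (a : ℕ) : FiniteDimensional Ω (G.GT j₀ c a) :=
  G.fd_GJ (fun j (o : Fin p → Fin b ⊕ Option ι) => ∏ r, G.gn j₀ j (c r) (o r)) a

theorem GT_le_MT (j₀ : Fin b) (c : Fin p → Fin k) (N : ℕ) :
    ∃ a₀, ∀ a, a₀ ≤ a → G.GT j₀ c (a + N) ≤ G.MT j₀ c a N :=
  G.GJ_le_MY (fun j (o : Fin p → Fin b ⊕ Option ι) => ∏ r, G.gn j₀ j (c r) (o r)) N

omit [IsScalarTower ℂ K M] in
theorem fd_MT (j₀ : Fin b) (c : Fin p → Fin k) (a N : ℕ) :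
    FiniteDimensional Ω (G.MT j₀ c a N) :=
  G.fd_MY (fun j (o : Fin p → Fin b ⊕ Option ι) => ∏ r, G.gn j₀ j (c r) (o r)) a N

end Pool.Agent.Lib.MP_bc213e_ag.DD.Geo
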