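import Pool.Agent.Lib.MP_bc213e_ag.TE.Defs
import Pool.Agent.Lib.MP_bc213e_ag.DF.Large

/-! Internal definitions for the theorem on tensors. -/

namespace Pool.Agent.Lib.MP_bc213e_ag

open Hyp KBB DA Jet WithZero
open scoped TensorProduct MonomialOrder

noncomputable section

namespace OW

variable {K P ι : Type} [Field K] [Algebra ℂ K] [CommRing P] [Algebra K P] [Algebra ℂ P]
  [IsScalarTower ℂ K P] {n k p : ℕ} (D : Fin n → Derivation ℂ K K) (ξ : Fin k × Fin n → P)
  (c : Fin p → Fin k)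

/-- Global sections of the sheaf of tensors twisted by `t L + a H`. -/
def SecE (x g : ι → Kˣ) (t a : ℕ) : Submodule ℂ P where
  carrier := {T | T ∈ Mon K ξ c ∧ ∀ j (w : ZVal K), PrimeDiv (chart x j) w →
    (fr x g t a j)⁻¹ • T ∈ Reg D ξ c w 0}
  add_mem' := fun ha hb => ⟨add_mem ha.1 hb.1, fun j w h => by
    rw [smul_add]
    exact add_mem (ha.2 j w h) (hb.2 j w h)⟩
  zero_mem' := ⟨zero_mem _, fun j w _ => by
    rw [smul_zero]
    exact zero_mem _⟩
  smul_mem' := fun z T hT => ⟨Submodule.smul_of_tower_mem _ z hT.1, fun j w h => by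
    rw [smul_comm]
    exact Submodule.smul_mem _ z (hT.2 j w h)⟩

theorem mem_SecE {x g : ι → Kˣ} {t a : ℕ} {T : P} : T ∈ SecE D ξ c x g t a ↔
    T ∈ Mon K ξ c ∧ ∀ j (w : ZVal K), PrimeDiv (chart x j) w →
      (fr x g t a j)⁻¹ • T ∈ Reg D ξ c w 0 := Iff.rfl

end OW

namespace DD

/-- Exchange of the polynomial and the power series variables. -/
def swp (Ω σ τ E : Type) [CommRing Ω] [CommRing E] [Algebra Ω E] :
    MvPolynomial σ (MvPowerSeries τ E) →ₐ[Ω] MvPowerSeries τ (MvPolynomial σ E) :=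
  MvPolynomial.aevalTower (MvPowerSeries.mapAlgHom (IsScalarTower.toAlgHom Ω E (MvPolynomial σ E)))
    fun v => MvPowerSeries.C (MvPolynomial.X v)

/-- Functions as tensors of degree zero. -/
def cT (Ω σ M : Type) [CommRing Ω] [Algebra ℂ Ω] [CommRing M] [Algebra ℂ M] :
    Ω ⊗[ℂ] M →ₐ[Ω] Ω ⊗[ℂ] MvPolynomial σ M :=
  Algebra.TensorProduct.map (AlgHom.id Ω Ω) (IsScalarTower.toAlgHom ℂ M (MvPolynomial σ M))

/-- The type of a one-form on the summand `s`. -/
abbrev one {k : ℕ} (s : Fin k) : Fin 1 → Fin k := fun _ => s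

namespace Su

variable {K M ι : Type} [Field K] [Algebra ℂ K] [Field M] [Algebra ℂ M] [Algebra K M] {n : ℕ}
  (S : Su K M ι n) {k p : ℕ}

/-- `X` is smooth at the points of dimension more than `d`. -/
def Sm (d : ℕ) : Prop :=
  ∀ i (q : Ideal (chart S.x i)), q.IsPrime → (d : Cardinal) < Algebra.trdeg ℂ (chart S.x i ⧸ q) →
    ∃ (ζ : Fin n → chart S.x i) (s : chart S.x i), s ∉ q ∧
      ∀ f, s • KaehlerDifferential.D ℂ (chart S.x i) f ∈ Submodule.span (chart S.x i)
        (Set.range fun l => KaehlerDifferential.D ℂ (chart S.x i) (ζ l))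

/-- Global sections of the sheaf of tensors twisted by `t L + a H`. -/
abbrev SE (c : Fin p → Fin k) (t a : ℕ) : Submodule ℂ (MvPolynomial (Fin k × Fin n) K) :=
  OW.SecE S.D MvPolynomial.X c S.x S.g t a

/-- Sections on `W` of the pull-back of the sheaf of tensors twisted by `m ξ + a H`. -/
def VT (c : Fin p → Fin k) (m a : ℕ) : Submodule ℂ (MvPolynomial (Fin k × Fin n) M) :=
  Submodule.span ℂ {T | ∃ i ≤ m, ∃ ω ∈ S.SE c i a,
    T = MvPolynomial.C (S.u ^ i) * MvPolynomial.map (algebraMap K M) ω}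

variable [IsScalarTower ℂ K M]

/-- The Euler vector field `u ∂/∂u`. -/
def eps : Derivation ℂ M M := S.u • S.Dref none

/-- The differential at constant `u`. -/
def dK (s : Fin k) (f : M) : MvPolynomial (Fin k × Fin n) M :=
  ∑ a, MvPolynomial.C (S.Dref (some a) f) * MvPolynomial.X (s, a)

end Su

namespace Geo

variable {K M ι : Type} [Field K] [Algebra ℂ K] [Field M] [Algebra ℂ M] [Algebra K M] {n : ℕ}
  {S : Su K M ι n} {Ω E : Type} [Field Ω] [Algebra ℂ Ω] [Field E] [Algebra ℂ E] [Algebra Ω E]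
  [IsScalarTower ℂ Ω E] {b φ : ℕ} (G : Geo S Ω E b φ) {k p : ℕ}

/-- The derivations of the function field of the fibre. -/
def DE (d : Fin φ) : Derivation Ω E E :=
  (G.exists_der_E (D := G.D₀ (Sum.inr d)) (G.D_inr G.frame d)).choose

theorem DE_ι (d : Fin φ) (f : M) : G.DE d (G.ι f) = G.ι (G.D₀ (Sum.inr d) f) :=
  (G.exists_der_E (D := G.D₀ (Sum.inr d)) (G.D_inr G.frame d)).choose_spec f

/-- The differential along the fibre. -/
def dF (s : Fin k) (w : E) : MvPolynomial (Fin k × (Fin b ⊕ Fin φ)) E :=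
  ∑ d, MvPolynomial.C (G.DE d w) * MvPolynomial.X (s, Sum.inr d)

/-- The generators of the graded pieces of the basic one-forms on the chart `j`. -/
def gn (j₀ : Fin b) (j : ι) (s : Fin k) (o : Fin b ⊕ Option ι) :
    MvPolynomial (Fin k × (Fin b ⊕ Fin φ)) E :=
  o.elim (fun i => if i = j₀ then 0 else MvPolynomial.X (s, Sum.inl i))
    fun o => G.dF s (G.ι (S.gen j o))

/-- The sections on the fibre of the graded sheaf of tensors twisted by `a H`. -/
def GT (j₀ : Fin b) (c : Fin p → Fin k) (a : ℕ) :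
    Submodule Ω (MvPolynomial (Fin k × (Fin b ⊕ Fin φ)) E) :=
  ⨅ j, Submodule.span Ω {T | ∃ f ∈ G.C j, ∃ o : Fin p → Fin b ⊕ Option ι,
    T = MvPolynomial.C (G.X j ^ a * f) * ∏ r, G.gn j₀ j (c r) (o r)}

/-- The sections that are generated by the standard generators. -/
def MT (j₀ : Fin b) (c : Fin p → Fin k) (a N : ℕ) :
    Submodule Ω (MvPolynomial (Fin k × (Fin b ⊕ Fin φ)) E) :=
  Submodule.span Ω {T | ∃ j, ∃ w ∈ G.R a, ∃ o : Fin p → Fin b ⊕ Option ι,
    T = MvPolynomial.C (G.X j ^ N * w) * ∏ r, G.gn j₀ j (c r) (o r)}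

variable [IsScalarTower ℂ K M]

/-- `j₀` is the largest index with `eps (y j₀) ≠ 0`. -/
def Top (j₀ : Fin b) : Prop :=
  S.eps (G.y j₀) ≠ 0 ∧ ∀ i, S.eps (G.y i) ≠ 0 →
    Finsupp.single i 1 ≼[MonomialOrder.degLex] Finsupp.single j₀ 1

/-- The basic one-form that agrees with `d f` on the vector fields that kill `y j₀`. -/
def dB (j₀ : Fin b) (s : Fin k) (f : M) : MvPolynomial (Fin k × Fin n) M :=
  S.dK s f - MvPolynomial.C (S.eps f / S.eps (G.y j₀)) * S.dK s (G.y j₀)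

variable [CharZero E]

omit [IsScalarTower ℂ K M] in
/-- The logarithmic vector fields tangent to `y j₀ = const` are `et j₀ d • D₀ d`. -/
def et (E : Type) [Field E] (j₀ : Fin b) (d : Fin b ⊕ Fin φ) : MvPowerSeries (Fin b) E :=
  d.elim (fun i => if i = j₀ then 0 else MvPowerSeries.X i) fun _ => 1

omit [IsScalarTower ℂ K M] in
/-- The logarithmic differential. -/
def dL (j₀ : Fin b) (s : Fin k) (f : Ω ⊗[ℂ] M) :
    MvPolynomial (Fin k × (Fin b ⊕ Fin φ)) (MvPowerSeries (Fin b) E) :=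
  ∑ d, MvPolynomial.C (et E j₀ d * G.ty (rder (G.D₀ d) f)) * MvPolynomial.X (s, d)

omit [IsScalarTower ℂ K M] in
/-- The Taylor expansion of the components of a basic tensor. -/
def PhP (j₀ : Fin b) (k : ℕ) : Ω ⊗[ℂ] MvPolynomial (Fin k × Fin n) M →ₐ[Ω]
    MvPolynomial (Fin k × (Fin b ⊕ Fin φ)) (MvPowerSeries (Fin b) E) :=
  evT Ω (MvPolynomial.aevalTower
    ((IsScalarTower.toAlgHom ℂ (MvPowerSeries (Fin b) E) _).comp
      ((G.ty.restrictScalars ℂ).comp Algebra.TensorProduct.includeRight))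
    fun v => G.dL j₀ v.1 (1 ⊗ₜ algebraMap K M (S.τ v.2)))

omit [IsScalarTower ℂ K M] in
/-- The Taylor expansion of a basic tensor. -/
def Ph (j₀ : Fin b) (k : ℕ) : Ω ⊗[ℂ] MvPolynomial (Fin k × Fin n) M →ₐ[Ω]
    MvPowerSeries (Fin b) (MvPolynomial (Fin k × (Fin b ⊕ Fin φ)) E) :=
  (swp Ω _ _ E).comp (G.PhP j₀ k)

omit [IsScalarTower ℂ K M] in
/-- The leading coefficients of the tensors. -/
def WE (j₀ : Fin b) (c : Fin p → Fin k) (m a : ℕ) (α : Fin b →₀ ℕ) :
    Submodule Ω (MvPolynomial (Fin k × (Fin b ⊕ Fin φ)) E) :=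
  Wl MonomialOrder.degLex (((S.VT c m a).baseChange Ω).map (G.Ph j₀ k).toLinearMap) α

end Geo

end DD

end

end Pool.Agent.Lib.MP_bc213e_ag
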