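import Pool.Agent.Lib.MP_bc213e_ag.TE.IDefs

/-! The Taylor expansion of tensors. -/

namespace Pool.Agent.Lib.MP_bc213e_ag.DD

open Pool.Agent.Lib.MP_bc213e_ag.Hyp Pool.Agent.Lib.MP_bc213e_ag.DA Pool.Agent.Lib.MP_bc213e_ag.Jet
open scoped TensorProduct MonomialOrder

section swp

variable {Ω σ τ E : Type} [CommRing Ω] [CommRing E] [Algebra Ω E]

theorem swp_C (f : MvPowerSeries τ E) :
    swp Ω σ τ E (MvPolynomial.C f) = MvPowerSeries.map MvPolynomial.C f :=
  MvPolynomial.aevalTower_C _ _ f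

theorem swp_X (v : σ) : swp Ω σ τ E (MvPolynomial.X v) = MvPowerSeries.C (MvPolynomial.X v) :=
  MvPolynomial.aevalTower_X _ _ v

theorem swp_monomial (μ : σ →₀ ℕ) (f : MvPowerSeries τ E) :
    swp Ω σ τ E (MvPolynomial.monomial μ f) =
      MvPowerSeries.map MvPolynomial.C f * MvPowerSeries.C (MvPolynomial.monomial μ 1) := by
  rw [MvPolynomial.monomial_eq, map_mul, swp_C, MvPolynomial.monomial_eq, map_one, one_mul,
    map_finsuppProd, map_finsuppProd]
  simp only [map_pow, swp_X]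

theorem coeff_swp (F : MvPolynomial σ (MvPowerSeries τ E)) (β : τ →₀ ℕ) (μ : σ →₀ ℕ) :
    (MvPowerSeries.coeff β (swp Ω σ τ E F)).coeff μ = MvPowerSeries.coeff β (F.coeff μ) := by
  classical
  induction F using MvPolynomial.induction_on' with
  | monomial μ' f =>
    rw [swp_monomial, MvPowerSeries.coeff_mul_C, MvPowerSeries.coeff_map, MvPolynomial.coeff_C_mul,
      MvPolynomial.coeff_monomial, MvPolynomial.coeff_monomial]
    split_ifs <;> simp
  | add f g hf hg => simp only [map_add, MvPolynomial.coeff_add, hf, hg]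

theorem swp_inj : Function.Injective (swp Ω σ τ E) := fun F F' h =>
  MvPolynomial.ext _ _ fun μ => MvPowerSeries.ext fun β => by
    rw [← coeff_swp (Ω := Ω), h, coeff_swp]

theorem swp_mem_Fil (o : MonomialOrder τ) {F : MvPolynomial σ (MvPowerSeries τ E)} {α : τ →₀ ℕ} :
    swp Ω σ τ E F ∈ Fil o α ↔ ∀ μ, F.coeff μ ∈ Fil o α :=
  ⟨fun h μ β hβ => by rw [← coeff_swp (Ω := Ω), h β hβ, MvPolynomial.coeff_zero],
    fun h β hβ => MvPolynomial.ext _ _ fun μ => by
      rw [coeff_swp, h μ β hβ, MvPolynomial.coeff_zero]⟩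

theorem coeff_swp_C_X (f : MvPowerSeries τ E) (v : σ) (β : τ →₀ ℕ) :
    MvPowerSeries.coeff β (swp Ω σ τ E (MvPolynomial.C f * MvPolynomial.X v)) =
      MvPolynomial.C (MvPowerSeries.coeff β f) * MvPolynomial.X v := by
  rw [map_mul, swp_C, swp_X, MvPowerSeries.coeff_mul_C, MvPowerSeries.coeff_map]

theorem coeff_euler (i : τ) (f : MvPowerSeries τ E) (β : τ →₀ ℕ) :
    MvPowerSeries.coeff β (MvPowerSeries.X i * MvPowerSeries.pderiv E i f) =
      β i * MvPowerSeries.coeff β f := by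
  classical
  rw [MvPowerSeries.X, MvPowerSeries.coeff_monomial_mul]
  split_ifs with h
  · obtain ⟨γ, rfl⟩ := exists_add_of_le h
    rw [add_tsub_cancel_left, MvPowerSeries.coeff_pderiv, add_comm γ]
    simp only [Finsupp.add_apply, Finsupp.single_eq_same, Nat.cast_add, Nat.cast_one]
    ring
  · rw [Finsupp.single_le_iff, not_le, Nat.lt_one_iff] at h
    rw [h, Nat.cast_zero, zero_mul]

end swp

theorem der_sum_apply {R A N κ : Type} [CommRing R] [CommRing A] [Algebra R A] [AddCommGroup N]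
    [Module A N] [Module R N] (s : Finset κ) (D : κ → Derivation R A N) (f : A) :
    (∑ i ∈ s, D i) f = ∑ i ∈ s, D i f :=
  (congrFun (map_sum Derivation.coeFnAddMonoidHom D s) f).trans (Finset.sum_apply _ _ _)

theorem cT_tmul {Ω σ M : Type} [CommRing Ω] [Algebra ℂ Ω] [CommRing M] [Algebra ℂ M] (z : Ω)
    (f : M) : cT Ω σ M (z ⊗ₜ f) = z ⊗ₜ MvPolynomial.C f := rfl

theorem rT_C {Ω σ M : Type} [CommRing Ω] [Algebra ℂ Ω] [CommRing M] [Algebra ℂ M] (f : Ω ⊗[ℂ] M) :
    MvPolynomial.rTensorAlgEquiv.symm (MvPolynomial.C f) = cT Ω σ M f := by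
  classical
  rw [AlgEquiv.symm_apply_eq]
  induction f with
  | zero => simp
  | add f g hf hg => simp only [map_add, hf, hg]
  | tmul z f =>
    refine MvPolynomial.ext _ _ fun μ => ?_
    rw [cT_tmul, MvPolynomial.coeff_rTensorAlgEquiv_tmul, MvPolynomial.coeff_C,
      MvPolynomial.coeff_C, TensorProduct.tmul_ite]

theorem rT_X {Ω σ M : Type} [CommRing Ω] [Algebra ℂ Ω] [CommRing M] [Algebra ℂ M] (v : σ) :
    MvPolynomial.rTensorAlgEquiv.symm (MvPolynomial.X v) =
      (1 : Ω) ⊗ₜ[ℂ] (MvPolynomial.X v : MvPolynomial σ M) := by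
  classical
  rw [AlgEquiv.symm_apply_eq]
  refine MvPolynomial.ext _ _ fun μ => ?_
  rw [MvPolynomial.coeff_rTensorAlgEquiv_tmul, MvPolynomial.coeff_X, MvPolynomial.coeff_X,
    TensorProduct.tmul_ite]
  rfl

theorem Su.eps_apply {K M ι : Type} [Field K] [Algebra ℂ K] [Field M] [Algebra ℂ M] [Algebra K M]
    {n : ℕ} (S : Su K M ι n) [IsScalarTower ℂ K M] (f : M) : S.eps f = S.u * S.Dref none f := rfl

theorem Su.eps_map {K M ι : Type} [Field K] [Algebra ℂ K] [Field M] [Algebra ℂ M] [Algebra K M]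
    {n : ℕ} (S : Su K M ι n) [IsScalarTower ℂ K M] (f : K) : S.eps (algebraMap K M f) = 0 := by
  rw [S.eps_apply, S.Dref_none, mul_zero]

theorem Su.eps_sec {K M ι : Type} [Field K] [Algebra ℂ K] [Field M] [Algebra ℂ M] [Algebra K M]
    {n : ℕ} (S : Su K M ι n) [IsScalarTower ℂ K M] (f : K) (t : ℕ) :
    S.eps (algebraMap K M f * S.u ^ t) = t * (algebraMap K M f * S.u ^ t) := by
  have h : S.eps S.u = S.u := by
    rw [S.eps_apply, show S.Dref none S.u = 1 from (S.frame_ref.dual none none).trans (if_pos rfl),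
      mul_one]
  rw [Derivation.leibniz, S.eps_map, Derivation.leibniz_pow, h]
  rcases t with _ | t
  · simp
  · simp only [smul_eq_mul, Nat.add_sub_cancel, nsmul_eq_mul]
    ring

namespace Geo

variable {K M ι : Type} [Field K] [Algebra ℂ K] [Field M] [Algebra ℂ M] [Algebra K M] {n : ℕ}
  {S : Su K M ι n} {Ω E : Type} [Field Ω] [Algebra ℂ Ω] [Field E] [Algebra ℂ E] [Algebra Ω E]
  [IsScalarTower ℂ Ω E] {b φ : ℕ} (G : Geo S Ω E b φ) [IsScalarTower ℂ K M] [Fintype ι]
  [CharZero E] {k p : ℕ} {j₀ : Fin b}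

omit [CharZero E] in
theorem exists_Top : ∃ j₀, G.Top j₀ := by
  have h : ∃ i, S.eps (G.y i) ≠ 0 := by
    by_contra h
    have : CharZero Ω := charZero_of_injective_algebraMap (algebraMap ℂ Ω).injective
    obtain ⟨D', hD'⟩ := G.exists_der_E (D := S.eps) fun i => not_not.1 fun h' => h ⟨i, h'⟩
    obtain ⟨a, -, h1⟩ := pf S.cart S.nef S.i₀ ⊥ bot_ne_top
    choose r hr hs using h1
    have h2 := fun t => G.ι_mem_R (S.V_le_U t a (S.sec_mem_V le_rfl (hs t)))
    have := G.fd_R a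
    refine Module.Finite.not_linearIndependent_of_infinite (R := Ω)
      (fun t : ℕ => (⟨_, h2 t⟩ : G.R a)) (LinearIndependent.of_comp (G.R a).subtype
        (Module.End.eigenvectors_linearIndependent' D'.toLinearMap (fun t : ℕ => (t : Ω))
          Nat.cast_injective _ fun t => ⟨Module.End.mem_eigenspace_iff.2 ?_, ?_⟩))
    · change D' (G.ι _) = (t : Ω) • G.ι _
      rw [hD', S.eps_sec, map_mul, map_natCast, Algebra.smul_def, map_natCast]
    · refine (map_ne_zero G.ι).2 (mul_ne_zero ((map_ne_zero _).2 (mul_ne_zero ?_ ?_))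
        (pow_ne_zero _ S.u_ne))
      · exact fun e => hr t (Subtype.ext e)
      · exact mul_ne_zero (zpow_ne_zero _ (S.g _).ne_zero) (pow_ne_zero _ (S.x _).ne_zero)
  obtain ⟨j, h1, h2⟩ := Set.exists_max_image {i | S.eps (G.y i) ≠ 0}
    (fun i => MonomialOrder.degLex.toSyn (Finsupp.single i 1)) (Set.toFinite _) h
  exact ⟨j, h1, h2⟩

omit [Fintype ι] [CharZero E] in
/-- The fields `D₀ d`, `d ≠ inl j₀`, project to a basis of the tangent space of `X`. -/
theorem exists_cc (h : S.eps (G.y j₀) ≠ 0) : ∃ cc : Fin n → Fin b ⊕ Fin φ,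
    Function.Injective cc ∧ (∀ d, d ∈ Set.range cc ↔ d ≠ Sum.inl j₀) ∧
      (Matrix.of fun a r => G.D₀ (cc r) (algebraMap K M (S.τ a))).det ≠ 0 := by
  classical
  let e := G.ε.trans (Equiv.swap (G.ε none) (Sum.inl j₀))
  have e0 : e none = Sum.inl j₀ := Equiv.swap_apply_left _ _
  have h1 : ∀ r, e (some r) ≠ Sum.inl j₀ := fun r h' => by
    simpa using e.injective (h'.trans e0.symm)
  have hi : Function.Injective fun r => e (some r) := e.injective.comp (Option.some_injective _)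
  refine ⟨fun r => e (some r), hi, fun d => ⟨?_, fun hd => ?_⟩, fun h0 => ?_⟩
  · rintro ⟨r, rfl⟩
    exact h1 r
  · obtain ⟨_ | r, rfl⟩ := e.surjective d
    · exact (hd e0).elim
    · exact ⟨r, rfl⟩
  obtain ⟨v, hv, h2⟩ := Matrix.exists_mulVec_eq_zero_iff.2 h0
  let δ : Derivation ℂ M M := ∑ r, v r • G.D₀ (e (some r))
  have h3 : ∀ f, δ f = ∑ r, v r * G.D₀ (e (some r)) f := fun f => der_sum_apply _ _ f
  have h4 : ∀ f, δ f = δ S.u * S.Dref none f := fun f => by
    rw [S.frame_ref.expand δ f, Fintype.sum_option, Finset.sum_eq_zero, add_zero]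
    · rfl
    · intro a _
      refine mul_eq_zero_of_left ((h3 _).trans (Eq.trans ?_ (congrFun h2 a))) _
      exact Finset.sum_congr rfl fun r _ => mul_comm _ _
  have h5 : δ S.u = 0 := by
    have h6 := h4 (G.y j₀)
    rw [h3] at h6
    exact (mul_eq_zero.1 (h6.symm.trans (Finset.sum_eq_zero fun r _ => mul_eq_zero_of_right _
      ((G.frame.dual _ (Sum.inl j₀)).trans (if_neg (h1 r)))))).resolve_right
        (right_ne_zero_of_mul h)
  refine hv (funext fun r => ?_)
  have h6 := h4 (Sum.elim G.y G.z₀ (e (some r)))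
  rw [h5, zero_mul, h3, Finset.sum_eq_single r (fun r' _ hr => by
    rw [G.frame.dual, if_neg (hi.ne hr), mul_zero]) (by simp), G.frame.dual, if_pos rfl,
    mul_one] at h6
  exact h6

omit [IsScalarTower ℂ K M] [Fintype ι]

/-- The Taylor expansion of functions. -/
noncomputable def tm : M →ₐ[ℂ] MvPowerSeries (Fin b) E :=
  (G.ty.restrictScalars ℂ).comp Algebra.TensorProduct.includeRight

theorem tm_apply (f : M) : G.tm f = G.ty (1 ⊗ₜ f) := rfl

theorem tm_inj : Function.Injective G.tm := G.tm.toRingHom.injective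

theorem dL_one (s : Fin k) (f : M) : G.dL j₀ s (1 ⊗ₜ f) =
    ∑ d, MvPolynomial.C (et E j₀ d * G.tm (G.D₀ d f)) * MvPolynomial.X (s, d) := rfl

theorem PhP_C (f : M) :
    G.PhP j₀ k (1 ⊗ₜ MvPolynomial.C f) = MvPolynomial.C (G.ty (1 ⊗ₜ f)) := by
  rw [PhP, evT_tmul, map_one, one_mul, MvPolynomial.aevalTower_C]
  rfl

theorem PhP_cT (f : Ω ⊗[ℂ] M) : G.PhP j₀ k (cT Ω _ M f) = MvPolynomial.C (G.ty f) := by
  induction f with
  | zero => simp
  | add f g hf hg => simp only [map_add, hf, hg]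
  | tmul z f =>
    rw [TensorProduct.tmul_eq_smul_one_tmul, map_smul, map_smul, map_smul, cT_tmul, PhP_C,
      Algebra.smul_def, Algebra.smul_def, map_mul]
    rfl

theorem PhP_X (s : Fin k) (a : Fin n) : G.PhP j₀ k (1 ⊗ₜ MvPolynomial.X (s, a)) =
    G.dL j₀ s (1 ⊗ₜ algebraMap K M (S.τ a)) := by
  rw [PhP, evT_tmul, map_one, one_mul, MvPolynomial.aevalTower_X]

/-- The Taylor expansion of tensors without extension of scalars. -/
noncomputable def Pm (j₀ : Fin b) (k : ℕ) : MvPolynomial (Fin k × Fin n) M →ₐ[ℂ]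
    MvPolynomial (Fin k × (Fin b ⊕ Fin φ)) (MvPowerSeries (Fin b) E) :=
  ((G.PhP j₀ k).restrictScalars ℂ).comp Algebra.TensorProduct.includeRight

theorem Pm_apply (f : MvPolynomial (Fin k × Fin n) M) : G.Pm j₀ k f = G.PhP j₀ k (1 ⊗ₜ f) := rfl

theorem Pm_C (f : M) : G.Pm j₀ k (MvPolynomial.C f) = MvPolynomial.C (G.tm f) := G.PhP_C f

omit [CharZero E] in
theorem evT_rder (d : Fin φ) (f : Ω ⊗[ℂ] M) :
    evT Ω G.ι (rder (G.D₀ (Sum.inr d)) f) = G.DE d (evT Ω G.ι f) := by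
  induction f with
  | zero => simp
  | add f g hf hg => simp only [map_add, hf, hg]
  | tmul z f => simp [G.DE_ι]

theorem coeff_rder (d : Fin φ) (f : Ω ⊗[ℂ] M) (β : Fin b →₀ ℕ) :
    MvPowerSeries.coeff β (G.ty (rder (G.D₀ (Sum.inr d)) f)) =
      G.DE d (MvPowerSeries.coeff β (G.ty f)) := by
  rw [coeff_tayL, coeff_tayL, dpow_comm' _ fun i => rder_comm (G.frame.comm _ _), evT_rder,
    map_rat_smul]

theorem coeff_dL (s : Fin k) (f : Ω ⊗[ℂ] M) (α : Fin b →₀ ℕ) :
    MvPowerSeries.coeff α (swp Ω _ _ E (G.dL j₀ s f)) =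
      (∑ i, if i = j₀ then 0 else (α i : MvPolynomial _ E) * MvPolynomial.X (s, Sum.inl i)) *
        MvPolynomial.C (MvPowerSeries.coeff α (G.ty f)) +
      G.dF s (MvPowerSeries.coeff α (G.ty f)) := by
  rw [dL, map_sum, map_sum, Fintype.sum_sum_type, Finset.sum_mul]
  simp only [coeff_swp_C_X]
  refine congrArg₂ _ (Finset.sum_congr rfl fun i _ => ?_) (Finset.sum_congr rfl fun d _ => ?_)
  · rw [et, Sum.elim_inl]
    split_ifs
    · simp
    · rw [← pderiv_tayL, coeff_euler, map_mul, map_natCast]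
      ring
  · rw [et, Sum.elim_inr, one_mul, coeff_rder]

/-- The leading term of the logarithmic differential. -/
theorem lead_dL (s : Fin k) {f : Ω ⊗[ℂ] M} {α : Fin b →₀ ℕ}
    (hf : G.ty f ∈ Fil MonomialOrder.degLex α) :
    swp Ω _ _ E (G.dL j₀ s f) ∈ Fil MonomialOrder.degLex α ∧
      MvPowerSeries.coeff α (swp Ω _ _ E (G.dL j₀ s f)) =
        (∑ i, if i = j₀ then 0 else (α i : MvPolynomial _ E) * MvPolynomial.X (s, Sum.inl i)) *
          MvPolynomial.C (MvPowerSeries.coeff α (G.ty f)) +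
        G.dF s (MvPowerSeries.coeff α (G.ty f)) :=
  ⟨fun β hβ => by simp [coeff_dL, hf β hβ, dF], G.coeff_dL s f α⟩

theorem mem_WE {c : Fin p → Fin k} {m a : ℕ} {α : Fin b →₀ ℕ}
    {T : MvPolynomial (Fin k × (Fin b ⊕ Fin φ)) E} : T ∈ G.WE j₀ c m a α ↔
    ∃ ω ∈ (S.VT c m a).baseChange Ω, G.Ph j₀ k ω ∈ Fil MonomialOrder.degLex α ∧
      MvPowerSeries.coeff α (G.Ph j₀ k ω) = T :=
  (mem_Wl _).trans ⟨fun ⟨_, ⟨s, h1, e⟩, h2⟩ => ⟨s, h1, (e : G.Ph j₀ k s = _) ▸ h2⟩,
    fun ⟨s, h1, h2⟩ => ⟨_, ⟨s, h1, rfl⟩, h2⟩⟩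

variable [IsScalarTower ℂ K M]

theorem PhP_dK (s : Fin k) (f : M) : G.PhP j₀ k (1 ⊗ₜ S.dK s f) = G.dL j₀ s (1 ⊗ₜ f) -
    MvPolynomial.C (G.ty (1 ⊗ₜ S.Dref none f)) * G.dL j₀ s (1 ⊗ₜ S.u) := by
  rw [← Pm_apply, Su.dK, map_sum]
  simp only [map_mul, Pm_C]
  simp only [Pm_apply, PhP_X, dL_one, ← tm_apply, Finset.mul_sum]
  rw [Finset.sum_comm, ← Finset.sum_sub_distrib]
  refine Finset.sum_congr rfl fun d _ => ?_
  rw [S.frame_ref.expand (G.D₀ d) f, Fintype.sum_option, map_add, map_sum]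
  simp only [Su.tb, Option.elim, map_mul, map_add, map_sum, mul_add, add_mul, Finset.mul_sum,
    Finset.sum_mul]
  rw [add_comm, eq_sub_iff_add_eq]
  exact congrArg₂ _ (Finset.sum_congr rfl fun a _ => by ring) (by ring)

omit [IsScalarTower ℂ K M] in
theorem dL_y (s : Fin k) : G.dL j₀ s (1 ⊗ₜ G.y j₀) = 0 := by
  rw [dL_one]
  refine Finset.sum_eq_zero fun d _ => ?_
  by_cases h : d = Sum.inl j₀
  · simp [h, et]
  · rw [show G.D₀ d (G.y j₀) = 0 from (G.frame.dual d (Sum.inl j₀)).trans (if_neg h)]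
    simp

theorem PhP_dB (h : S.eps (G.y j₀) ≠ 0) (s : Fin k) (f : M) :
    G.PhP j₀ k (1 ⊗ₜ G.dB j₀ s f) = G.dL j₀ s (1 ⊗ₜ f) := by
  have e : S.eps f / S.eps (G.y j₀) * S.Dref none (G.y j₀) = S.Dref none f := by
    rw [S.eps_apply, S.eps_apply, mul_div_mul_left _ _ S.u_ne]
    exact div_mul_cancel₀ _ (right_ne_zero_of_mul h)
  rw [← Pm_apply, dB, map_sub, map_mul, Pm_C, Pm_apply, Pm_apply, PhP_dK, PhP_dK, dL_y,
    ← tm_apply, ← tm_apply, ← e, map_mul, map_mul]
  ring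

omit [CharZero E] in
/-- The chain rule. -/
theorem dB_expand {κ : Type} [Fintype κ] [DecidableEq κ] {T : κ → M} {D : κ → Derivation ℂ M M}
    (hT : Frame T D) (s : Fin k) (f : M) :
    G.dB j₀ s f = ∑ d, MvPolynomial.C (D d f) * G.dB j₀ s (T d) := by
  simp only [dB, mul_sub, Finset.sum_sub_distrib]
  refine congrArg₂ _ ?_ ?_
  · simp only [Su.dK, Finset.mul_sum]
    rw [Finset.sum_comm]
    refine Finset.sum_congr rfl fun a _ => ?_
    rw [hT.expand _ f, map_sum, Finset.sum_mul]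
    exact Finset.sum_congr rfl fun d _ => by rw [map_mul]; ring
  · rw [hT.expand _ f, Finset.sum_div, map_sum, Finset.sum_mul]
    exact Finset.sum_congr rfl fun d _ => by
      rw [← mul_assoc, ← map_mul, mul_comm (S.eps _), mul_div_assoc]

omit [CharZero E] in
theorem dB_y (h : S.eps (G.y j₀) ≠ 0) (s : Fin k) : G.dB j₀ s (G.y j₀) = 0 := by
  rw [dB, div_self h, map_one, one_mul, sub_self]

omit [CharZero E] in
theorem dB_map (s : Fin k) (f : K) : G.dB j₀ s (algebraMap K M f) =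
    MvPolynomial.map (algebraMap K M) (OW.dT S.D MvPolynomial.X s f) := by
  rw [dB, S.eps_map, zero_div, map_zero, zero_mul, sub_zero, Su.dK, OW.dT, map_sum]
  exact Finset.sum_congr rfl fun a _ => by
    rw [S.Dref_some, MvPolynomial.smul_eq_C_mul, map_mul, MvPolynomial.map_C, MvPolynomial.map_X]

theorem PhP_inj (h : S.eps (G.y j₀) ≠ 0) : Function.Injective (G.PhP j₀ k) := by
  classical
  obtain ⟨cc, h1, h2, h3⟩ := G.exists_cc h
  let F := FractionRing (MvPowerSeries (Fin b) E)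
  let ρ := algebraMap (MvPowerSeries (Fin b) E) F
  have hρ : Function.Injective ρ := IsFractionRing.injective _ _
  let N : Matrix (Fin n) (Fin n) F :=
    Matrix.of fun a r => ρ (et E j₀ (cc r) * G.tm (G.D₀ (cc r) (algebraMap K M (S.τ a))))
  have hN : IsUnit N.det := by
    have e : N = (ρ.comp G.tm.toRingHom).mapMatrix
        (Matrix.of fun a r => G.D₀ (cc r) (algebraMap K M (S.τ a))) *
        Matrix.diagonal fun r => ρ (et E j₀ (cc r)) := by
      ext a r
      simp [N, mul_comm]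
    rw [e, Matrix.det_mul, ← RingHom.map_det, Matrix.det_diagonal]
    refine (mul_ne_zero ((map_ne_zero _).2 h3) (Finset.prod_ne_zero_iff.2 fun r _ =>
      (map_ne_zero_iff _ hρ).2 ?_)).isUnit
    have h4 := (h2 _).1 ⟨r, rfl⟩
    rcases hr : cc r with i | d
    · rw [et, Sum.elim_inl, if_neg fun e => h4 (by rw [hr, e])]
      exact fun e => by simpa using congrArg (MvPowerSeries.coeff (Finsupp.single i 1)) e
    · exact one_ne_zero
  let χ : MvPolynomial (Fin k × (Fin b ⊕ Fin φ)) (MvPowerSeries (Fin b) E) →+*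
      MvPolynomial (Fin k × Fin n) F := MvPolynomial.eval₂Hom (MvPolynomial.C.comp ρ) fun v =>
    ∑ r, if cc r = v.2 then ∑ a, MvPolynomial.C (N⁻¹ r a) * MvPolynomial.X (v.1, a) else 0
  have e1 : ∀ f, χ (MvPolynomial.C f) = MvPolynomial.C (ρ f) := fun f =>
    MvPolynomial.eval₂Hom_C _ _ f
  have e2 : ∀ s a, χ (G.dL j₀ s (1 ⊗ₜ algebraMap K M (S.τ a))) = MvPolynomial.X (s, a) := by
    intro s a
    rw [dL_one, map_sum]
    simp only [map_mul χ, e1, χ, MvPolynomial.eval₂Hom_X', Finset.mul_sum]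
    rw [Finset.sum_comm]
    simp only [mul_ite, mul_zero, Finset.sum_ite_eq, Finset.mem_univ, if_true, Finset.mul_sum]
    rw [Finset.sum_comm]
    have e3 : ∀ a', ∑ r, MvPolynomial.C (N a r) *
        (MvPolynomial.C (N⁻¹ r a') * MvPolynomial.X (s, a')) =
        (MvPolynomial.C ((N * N⁻¹) a a') * MvPolynomial.X (s, a') :
          MvPolynomial (Fin k × Fin n) F) := fun a' => by
      rw [Matrix.mul_apply, map_sum, Finset.sum_mul]
      exact Finset.sum_congr rfl fun r _ => by rw [map_mul, mul_assoc]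
    refine (Finset.sum_congr rfl fun a' _ => e3 a').trans ?_
    simp [Matrix.mul_nonsing_inv _ hN, Matrix.one_apply, apply_ite MvPolynomial.C]
  have e3 : ∀ ω, χ (G.PhP j₀ k ω) = MvPolynomial.map (ρ.comp G.ty.toRingHom)
      (MvPolynomial.rTensorAlgEquiv ω) := fun ω => by
    obtain ⟨T, rfl⟩ := MvPolynomial.rTensorAlgEquiv.symm.surjective ω
    rw [AlgEquiv.apply_symm_apply]
    induction T using MvPolynomial.induction_on with
    | C f => rw [rT_C, PhP_cT, e1, MvPolynomial.map_C]; rfl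
    | add f g hf hg => simp only [map_add, hf, hg]
    | mul_X f v hf =>
      rw [map_mul, map_mul, map_mul, hf, rT_X, PhP_X, e2, map_mul, MvPolynomial.map_X]
  refine Function.Injective.of_comp (f := χ) fun ω ω' e => ?_
  rw [Function.comp_apply, Function.comp_apply, e3, e3] at e
  exact MvPolynomial.rTensorAlgEquiv.injective
    (MvPolynomial.map_injective _ (fun _ _ e => G.tayL_inj G.frame (hρ e)) e)

theorem Ph_inj (h : S.eps (G.y j₀) ≠ 0) : Function.Injective (G.Ph j₀ k) :=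
  swp_inj.comp (G.PhP_inj h)

end Geo

end Pool.Agent.Lib.MP_bc213e_ag.DD
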