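import Pool.Agent.Lib.MP_bc213e_ag.TE.LA
import Pool.Agent.Lib.MP_bc213e_ag.OW.A.Loc
import Pool.Agent.Lib.MP_bc213e_ag.DC.T1

/-! Dimensions and products of the spaces of tensors. -/

namespace Pool.Agent.Lib.MP_bc213e_ag

open Hyp DA Jet KBB OW Module WithZero
open scoped TensorProduct MonomialOrder

namespace OW

theorem prod_span_mem {R A κ : Type} [CommRing R] [CommRing A] [Algebra R A] [Fintype κ]
    {s : κ → Set A} {Z : Submodule R A} (h : ∀ x : κ → A, (∀ r, x r ∈ s r) → ∏ r, x r ∈ Z)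
    {y : κ → A} (hy : ∀ r, y r ∈ Submodule.span R (s r)) : ∏ r, y r ∈ Z := by
  classical
  have h1 : ∀ t : Finset κ, ∏ r ∈ t, y r ∈ ∏ r ∈ t, Submodule.span R (s r) := fun t => by
    induction t using Finset.induction_on with
    | empty => exact Submodule.one_le.1 (Finset.prod_empty.ge)
    | insert a t ha ih =>
      rw [Finset.prod_insert ha, Finset.prod_insert ha]
      exact Submodule.mul_mem_mul (hy a) ih
  have h2 := h1 Finset.univ
  rw [Submodule.prod_span] at h2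
  refine Submodule.span_le.2 (fun z hz => ?_) h2
  obtain ⟨x, h3, rfl⟩ := (Set.mem_fintype_prod _ _).1 hz
  exact h x h3

variable {K P ι : Type} [Field K] [Algebra ℂ K] [CommRing P] [Algebra K P] [Algebra ℂ P]
  [IsScalarTower ℂ K P] {n k p : ℕ} {D : Fin n → Derivation ℂ K K} {ξ : Fin k × Fin n → P}
  {c : Fin p → Fin k} {w : ZVal K} {x g : ι → Kˣ}

theorem Reg_smul {f : K} (hf : w f ≤ 1) {T : P} (hT : T ∈ Reg D ξ c w 0) :
    f • T ∈ Reg D ξ c w 0 := by
  induction hT using Submodule.span_induction with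
  | mem z hz =>
    obtain ⟨f', u, h1, h2, rfl⟩ := hz
    refine Submodule.subset_span ⟨f * f', u, ?_, h2, (mul_smul _ _ _).symm⟩
    rw [map_mul]
    exact (mul_le_mul' hf h1).trans_eq (one_mul _)
  | zero => simp
  | add y z _ _ hy hz => exact smul_add f y z ▸ add_mem hy hz
  | smul z y _ hy => exact smul_comm z f y ▸ Submodule.smul_mem _ z hy

omit [IsScalarTower ℂ K P] in
theorem Reg_prod {T : Fin p → P} (hT : ∀ r, T r ∈ Reg D ξ (DD.one (c r)) w 0) :
    ∏ r, T r ∈ Reg D ξ c w 0 := by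
  refine prod_span_mem (fun y hy => ?_) hT
  choose f u h1 h2 h3 using hy
  refine Submodule.subset_span ⟨∏ r, f r, fun r => u r 0, ?_, fun r => h2 r 0, ?_⟩
  · rw [map_prod]
    exact Finset.prod_le_one' fun r _ => h1 r
  · simp only [h3, Fin.prod_univ_one, Finset.prod_smul]

omit [IsScalarTower ℂ K P] in
theorem dT_mem_Reg (s : Fin k) {f u : K} (hf : w f ≤ 1) (hu : w u ≤ 1) :
    f • dT D ξ s u ∈ Reg D ξ (DD.one s) w 0 :=
  Submodule.subset_span ⟨f, fun _ => u, hf, fun _ => hu, by rw [Fin.prod_univ_one]⟩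

omit [Algebra ℂ K] [Algebra ℂ P] [IsScalarTower ℂ K P] in
theorem Mon_prod {T : Fin p → P} (hT : ∀ r, T r ∈ Mon K ξ (DD.one (c r))) :
    ∏ r, T r ∈ Mon K ξ c := by
  refine prod_span_mem (fun y hy => ?_) hT
  choose a ha using hy
  exact Submodule.subset_span ⟨fun r => a r 0, by simp only [← ha, Fin.prod_univ_one]⟩

omit [Algebra ℂ P] [IsScalarTower ℂ K P] in
theorem dT_mem_Mon (s : Fin k) (u : K) : dT D ξ s u ∈ Mon K ξ (DD.one s) :=
  sum_mem fun a _ => Submodule.smul_mem _ _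
    (Submodule.subset_span ⟨fun _ => a, by simp only [Fin.prod_univ_one]⟩)

theorem SecE_smul {t a t' a' : ℕ} {f : K} (hf : Sec x g t a f) {T : P}
    (hT : T ∈ SecE D ξ c x g t' a') : f • T ∈ SecE D ξ c x g (t + t') (a + a') :=
  ⟨Submodule.smul_mem _ f hT.1, fun j w hw => by
    have h := Reg_smul (hw.2.1 _ (hf j)) (hT.2 j w hw)
    rw [smul_smul] at h ⊢
    rw [Nat.cast_add, fr_add, mul_inv]
    convert h using 2
    rw [fr]
    ring⟩

theorem SecE_prod {t : Fin p → ℕ} {a : ℕ} {T : Fin p → P}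
    (hT : ∀ r, T r ∈ SecE D ξ (DD.one (c r)) x g (t r) a) :
    ∏ r, T r ∈ SecE D ξ c x g (∑ r, t r) (p * a) :=
  ⟨Mon_prod fun r => (hT r).1, fun j w hw => by
    have h := Reg_prod fun r => (hT r).2 j w hw
    rw [Finset.prod_smul] at h
    convert h using 2
    simp only [fr, zpow_natCast, Finset.prod_inv_distrib, Finset.prod_mul_distrib,
      Finset.prod_pow_eq_pow_sum, Finset.sum_const, Finset.card_univ, Fintype.card_fin,
      smul_eq_mul]⟩

end OW

namespace DD

theorem baseChange_prod {Ω A κ : Type} [CommRing Ω] [Algebra ℂ Ω] [CommRing A] [Algebra ℂ A]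
    [Fintype κ] {V : κ → Submodule ℂ A} {Z : Submodule ℂ A}
    (h : ∀ x : κ → A, (∀ r, x r ∈ V r) → ∏ r, x r ∈ Z) {y : κ → Ω ⊗[ℂ] A}
    (hy : ∀ r, y r ∈ (V r).baseChange Ω) : ∏ r, y r ∈ Z.baseChange Ω := by
  simp only [Submodule.baseChange_eq_span (A := Ω) (p := V _)] at hy
  refine prod_span_mem (fun z hz => ?_) hy
  choose x h1 h2 using hz
  have e : ∏ r, z r = 1 ⊗ₜ ∏ r, x r := by
    rw [← Algebra.TensorProduct.includeRight_apply, map_prod]
    exact Finset.prod_congr rfl fun r _ => (h2 r).symm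
  exact e ▸ Submodule.tmul_mem_baseChange_of_mem 1 (h x h1)

theorem cT_mul {Ω M σ : Type} [CommRing Ω] [Algebra ℂ Ω] [CommRing M] [Algebra ℂ M]
    {A : Submodule ℂ M} {B C : Submodule ℂ (MvPolynomial σ M)}
    (h : ∀ f ∈ A, ∀ g ∈ B, MvPolynomial.C f * g ∈ C) {s : Ω ⊗[ℂ] M} {t : Ω ⊗[ℂ] MvPolynomial σ M}
    (hs : s ∈ A.baseChange Ω) (ht : t ∈ B.baseChange Ω) : cT Ω σ M s * t ∈ C.baseChange Ω := by
  obtain ⟨s, rfl⟩ := hs
  obtain ⟨t, rfl⟩ := ht
  induction s with
  | zero => simp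
  | add s s' h h' =>
    rw [map_add, map_add, add_mul]
    exact add_mem h h'
  | tmul z f =>
    induction t with
    | zero => simp
    | add t t' h h' =>
      rw [map_add, mul_add]
      exact add_mem h h'
    | tmul z' g =>
      rw [LinearMap.baseChange_tmul, LinearMap.baseChange_tmul, cT_tmul,
        Algebra.TensorProduct.tmul_mul_tmul]
      exact Submodule.tmul_mem_baseChange_of_mem _ (h _ f.2 _ g.2)

variable {K M ι : Type} [Field K] [Algebra ℂ K] [Field M] [Algebra ℂ M] [Algebra K M] {n : ℕ}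
  {S : Su K M ι n} [IsScalarTower ℂ K M] [Fintype ι] {k p : ℕ}

namespace Su

variable (S)

omit [Algebra ℂ M] [IsScalarTower ℂ K M] in
theorem finrank_SE_zero (c : Fin 0 → Fin k) (t a : ℕ) :
    finrank ℂ (S.SE c t a) = finrank ℂ (SecS S.x S.g t a) := by
  let L : K →ₗ[ℂ] MvPolynomial (Fin k × Fin n) K := (IsScalarTower.toAlgHom ℂ K _).toLinearMap
  have hL : Function.Injective L := MvPolynomial.C_injective _ _
  have h1 : ∀ f : K, L f = f • (1 : MvPolynomial (Fin k × Fin n) K) := fun f =>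
    Algebra.algebraMap_eq_smul_one f
  have e : S.SE c t a = (SecS S.x S.g t a).map L := by
    refine le_antisymm (fun T hT => ?_) ?_
    · obtain ⟨f, rfl⟩ : ∃ f, L f = T := by
        have h2 : Mon K MvPolynomial.X c ≤ (1 : Submodule K (MvPolynomial (Fin k × Fin n) K)) :=
          Submodule.span_le.2 (by
            rintro _ ⟨a, rfl⟩
            exact Submodule.mem_one.2 ⟨1, by simp⟩)
        exact Submodule.mem_one.1 (h2 hT.1)
      refine ⟨f, fun j => ?_, rfl⟩
      have := chart_noeth S.x j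
      have := S.frac j
      have := S.norm j
      refine hartogs fun w hw => ?_
      have h2 : ∀ T ∈ Reg S.D MvPolynomial.X c w 0, w (MvPolynomial.coeff 0 T) ≤ 1 := fun T hT => by
        induction hT using Submodule.span_induction with
        | mem z hz =>
          obtain ⟨f, u, h3, -, rfl⟩ := hz
          simpa using h3
        | zero => simp
        | add y z _ _ hy hz => exact MvPolynomial.coeff_add _ y z ▸ w.map_add_le hy hz
        | smul z y _ hy =>
          rw [MvPolynomial.coeff_smul, Algebra.smul_def, map_mul]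
          exact mul_le_one' (hw.2.1 _ (Subalgebra.algebraMap_mem _ z)) hy
      have h3 := h2 _ (hT.2 j w hw)
      rw [h1, smul_smul] at h3
      simpa [fr, div_eq_inv_mul] using h3
    · rintro _ ⟨f, hf, rfl⟩
      rw [h1]
      refine SecE_smul (t' := 0) (a' := 0) hf ⟨Submodule.subset_span ⟨Fin.elim0, by simp⟩,
        fun j w _ => Submodule.subset_span ⟨1, Fin.elim0, by simp, fun r => r.elim0, ?_⟩⟩
      simp [fr]
  rw [e, ← (Submodule.equivMapOfInjective _ hL _).finrank_eq]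

omit [Fintype ι] in
theorem vt_equiv (c : Fin p → Fin k) (m a : ℕ) :
    Nonempty ((∀ i : Fin (m + 1), S.SE c i a) ≃ₗ[ℂ] S.VT c m a) := by
  let ψ : MvPolynomial (Fin k × Fin n) K →ₐ[ℂ] MvPolynomial (Fin k × Fin n) M :=
    MvPolynomial.mapAlgHom (IsScalarTower.toAlgHom ℂ K M)
  let L : (∀ i : Fin (m + 1), S.SE c i a) →ₗ[ℂ] MvPolynomial (Fin k × Fin n) M :=
    { toFun := fun s => ∑ i : Fin (m + 1), MvPolynomial.C (S.u ^ (i : ℕ)) * ψ (s i)
      map_add' := fun s t => by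
        simp only [Pi.add_apply, Submodule.coe_add, map_add, mul_add, Finset.sum_add_distrib]
      map_smul' := fun c s => by
        simp only [Pi.smul_apply, Submodule.coe_smul, RingHom.id_apply, Finset.smul_sum,
          map_smul, mul_smul_comm] }
  have hi : Function.Injective L := (injective_iff_map_eq_zero L).2 fun s hs => by
    funext i
    refine Subtype.ext (MvPolynomial.ext _ _ fun μ => ?_)
    have h1 : ∑ i : Fin (m + 1), Polynomial.monomial (i : ℕ)
        ((s i : MvPolynomial (Fin k × Fin n) K).coeff μ) = 0 := by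
      refine transcendental_iff.1 S.tr _ ?_
      rw [map_sum]
      simp only [Polynomial.aeval_monomial]
      refine Eq.trans ?_ (congrArg (MvPolynomial.coeff μ) hs)
      refine Eq.trans (Finset.sum_congr rfl fun i _ => ?_) (MvPolynomial.coeff_sum _ _ _).symm
      rw [MvPolynomial.coeff_C_mul, mul_comm]
      exact congrArg _ (MvPolynomial.coeff_map _ _ _).symm
    have h2 := congrArg (Polynomial.coeff · i) h1
    simp only [Polynomial.finsetSum_coeff, Polynomial.coeff_monomial, Fin.val_inj,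
      Finset.sum_ite_eq', Finset.mem_univ, if_true, Polynomial.coeff_zero] at h2
    exact h2
  have hr : LinearMap.range L = S.VT c m a := by
    refine le_antisymm ?_ (Submodule.span_le.2 ?_)
    · rintro _ ⟨s, rfl⟩
      refine sum_mem (t := (Finset.univ : Finset (Fin (m + 1)))) fun i _ =>
        Submodule.subset_span ?_
      exact ⟨i, Nat.lt_succ_iff.1 i.2, s i, (s i).2, rfl⟩
    · rintro _ ⟨i, hi, ω, hω, rfl⟩
      refine ⟨Pi.single ⟨i, Nat.lt_succ_of_le hi⟩ ⟨ω, hω⟩, ?_⟩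
      refine (Finset.sum_eq_single_of_mem (⟨i, Nat.lt_succ_of_le hi⟩ : Fin (m + 1))
        (Finset.mem_univ _) fun l _ hl => ?_).trans ?_
      · rw [Pi.single_eq_of_ne hl]
        simp
      · rw [Pi.single_eq_same]
        rfl
  exact ⟨(LinearEquiv.ofInjective L hi).trans (LinearEquiv.ofEq _ _ hr)⟩

omit [Fintype ι] in
theorem fd_VT {c : Fin p → Fin k} (hfd : ∀ t a, FiniteDimensional ℂ (S.SE c t a)) (m a : ℕ) :
    FiniteDimensional ℂ (S.VT c m a) := by
  obtain ⟨e⟩ := S.vt_equiv c m a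
  exact e.finiteDimensional

omit [Fintype ι] in
theorem finrank_VT {c : Fin p → Fin k} (hfd : ∀ t a, FiniteDimensional ℂ (S.SE c t a))
    (m a : ℕ) :
    finrank ℂ (S.VT c m a) = ∑ i ∈ Finset.range (m + 1), finrank ℂ (S.SE c i a) := by
  obtain ⟨e⟩ := S.vt_equiv c m a
  rw [← e.finrank_eq, finrank_pi_fintype, Finset.sum_range]

variable {S}

omit [Fintype ι] in
theorem VT_mul {c : Fin p → Fin k} {m a m' a' : ℕ} {f : M} (hf : f ∈ S.V m a)
    {T : MvPolynomial (Fin k × Fin n) M} (hT : T ∈ S.VT c m' a') :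
    MvPolynomial.C f * T ∈ S.VT c (m + m') (a + a') := by
  replace hf := S.V_le_span m a hf
  induction hf using Submodule.span_induction with
  | mem f hf =>
    obtain ⟨i, s, hi, hs, rfl⟩ := hf
    induction hT using Submodule.span_induction with
    | mem z hz =>
      obtain ⟨l, hl, ω, hω, rfl⟩ := hz
      refine Submodule.subset_span ⟨i + l, add_le_add hi hl, _, SecE_smul hs hω, ?_⟩
      rw [MvPolynomial.smul_eq_C_mul, map_mul, map_mul, MvPolynomial.map_C, pow_add, map_mul]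
      ring
    | zero => simp
    | add y z _ _ hy hz => exact mul_add _ y z ▸ add_mem hy hz
    | smul z y _ hy => exact mul_smul_comm z _ y ▸ Submodule.smul_mem _ z hy
  | zero => simp
  | add y z _ _ hy hz =>
    rw [map_add, add_mul]
    exact add_mem hy hz
  | smul z y _ hy =>
    rw [Algebra.smul_def, map_mul, mul_assoc]
    exact Algebra.smul_def z (MvPolynomial.C y * T) ▸ Submodule.smul_mem _ z hy

omit [IsScalarTower ℂ K M] [Fintype ι] in
theorem VT_prod {c : Fin p → Fin k} {m a : ℕ} {T : Fin p → MvPolynomial (Fin k × Fin n) M}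
    (hT : ∀ r, T r ∈ S.VT (DD.one (c r)) m a) : ∏ r, T r ∈ S.VT c (p * m) (p * a) := by
  refine prod_span_mem (fun y hy => ?_) hT
  choose i hi ω hω h using hy
  refine Submodule.subset_span ⟨∑ r, i r, ?_, _, SecE_prod hω, ?_⟩
  · simpa using Finset.sum_le_card_nsmul Finset.univ i m fun r _ => hi r
  · simp only [h, Finset.prod_mul_distrib, map_prod, ← Finset.prod_pow_eq_pow_sum]

end Su

namespace Geo

variable {Ω E : Type} [Field Ω] [Algebra ℂ Ω] [Field E] [Algebra ℂ E] [Algebra Ω E]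
  [IsScalarTower ℂ Ω E] {b φ : ℕ} (G : Geo S Ω E b φ) [CharZero E] {j₀ : Fin b}
  {c : Fin p → Fin k}

omit [Fintype ι]

theorem fd_Ph (hfd : ∀ t a, FiniteDimensional ℂ (S.SE c t a)) (m a : ℕ) :
    FiniteDimensional Ω (((S.VT c m a).baseChange Ω).map (G.Ph j₀ k).toLinearMap) := by
  have := S.fd_VT hfd m a
  have := Module.Finite.equiv (Submodule.toBaseChange.toLinearEquiv Ω (S.VT c m a))
  infer_instance

theorem finrank_Ph (h : G.Top j₀) (m a : ℕ) :
    finrank Ω (((S.VT c m a).baseChange Ω).map (G.Ph j₀ k).toLinearMap) =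
      finrank ℂ (S.VT c m a) := by
  rw [← (Submodule.equivMapOfInjective _ (G.Ph_inj h.1) _).finrank_eq,
    ← (Submodule.toBaseChange.toLinearEquiv Ω (S.VT c m a)).finrank_eq, Module.finrank_baseChange]

theorem fd_WE (hfd : ∀ t a, FiniteDimensional ℂ (S.SE c t a)) (m a : ℕ) (α : Fin b →₀ ℕ) :
    FiniteDimensional Ω (G.WE j₀ c m a α) :=
  haveI := G.fd_Ph (j₀ := j₀) hfd m a
  Wl_fd _ _ _

theorem WE_finite (hfd : ∀ t a, FiniteDimensional ℂ (S.SE c t a)) (m a : ℕ) :
    {α | G.WE j₀ c m a α ≠ ⊥}.Finite :=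
  haveI := G.fd_Ph (j₀ := j₀) hfd m a
  Wl_finite _ _

theorem WE_sum_le (h : G.Top j₀) (hfd : ∀ t a, FiniteDimensional ℂ (S.SE c t a)) (m a : ℕ)
    (A : Finset (Fin b →₀ ℕ)) :
    ∑ α ∈ A, finrank Ω (G.WE j₀ c m a α) ≤ finrank ℂ (S.VT c m a) :=
  haveI := G.fd_Ph (j₀ := j₀) hfd m a
  G.finrank_Ph h m a ▸ sum_Wl_le _ _ A

theorem WE_sum_eq (h : G.Top j₀) (hfd : ∀ t a, FiniteDimensional ℂ (S.SE c t a)) (m a : ℕ)
    (A : Finset (Fin b →₀ ℕ)) (hA : ∀ α, G.WE j₀ c m a α ≠ ⊥ → α ∈ A) :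
    ∑ α ∈ A, finrank Ω (G.WE j₀ c m a α) = finrank ℂ (S.VT c m a) :=
  haveI := G.fd_Ph (j₀ := j₀) hfd m a
  G.finrank_Ph h m a ▸ sum_Wl_eq _ _ A hA

omit [IsScalarTower ℂ K M] in
theorem Ph_cT (f : Ω ⊗[ℂ] M) :
    G.Ph j₀ k (cT Ω _ M f) = MvPowerSeries.map MvPolynomial.C (G.ty f) :=
  (congrArg (swp Ω _ _ E) (G.PhP_cT f)).trans (swp_C _)

variable {G}

theorem WE_mul {m m' a a' : ℕ} {α α' : Fin b →₀ ℕ} {w : E}
    {T : MvPolynomial (Fin k × (Fin b ⊕ Fin φ)) E} (hw : w ∈ G.W m a α)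
    (hT : T ∈ G.WE j₀ c m' a' α') :
    MvPolynomial.C w * T ∈ G.WE j₀ c (m + m') (a + a') (α + α') := by
  obtain ⟨s, h1, h2, rfl⟩ := (mem_Wt _ _).1 hw
  obtain ⟨ω, h3, h4, rfl⟩ := G.mem_WE.1 hT
  have h5 : G.Ph j₀ k (cT Ω _ M s) ∈ Fil MonomialOrder.degLex α := fun β hβ => by
    rw [Ph_cT, MvPowerSeries.coeff_map, h2 β hβ, map_zero]
  refine G.mem_WE.2 ⟨cT Ω _ M s * ω, ?_, ?_, ?_⟩
  · exact cT_mul (fun _ hf _ hg => Su.VT_mul hf hg) h1 h3
  · rw [map_mul]
    exact Fil_mul _ h5 h4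
  · rw [map_mul, coeff_Fil_mul _ h5 h4, Ph_cT, MvPowerSeries.coeff_map]

omit [IsScalarTower ℂ K M] in
theorem WE_prod {m a : ℕ} {α : Fin b →₀ ℕ} {T : Fin p → MvPolynomial (Fin k × (Fin b ⊕ Fin φ)) E}
    (hT : ∀ r, T r ∈ G.WE j₀ (one (c r)) m a α) :
    ∏ r, T r ∈ G.WE j₀ c (p * m) (p * a) (p • α) := by
  choose ω h1 h2 h3 using fun r => G.mem_WE.1 (hT r)
  have h := DC.t1_prod _ Finset.univ _ (fun _ => α) h2
  rw [Finset.sum_const, Finset.card_univ, Fintype.card_fin, ← map_prod] at h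
  exact G.mem_WE.2 ⟨∏ r, ω r, baseChange_prod (fun _ => Su.VT_prod) h1, h.1,
    h.2.trans (Finset.prod_congr rfl fun r _ => h3 r)⟩

end Geo

end DD

end Pool.Agent.Lib.MP_bc213e_ag
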