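import Pool.Agent.Lib.MP_bc213e_ag.TE.LB

/-! Basic one-forms from triples of sections. -/

namespace Pool.Agent.Lib.MP_bc213e_ag

open Hyp DA Jet KBB OW Module WithZero
open scoped TensorProduct MonomialOrder

namespace OW

theorem tri_span {R V Z : Type} [CommRing R] [AddCommGroup V] [Module R V] [AddCommGroup Z]
    [Module R Z] {B : V → V → V → Z} (h1 : ∀ y z, IsLinearMap R fun x => B x y z)
    (h2 : ∀ x y z, B x y z = B y z x) {s : Set V} {Y : Submodule R Z}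
    (h : ∀ x ∈ s, ∀ y ∈ s, ∀ z ∈ s, B x y z ∈ Y) {x y z : V} (hx : x ∈ Submodule.span R s)
    (hy : y ∈ Submodule.span R s) (hz : z ∈ Submodule.span R s) : B x y z ∈ Y := by
  have key : ∀ y z, (∀ x ∈ s, B x y z ∈ Y) → ∀ x ∈ Submodule.span R s, B x y z ∈ Y :=
    fun y z h => Submodule.span_le (p := Y.comap (IsLinearMap.mk' _ (h1 y z))) |>.2 h
  refine key y z (fun x hx => ?_) x hx
  rw [h2]
  refine key z x (fun y hy => ?_) y hy
  rw [h2]
  exact key x y (fun z hz => h z hz x hx y hy) z hz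

variable {K P ι : Type} [Field K] [Algebra ℂ K] [CommRing P] [Algebra K P] [Algebra ℂ P]
  [IsScalarTower ℂ K P] {n k : ℕ} (D : Fin n → Derivation ℂ K K) (ξ : Fin k × Fin n → P)
  (s : Fin k) {x g : ι → Kˣ}

omit [Algebra ℂ P] [IsScalarTower ℂ K P] in
theorem dT_mul (f f' : K) : dT D ξ s (f * f') = f • dT D ξ s f' + f' • dT D ξ s f := by
  simp only [dT, Derivation.leibniz, smul_eq_mul, add_smul, Finset.sum_add_distrib, mul_smul,
    Finset.smul_sum]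

omit [Algebra ℂ P] [IsScalarTower ℂ K P] in
theorem dT_pow {f : K} (hf : f ≠ 0) (e : ℕ) :
    dT D ξ s (f ^ e) = (f ^ e * e) • f⁻¹ • dT D ξ s f := by
  induction e with
  | zero => simp [dT]
  | succ e ih =>
    rw [pow_succ, dT_mul, ih, smul_smul, smul_smul, smul_smul, ← add_smul]
    congr 1
    push_cast
    field_simp
    ring

/-- The determinant with rows `f`, `i f`, `d f`. -/
def bK (f₀ f₁ f₂ : K) (i₀ i₁ i₂ : ℕ) : P :=
  (f₁ * f₂ * (i₂ - i₁)) • dT D ξ s f₀ + (f₂ * f₀ * (i₀ - i₂)) • dT D ξ s f₁ +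
    (f₀ * f₁ * (i₁ - i₀)) • dT D ξ s f₂

theorem bK_mem {f₀ f₁ f₂ : K} {i₀ i₁ i₂ a : ℕ} (h₀ : Sec x g i₀ a f₀) (h₁ : Sec x g i₁ a f₁)
    (h₂ : Sec x g i₂ a f₂) :
    bK D ξ s f₀ f₁ f₂ i₀ i₁ i₂ ∈ SecE D ξ (DD.one s) x g (i₀ + i₁ + i₂) (3 * a) := by
  refine ⟨add_mem (add_mem ?_ ?_) ?_, fun j w hw => ?_⟩
  iterate 3 exact Submodule.smul_mem _ _ (dT_mem_Mon s _)
  have h1 : ∀ {f : K} {i : ℕ}, Sec x g i a f → ∃ r, w r ≤ 1 ∧ f = r * (g j ^ i * x j ^ a) :=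
    fun {f i} h => ⟨_, hw.2.1 _ (h j), by
      rw [zpow_natCast, div_mul_cancel₀ _ (mul_ne_zero (pow_ne_zero _ (g j).ne_zero)
        (pow_ne_zero _ (x j).ne_zero))]⟩
  obtain ⟨r₀, p₀, rfl⟩ := h1 h₀
  obtain ⟨r₁, p₁, rfl⟩ := h1 h₁
  obtain ⟨r₂, p₂, rfl⟩ := h1 h₂
  have h2 : ∀ {r r' : K} (i i' : ℕ), w r ≤ 1 → w r' ≤ 1 → w (r * r' * (i - i')) ≤ 1 :=
    fun i i' h h' => by
      rw [map_mul, map_mul]
      exact mul_le_one' (mul_le_one' h h')
        (hw.2.1 _ (sub_mem (natCast_mem _ _) (natCast_mem _ _)))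
  have h3 : bK D ξ s r₀ r₁ r₂ i₀ i₁ i₂ ∈ Reg D ξ (DD.one s) w 0 :=
    add_mem (add_mem (dT_mem_Reg s (h2 _ _ p₁ p₂) p₀) (dT_mem_Reg s (h2 _ _ p₂ p₀) p₁))
      (dT_mem_Reg s (h2 _ _ p₀ p₁) p₂)
  convert h3 using 1
  rw [inv_smul_eq_iff₀ (fr_ne _ _ _ _ _)]
  simp only [bK, fr, zpow_natCast, dT_mul, dT_pow D ξ s (g j).ne_zero, dT_pow D ξ s (x j).ne_zero,
    pow_add, pow_mul']
  module

end OW

namespace DD

theorem fil_div {σ R : Type} [CommRing R] (o : MonomialOrder σ) {i : σ} {δ : σ →₀ ℕ}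
    {ψ : MvPowerSeries σ R} (h : MvPowerSeries.X i * ψ ∈ Fil o (Finsupp.single i 1 + δ)) :
    ψ ∈ Fil o δ ∧ MvPowerSeries.coeff δ ψ =
      MvPowerSeries.coeff (Finsupp.single i 1 + δ) (MvPowerSeries.X i * ψ) := by
  have e : ∀ β, MvPowerSeries.coeff β ψ =
      MvPowerSeries.coeff (Finsupp.single i 1 + β) (MvPowerSeries.X i * ψ) := fun β => by
    rw [MvPowerSeries.X, MvPowerSeries.coeff_add_monomial_mul, one_mul]
  refine ⟨fun β hβ => (e β).trans (h _ ?_), e δ⟩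
  rw [map_add, map_add]
  exact add_lt_add_right hβ _

theorem fil_shift {σ R : Type} [CommRing R] (o : MonomialOrder σ) {i : σ} {α γ : σ →₀ ℕ}
    {ψ ψ' : MvPowerSeries σ R} (h : ψ ∈ Fil o α) (hγ : γ ≺[o] Finsupp.single i 1)
    (h' : ∀ β, MvPowerSeries.coeff (β + γ) ψ = 0 → MvPowerSeries.coeff β ψ' = 0) {β : σ →₀ ℕ}
    (hβ : β ≼[o] α) : MvPowerSeries.coeff β (MvPowerSeries.X i * ψ') = 0 := by
  classical
  rw [MvPowerSeries.X, MvPowerSeries.coeff_monomial_mul]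
  split_ifs with h1
  · obtain ⟨β, rfl⟩ := exists_add_of_le h1
    rw [add_tsub_cancel_left, h' β (h _ (lt_of_lt_of_le ?_ hβ)), mul_zero]
    rw [map_add, map_add, add_comm]
    exact add_lt_add_left hγ _
  · rfl

theorem rder_expand {Ω M κ : Type} [CommRing Ω] [Algebra ℂ Ω] [Field M] [Algebra ℂ M] [Fintype κ]
    [DecidableEq κ] {T : κ → M} {D : κ → Derivation ℂ M M} (h : Frame T D) (δ : Derivation ℂ M M)
    (f : Ω ⊗[ℂ] M) : rder δ f = ∑ d, (1 ⊗ₜ δ (T d)) * rder (D d) f := by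
  induction f with
  | zero => simp
  | add f g hf hg => simp only [map_add, hf, hg, mul_add, Finset.sum_add_distrib]
  | tmul z f =>
    rw [rder_tmul, h.expand δ f, TensorProduct.tmul_sum]
    simp

variable {K M ι : Type} [Field K] [Algebra ℂ K] [Field M] [Algebra ℂ M] [Algebra K M] {n : ℕ}
  {S : Su K M ι n} [IsScalarTower ℂ K M] {k : ℕ}

namespace Su

variable (S) (Ω : Type) [Field Ω] [Algebra ℂ Ω] (s : Fin k)

/-- The differential at constant `u` after extension of scalars. -/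
noncomputable def dH (f : Ω ⊗[ℂ] M) : Ω ⊗[ℂ] MvPolynomial (Fin k × Fin n) M :=
  ∑ a, cT Ω _ M (rder (S.Dref (some a)) f) * 1 ⊗ₜ MvPolynomial.X (s, a)

theorem dH_one (f : M) : S.dH Ω s (1 ⊗ₜ f) = 1 ⊗ₜ S.dK s f := by
  simp [dH, dK, cT_tmul, TensorProduct.tmul_sum]

theorem dH_lin : IsLinearMap Ω (S.dH Ω s) :=
  ⟨fun f g => by simp only [dH, map_add, add_mul, Finset.sum_add_distrib],
    fun z f => by simp only [dH, rder_smul, map_smul, smul_mul_assoc, Finset.smul_sum]⟩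

/-- The determinant with rows `f`, `eps f`, `d f`. -/
noncomputable def bT (f₀ f₁ f₂ : Ω ⊗[ℂ] M) : Ω ⊗[ℂ] MvPolynomial (Fin k × Fin n) M :=
  cT Ω _ M (f₁ * rder S.eps f₂ - f₂ * rder S.eps f₁) * S.dH Ω s f₀ +
    cT Ω _ M (f₂ * rder S.eps f₀ - f₀ * rder S.eps f₂) * S.dH Ω s f₁ +
      cT Ω _ M (f₀ * rder S.eps f₁ - f₁ * rder S.eps f₀) * S.dH Ω s f₂

theorem dK_sec (f : K) (i : ℕ) : S.dK s (algebraMap K M f * S.u ^ i) = MvPolynomial.C (S.u ^ i) *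
    MvPolynomial.map (algebraMap K M) (dT S.D MvPolynomial.X s f) := by
  rw [dK, dT, map_sum, Finset.mul_sum]
  refine Finset.sum_congr rfl fun a _ => ?_
  rw [Derivation.leibniz, Derivation.leibniz_pow, S.Dref_some,
    show S.Dref (some a) S.u = 0 from (S.frame_ref.dual _ none).trans (if_neg (by simp)),
    MvPolynomial.smul_eq_C_mul, map_mul, MvPolynomial.map_C, MvPolynomial.map_X]
  simp [mul_assoc]

theorem bT_mem {m a : ℕ} {f₀ f₁ f₂ : Ω ⊗[ℂ] M} (h₀ : f₀ ∈ (S.V m a).baseChange Ω)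
    (h₁ : f₁ ∈ (S.V m a).baseChange Ω) (h₂ : f₂ ∈ (S.V m a).baseChange Ω) :
    S.bT Ω s f₀ f₁ f₂ ∈ (S.VT (DD.one s) (3 * m) (3 * a)).baseChange Ω := by
  have h := Submodule.baseChange_mono Ω (S.V_le_span m a)
  rw [Submodule.baseChange_span] at h
  refine tri_span (fun y z => ⟨fun x x' => ?_, fun c x => ?_⟩) (fun x y z => ?_) ?_
    (h h₀) (h h₁) (h h₂)
  · simp only [bT, (S.dH_lin Ω s).map_add, map_add, map_sub, map_mul]
    ring
  · simp only [bT, (S.dH_lin Ω s).map_smul, rder_smul, map_smul, map_sub, map_mul]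
    simp only [Algebra.smul_def (A := Ω ⊗[ℂ] MvPolynomial (Fin k × Fin n) M) c]
    ring
  · simp only [bT]
    ring
  rintro _ ⟨_, ⟨i₀, f₀, p₀, q₀, rfl⟩, rfl⟩ _ ⟨_, ⟨i₁, f₁, p₁, q₁, rfl⟩, rfl⟩
    _ ⟨_, ⟨i₂, f₂, p₂, q₂, rfl⟩, rfl⟩
  have h1 := Submodule.tmul_mem_baseChange_of_mem (1 : Ω) (p := S.VT (DD.one s) (3 * m) (3 * a))
    (Submodule.subset_span ⟨_, by omega, _, bK_mem S.D MvPolynomial.X s q₀ q₁ q₂, rfl⟩)
  convert h1 using 1
  simp only [bT, TensorProduct.mk_apply, dH_one, rder_tmul, S.eps_sec, dK_sec,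
    Algebra.TensorProduct.tmul_mul_tmul, ← TensorProduct.tmul_sub, cT_tmul, one_mul,
    ← TensorProduct.tmul_add]
  simp only [bK, MvPolynomial.smul_eq_C_mul, map_add, map_mul, map_sub, MvPolynomial.map_C,
    map_natCast, pow_add]
  congr 1
  ring

end Su

namespace Geo

variable {Ω E : Type} [Field Ω] [Algebra ℂ Ω] [Field E] [Algebra ℂ E] [Algebra Ω E]
  [IsScalarTower ℂ Ω E] {b φ : ℕ} (G : Geo S Ω E b φ) [CharZero E] {j₀ : Fin b}

theorem PhP_dH (s : Fin k) (f : Ω ⊗[ℂ] M) : G.PhP j₀ k (S.dH Ω s f) = G.dL j₀ s f -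
    MvPolynomial.C (G.ty (rder (S.Dref none) f)) * G.dL j₀ s (1 ⊗ₜ S.u) := by
  rw [Su.dH, map_sum]
  simp only [map_mul, PhP_cT, PhP_X, dL_one, Finset.mul_sum]
  rw [Finset.sum_comm, dL, ← Finset.sum_sub_distrib]
  refine Finset.sum_congr rfl fun d _ => ?_
  rw [rder_expand S.frame_ref (G.D₀ d) f, Fintype.sum_option, map_add, map_sum]
  simp only [Su.tb, Option.elim, map_mul, map_add, map_sum, mul_add, add_mul, Finset.mul_sum,
    Finset.sum_mul, tm_apply]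
  rw [add_comm, eq_sub_iff_add_eq]
  exact congrArg₂ _ (Finset.sum_congr rfl fun a _ => by ring) (by ring)

theorem PhP_bT (s : Fin k) (f₀ f₁ f₂ : Ω ⊗[ℂ] M) : G.PhP j₀ k (S.bT Ω s f₀ f₁ f₂) =
    MvPolynomial.C (G.ty (f₁ * rder S.eps f₂ - f₂ * rder S.eps f₁)) * G.dL j₀ s f₀ +
      MvPolynomial.C (G.ty (f₂ * rder S.eps f₀ - f₀ * rder S.eps f₂)) * G.dL j₀ s f₁ +
        MvPolynomial.C (G.ty (f₀ * rder S.eps f₁ - f₁ * rder S.eps f₀)) * G.dL j₀ s f₂ := by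
  have e : ∀ f : Ω ⊗[ℂ] M, rder S.eps f = (1 ⊗ₜ S.u) * rder (S.Dref none) f := fun f => by
    induction f with
    | zero => simp
    | add f g hf hg => simp only [map_add, hf, hg, mul_add]
    | tmul z f => simp [S.eps_apply]
  simp only [Su.bT, map_add, map_mul (G.PhP j₀ k), PhP_cT, PhP_dH]
  simp only [e, map_mul, map_sub]
  ring

theorem lead_eps (h : G.Top j₀) {f : Ω ⊗[ℂ] M} {α : Fin b →₀ ℕ}
    (hf : G.ty f ∈ Fil MonomialOrder.degLex α) {β : Fin b →₀ ℕ}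
    (hβ : β ≼[MonomialOrder.degLex] α) :
    MvPowerSeries.coeff β (MvPowerSeries.X j₀ * G.ty (rder S.eps f)) =
      G.ι (S.eps (G.y j₀)) * (β j₀ * MvPowerSeries.coeff β (G.ty f)) := by
  have k0 : ∀ i, G.ty (rder (G.D₀ (Sum.inl i)) f) = MvPowerSeries.pderiv E i (G.ty f) :=
    fun i => (pderiv_tayL _ _ f i).symm
  have k1 : ∀ (t ψ : MvPowerSeries (Fin b) E), MvPowerSeries.X j₀ * ψ ∈ Fil MonomialOrder.degLex β →
      MvPowerSeries.coeff β (MvPowerSeries.X j₀ * (t * ψ)) =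
        MvPowerSeries.constantCoeff t * MvPowerSeries.coeff β (MvPowerSeries.X j₀ * ψ) :=
    fun t ψ hψ => by
      have := coeff_Fil_mul _ (mem_Fil_zero MonomialOrder.degLex t) hψ
      rwa [zero_add, mul_left_comm] at this
  have k2 : ∀ (t ψ : MvPowerSeries (Fin b) E), (∀ γ, γ ≼[MonomialOrder.degLex] α →
      MvPowerSeries.coeff γ (MvPowerSeries.X j₀ * ψ) = 0) →
      MvPowerSeries.coeff β (MvPowerSeries.X j₀ * (t * ψ)) = 0 := fun t ψ hψ => by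
    rw [k1 t ψ fun γ hγ => hψ γ (hγ.le.trans hβ), hψ β hβ, mul_zero]
  rw [rder_expand G.frame S.eps f, map_sum, Finset.mul_sum, map_sum,
    Finset.sum_eq_single_of_mem (Sum.inl j₀) (Finset.mem_univ _)]
  · rw [map_mul G.ty, k0, k1 _ _ fun γ hγ => by
      rw [coeff_euler, hf γ (hγ.trans_le hβ), mul_zero], coeff_euler, constantCoeff_tayL, evT_one]
    rfl
  rintro (i | d) - hd
  · by_cases h0 : S.eps (G.y i) = 0
    · simp [h0]
    rw [map_mul G.ty, k0]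
    refine k2 _ _ fun γ => fil_shift _ hf (γ := Finsupp.single i 1)
      (lt_of_le_of_ne (h.2 i h0) fun e => hd ?_) fun β hβ => ?_
    · rw [Finsupp.single_left_injective one_ne_zero (MonomialOrder.degLex.toSyn.injective e)]
    · rw [MvPowerSeries.coeff_pderiv, hβ, zero_mul]
  · rw [map_mul G.ty]
    refine k2 _ _ fun γ => fil_shift _ hf (γ := 0)
      (MonomialOrder.degLex.toSyn_strictMono (by simp [pos_iff_ne_zero])) fun β hβ => ?_
    rw [coeff_rder, ← add_zero β, hβ, map_zero]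

/-- The horizontal part of the leading term of a differential. -/
noncomputable def lam (E : Type) [Field E] (φ : ℕ) (j₀ : Fin b) (s : Fin k) (α : Fin b →₀ ℕ) :
    MvPolynomial (Fin k × (Fin b ⊕ Fin φ)) E :=
  ∑ i, if i = j₀ then 0 else (α i : MvPolynomial _ E) * MvPolynomial.X (s, Sum.inl i)

theorem bas (h : G.Top j₀) (s : Fin k) {m a : ℕ} {α₀ α₁ α₂ δ : Fin b →₀ ℕ} {w₀ w₁ w₂ : E}
    (h₀ : w₀ ∈ G.W m a α₀) (h₁ : w₁ ∈ G.W m a α₁) (h₂ : w₂ ∈ G.W m a α₂)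
    (hδ : α₀ + α₁ + α₂ = Finsupp.single j₀ 1 + δ) :
    MvPolynomial.C (G.ι (S.eps (G.y j₀))) *
      (MvPolynomial.C (w₁ * w₂ * (α₂ j₀ - α₁ j₀)) *
          (lam E φ j₀ s α₀ * MvPolynomial.C w₀ + G.dF s w₀) +
        MvPolynomial.C (w₂ * w₀ * (α₀ j₀ - α₂ j₀)) *
          (lam E φ j₀ s α₁ * MvPolynomial.C w₁ + G.dF s w₁) +
        MvPolynomial.C (w₀ * w₁ * (α₁ j₀ - α₀ j₀)) *
          (lam E φ j₀ s α₂ * MvPolynomial.C w₂ + G.dF s w₂)) ∈
      G.WE j₀ (one s) (3 * m) (3 * a) δ := by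
  obtain ⟨f₀, p₀, q₀, rfl⟩ := (mem_Wt _ _).1 h₀
  obtain ⟨f₁, p₁, q₁, rfl⟩ := (mem_Wt _ _).1 h₁
  obtain ⟨f₂, p₂, q₂, rfl⟩ := (mem_Wt _ _).1 h₂
  let ψ := fun f g l : Ω ⊗[ℂ] M => MvPowerSeries.X j₀ * swp Ω _ _ E
    (MvPolynomial.C (G.ty (f * rder S.eps g - g * rder S.eps f)) * G.dL j₀ s l)
  have key : ∀ {f g l : Ω ⊗[ℂ] M} {α β γ θ : Fin b →₀ ℕ}, G.ty f ∈ Fil MonomialOrder.degLex α →
      G.ty g ∈ Fil MonomialOrder.degLex β → G.ty l ∈ Fil MonomialOrder.degLex γ → θ = α + β + γ →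
      ψ f g l ∈ Fil MonomialOrder.degLex θ ∧ MvPowerSeries.coeff θ (ψ f g l) =
        MvPolynomial.C (G.ι (S.eps (G.y j₀))) * (MvPolynomial.C (MvPowerSeries.coeff α (G.ty f) *
          MvPowerSeries.coeff β (G.ty g) * (β j₀ - α j₀)) *
          (lam E φ j₀ s γ * MvPolynomial.C (MvPowerSeries.coeff γ (G.ty l)) +
            G.dF s (MvPowerSeries.coeff γ (G.ty l)))) := by
    rintro f g l α β γ _ hf hg hl rfl
    have e1 : ∀ {f : Ω ⊗[ℂ] M} {α}, G.ty f ∈ Fil MonomialOrder.degLex α →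
        MvPowerSeries.X j₀ * G.ty (rder S.eps f) ∈ Fil MonomialOrder.degLex α :=
      fun hf γ hγ => by rw [G.lead_eps h hf hγ.le, hf γ hγ, mul_zero, mul_zero]
    let χ := G.ty f * (MvPowerSeries.X j₀ * G.ty (rder S.eps g)) -
      MvPowerSeries.X j₀ * G.ty (rder S.eps f) * G.ty g
    have e2 : ψ f g l = MvPowerSeries.map MvPolynomial.C χ * swp Ω _ _ E (G.dL j₀ s l) := by
      simp only [ψ, χ, map_mul, map_sub, swp_C, MvPowerSeries.map_X]
      ring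
    have e3 : χ ∈ Fil MonomialOrder.degLex (α + β) :=
      sub_mem (Fil_mul _ hf (e1 hg)) (Fil_mul _ (e1 hf) hg)
    have e4 : MvPowerSeries.map (MvPolynomial.C (σ := Fin k × (Fin b ⊕ Fin φ))) χ ∈
        Fil MonomialOrder.degLex (α + β) := fun γ hγ => by
      rw [MvPowerSeries.coeff_map, e3 γ hγ, map_zero]
    refine ⟨e2 ▸ Fil_mul _ e4 (G.lead_dL s hl).1, ?_⟩
    rw [e2, coeff_Fil_mul _ e4 (G.lead_dL s hl).1, coeff_dL, MvPowerSeries.coeff_map, map_sub,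
      coeff_Fil_mul _ hf (e1 hg), coeff_Fil_mul _ (e1 hf) hg, G.lead_eps h hf le_rfl,
      G.lead_eps h hg le_rfl, ← mul_assoc (MvPolynomial.C _), ← map_mul]
    exact congrArg₂ _ (congrArg _ (by ring)) rfl
  have k₀ := key (θ := Finsupp.single j₀ 1 + δ) q₁ q₂ q₀ (by rw [← hδ]; abel)
  have k₁ := key (θ := Finsupp.single j₀ 1 + δ) q₂ q₀ q₁ (by rw [← hδ]; abel)
  have k₂ := key q₀ q₁ q₂ hδ.symm
  have e : MvPowerSeries.X j₀ * G.Ph j₀ k (S.bT Ω s f₀ f₁ f₂) =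
      ψ f₁ f₂ f₀ + ψ f₂ f₀ f₁ + ψ f₀ f₁ f₂ := by
    rw [Ph, AlgHom.comp_apply, PhP_bT, map_add, map_add, mul_add, mul_add]
  have k₃ := fil_div MonomialOrder.degLex (ψ := G.Ph j₀ k (S.bT Ω s f₀ f₁ f₂)) (by
    rw [e]
    exact add_mem (add_mem k₀.1 k₁.1) k₂.1)
  refine G.mem_WE.2 ⟨_, S.bT_mem Ω s p₀ p₁ p₂, k₃.1, ?_⟩
  rw [k₃.2, e, map_add, map_add, k₀.2, k₁.2, k₂.2, ← mul_add, ← mul_add]

omit [Algebra ℂ E] [IsScalarTower ℂ Ω E] [CharZero E] in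
theorem half_mem {Y : Submodule Ω (MvPolynomial (Fin k × (Fin b ⊕ Fin φ)) E)}
    {T T' : MvPolynomial (Fin k × (Fin b ⊕ Fin φ)) E} (h : T ∈ Y) (e : T = -2 * T') : T' ∈ Y := by
  have : CharZero Ω := charZero_of_injective_algebraMap (algebraMap ℂ Ω).injective
  rw [← Submodule.smul_mem_iff _ (show (-2 : Ω) ≠ 0 by norm_num), Algebra.smul_def, map_neg,
    map_ofNat, ← e]
  exact h

theorem bas_h [Fintype ι] (h : G.Top j₀) (s : Fin k) {m a : ℕ} {α : Fin b →₀ ℕ} {w w' : E}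
    (hw : w ∈ G.W m a (α + 2 • uno b)) (hw' : w' ∈ G.W m a (α + 2 • uno b)) {i : Fin b}
    (hi : i ≠ j₀) :
    MvPolynomial.C (G.ι (S.eps (G.y j₀)) * w' * w ^ 2) * MvPolynomial.X (s, Sum.inl i) ∈
      G.WE j₀ (one s) (3 * m) (3 * a) (3 • α + uno b) := by
  have h1 : ∀ l l' : Fin b, Finsupp.single l 1 l' ≤ 1 := fun l l' => by
    rw [Finsupp.single_apply]
    split_ifs <;> simp
  obtain ⟨γ, hγ⟩ : ∃ γ, uno b = Finsupp.single i 1 + γ := exists_add_of_le fun l => h1 i l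
  have h2 : ∀ l, Finsupp.single i 1 l + γ l = 1 := fun l => (DFunLike.congr_fun hγ l).symm
  have h3 := G.bas h s (α₁ := α + Finsupp.single i 1) (α₂ := α + (γ + Finsupp.single j₀ 1))
    (δ := 3 • α + uno b) (G.W_down m a le_self_add hw)
    (G.W_down m a (fun l => by have := h1 i l; simp; omega) hw)
    (G.W_down m a (fun l => by have := h1 j₀ l; have := h2 l; simp; omega) hw')
    (by rw [hγ]; abel)
  have h4 : lam E φ j₀ s (α + Finsupp.single i 1) =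
      lam E φ j₀ s α + MvPolynomial.X (s, Sum.inl i) := by
    rw [lam, lam, ← Finset.sum_ite_eq_of_mem Finset.univ i
      (fun l => MvPolynomial.X (s, Sum.inl l)) (Finset.mem_univ _), ← Finset.sum_add_distrib]
    refine Finset.sum_congr rfl fun l _ => ?_
    by_cases hl : i = l
    · simp [← hl, hi, add_mul]
    · simp [hl]
  have h5 : γ j₀ = 1 := by simpa [hi] using h2 j₀
  refine half_mem h3 ?_
  simp only [h4, Finsupp.add_apply, Finsupp.single_eq_of_ne hi.symm, Finsupp.single_eq_same, h5,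
    map_mul, map_sub, map_natCast, map_pow]
  push_cast
  ring

theorem bas_v [Fintype ι] (h : G.Top j₀) (s : Fin k) {m a : ℕ} {α : Fin b →₀ ℕ} {w₀ w₁ w' : E}
    (h₀ : w₀ ∈ G.W m a (α + 2 • uno b)) (h₁ : w₁ ∈ G.W m a (α + 2 • uno b))
    (hw' : w' ∈ G.W m a (α + 2 • uno b)) :
    MvPolynomial.C (G.ι (S.eps (G.y j₀)) * w') *
        (MvPolynomial.C w₀ * G.dF s w₁ - MvPolynomial.C w₁ * G.dF s w₀) ∈
      G.WE j₀ (one s) (3 * m) (3 * a) (3 • α + uno b) := by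
  have h3 := G.bas h s (α₂ := α + (uno b + Finsupp.single j₀ 1)) (δ := 3 • α + uno b)
    (G.W_down m a le_self_add h₀) (G.W_down m a le_self_add h₁)
    (G.W_down m a (fun l => by
      simp only [Finsupp.add_apply, Finsupp.smul_apply, uno_apply, Finsupp.single_apply]
      split_ifs <;> simp) hw') (by abel)
  refine half_mem h3 ?_
  simp only [Finsupp.add_apply, Finsupp.single_eq_same, uno_apply, map_mul, map_sub, map_natCast]
  push_cast
  ring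

end Geo

end DD

end Pool.Agent.Lib.MP_bc213e_ag
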