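import Pool.Agent.Lib.MP_bc213e_ag.TE.LC

/-! The lower bound for the spaces of leading coefficients. -/

namespace Pool.Agent.Lib.MP_bc213e_ag.DD.Geo

open Pool.Agent.Lib.MP_bc213e_ag.Hyp Pool.Agent.Lib.MP_bc213e_ag.DA Pool.Agent.Lib.MP_bc213e_ag.Jet
open Pool.Agent.Lib.MP_bc213e_ag.KBB Pool.Agent.Lib.MP_bc213e_ag.OW Module
open scoped TensorProduct MonomialOrder

variable {K M ι : Type} [Field K] [Algebra ℂ K] [Field M] [Algebra ℂ M] [Algebra K M] {n : ℕ}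
  {S : Su K M ι n} {Ω E : Type} [Field Ω] [Algebra ℂ Ω] [Field E] [Algebra ℂ E] [Algebra Ω E]
  [IsScalarTower ℂ Ω E] {b φ : ℕ} (G : Geo S Ω E b φ) {k p : ℕ} {j₀ : Fin b}

theorem dF_wr (s : Fin k) (w f : E) :
    MvPolynomial.C w * G.dF s (w * f) - MvPolynomial.C (w * f) * G.dF s w =
      MvPolynomial.C (w ^ 2) * G.dF s f := by
  simp only [dF, Derivation.leibniz, smul_eq_mul, map_add, map_mul, map_pow, Finset.mul_sum,
    ← Finset.sum_sub_distrib]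
  exact Finset.sum_congr rfl fun d _ => by ring

variable [IsScalarTower ℂ K M] [Fintype ι] [CharZero E]

theorem bas_d (h : G.Top j₀) (s : Fin k) {m a : ℕ} {α : Fin b →₀ ℕ}
    (hα : G.W m a (α + 2 • uno b) = G.R a) {w f : E} (hw : w ∈ G.R a) (hf : w * f ∈ G.R a) :
    MvPolynomial.C (G.ι (S.eps (G.y j₀)) * w ^ 3) * G.dF s f ∈
      G.WE j₀ (one s) (3 * m) (3 * a) (3 • α + uno b) := by
  have h1 := G.bas_v h s (hα.ge hw) (hα.ge hf) (hα.ge hw)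
  rwa [dF_wr, ← mul_assoc, ← map_mul, mul_assoc, ← pow_succ'] at h1

/-- One-forms of the same weight with diagonal leading matrix. -/
theorem diag (h : G.Top j₀) : ∃ e, ∀ a₁, e ≤ a₁ → ∀ (m₁ : ℕ) (α₁ : Fin b →₀ ℕ),
    G.W m₁ a₁ (α₁ + 2 • uno b) = G.R a₁ → ∀ (s : Fin k) (d : Fin b ⊕ Fin φ), d ≠ Sum.inl j₀ →
      ∃ κ : E, κ ≠ 0 ∧ MvPolynomial.C κ * MvPolynomial.X (s, d) ∈
        G.WE j₀ (one s) (3 * m₁) (3 * a₁) (3 • α₁ + uno b) := by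
  obtain ⟨e, σ, h0, h1, h2⟩ := S.ratio G.z₀
  have hc := (map_ne_zero G.ι).2 h.1
  refine ⟨e, fun a₁ ha m₁ α₁ hα s d hd => ?_⟩
  rcases d with i | d
  · exact ⟨_, by simpa using h.1, G.bas_h h s (hα.ge (G.one_mem_R a₁)) (hα.ge (G.one_mem_R a₁))
      fun e => hd (congrArg _ e)⟩
  · have h3 := G.bas_d h s hα (G.R_mono ha (G.ι_mem_R (S.V_le_U _ _ h1))) (f := G.ι (G.z₀ d))
      (map_mul G.ι σ _ ▸ G.R_mono ha (G.ι_mem_R (S.V_le_U _ _ (h2 d))))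
    have h4 : G.dF s (G.ι (G.z₀ d)) = MvPolynomial.X (s, Sum.inr d) := by
      have h5 : ∀ d', G.D₀ (Sum.inr d') (G.z₀ d) = if d' = d then 1 else 0 := fun d' =>
        (G.frame.dual _ (Sum.inr d)).trans (if_congr Sum.inr_injective.eq_iff rfl rfl)
      simp [dF, DE_ι, h5, apply_ite]
    exact ⟨_, mul_ne_zero hc (pow_ne_zero _ ((map_ne_zero G.ι).2 h0)), h4 ▸ h3⟩

/-- The lower bound. -/
theorem low_dim (h : G.Top j₀) {c : Fin p → Fin k}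
    (hfd : ∀ t a, FiniteDimensional ℂ (S.SE c t a)) : ∃ e, ∀ a₁, e ≤ a₁ →
    ∀ (m₁ : ℕ) (α₁ : Fin b →₀ ℕ), G.W m₁ a₁ (α₁ + 2 • uno b) = G.R a₁ →
      ∀ (m a : ℕ) (β : Fin b →₀ ℕ), G.W m a β = G.R a →
        finrank Ω (G.MT j₀ c a (p * (3 * a₁))) ≤ finrank Ω
          (G.WE j₀ c (m + p * (3 * m₁)) (a + p * (3 * a₁)) (β + p • (3 • α₁ + uno b))) := by
  obtain ⟨e, -, he⟩ := S.exists_e
  refine ⟨e, fun a₁ ha m₁ α₁ hα m a β hβ => ?_⟩
  have hX : ∀ j l, G.X j ^ l ∈ G.R l := fun j l => G.W_le_R 0 l 0 (G.X_pow_mem_W j l)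
  have h1 : ∀ j s o, MvPolynomial.C (G.ι (S.eps (G.y j₀)) * (G.X j ^ a₁) ^ 3) * G.gn j₀ j s o ∈
      G.WE j₀ (one (k := k) s) (3 * m₁) (3 * a₁) (3 • α₁ + uno b) := by
    rintro j s (i | o)
    · by_cases hi : i = j₀
      · simp [gn, hi]
      · have h2 := G.bas_h h s (hα.ge (hX j a₁)) (hα.ge (hX j a₁)) hi
        rw [mul_assoc (G.ι _), ← pow_succ'] at h2
        simpa only [gn, Sum.elim_inl, if_neg hi] using h2
    · refine G.bas_d h s hα (hX j a₁) ?_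
      obtain ⟨l, rfl⟩ := Nat.exists_eq_add_of_le' ha
      rw [pow_add, mul_assoc]
      refine mul_mem_R (hX j l) ?_
      rw [X, ← map_pow, ← map_mul]
      exact G.ι_mem_R (S.V_le_U _ _ (he j o))
  have := G.fd_WE (j₀ := j₀) hfd (m + p * (3 * m₁)) (a + p * (3 * a₁)) (β + p • (3 • α₁ + uno b))
  let L := LinearMap.mulLeft Ω
    (MvPolynomial.C (G.ι (S.eps (G.y j₀)) ^ p) : MvPolynomial (Fin k × (Fin b ⊕ Fin φ)) E)
  have hL : Function.Injective L := mul_right_injective₀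
    (MvPolynomial.C_ne_zero.2 (pow_ne_zero _ ((map_ne_zero G.ι).2 h.1)))
  rw [(Submodule.equivMapOfInjective L hL _).finrank_eq]
  refine Submodule.finrank_mono (Submodule.map_le_iff_le_comap.2 (Submodule.span_le.2 ?_))
  rintro _ ⟨j, w, hw, o, rfl⟩
  have h2 := WE_mul (hβ.ge hw) (WE_prod fun r => h1 j (c r) (o r))
  rw [Finset.prod_mul_distrib, Fin.prod_const] at h2
  refine Submodule.mem_comap.2 (Eq.subst ?_ h2)
  simp only [L, LinearMap.mulLeft_apply, map_mul, map_pow]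
  ring

end Pool.Agent.Lib.MP_bc213e_ag.DD.Geo
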