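import Pool.Agent.Lib.MP_bc213e_ag.TE.N.Cmp
import Pool.Agent.Lib.MP_bc213e_ag.KL.T.Main

/-! The theorem on tensors on the charts of an embedding. -/

namespace Pool.Agent.Lib.MP_bc213e_ag.DD

open Pool.Agent.Lib.MP_bc213e_ag.Hyp Pool.Agent.Lib.MP_bc213e_ag.KBB Filter Module Polynomial

theorem num_le {ν : ℕ} {P Q : ℚ[X][X]} (hP : P.natDegree ≤ ν) (hQ : Q.natDegree ≤ ν)
    {f f' : ℕ → ℕ} {a a' : ℚ} (hf : ∀ i, (f i : ℚ) = P.evalEval a (i : ℚ))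
    (hf' : ∀ i, (f' i : ℚ) = Q.evalEval a' (i : ℚ)) {k k' c c' e : ℕ}
    (H : ∀ s : ℕ, 0 < s → ∀ᶠ m : ℕ in atTop,
      (∑ i ∈ Finset.range (k * m + 1), f i) * c * s ^ e ≤
        (∑ i ∈ Finset.range (k' * m + 1), f' i) * c' * (s + 1) ^ e) :
    (k : ℚ) ^ (ν + 1) * (P.coeff ν).eval a * c ≤ (k' : ℚ) ^ (ν + 1) * (Q.coeff ν).eval a' * c' := by
  refine num_lim (b := e) fun s hs => ?_
  have h1 := num_lead (p := P.map (evalRingHom a)) (p' := Q.map (evalRingHom a')) (ν := ν)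
    (natDegree_map_le.trans hP) (natDegree_map_le.trans hQ) (k := k) (k' := k')
    (c := (c : ℚ) * (s : ℚ) ^ e) (c' := (c' : ℚ) * ((s : ℚ) + 1) ^ e)
    ((H s hs).mono fun m hm => by
      simp only [map_evalRingHom_eval, ← hf, ← hf', ← mul_assoc]
      exact_mod_cast hm)
  rw [coeff_map, coeff_map, coe_evalRingHom, coe_evalRingHom] at h1
  linarith

variable {K M ι : Type} [Field K] [Algebra ℂ K] [Field M] [Algebra ℂ M] [Algebra K M]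
  [IsScalarTower ℂ K M] [Fintype ι] {n k p : ℕ} (S : Su K M ι n) {ν j : ℕ} {P Q : ℚ[X][X]}

theorem Su.baseT (hd : S.d₀ = n - 1) (hk : S.VK (ν + j)) (hs : S.Sm (ν + j)) (c : Fin p → Fin k)
    (deg : P.natDegree ≤ ν)
    (hilbert : ∀ t : ℕ, ∀ᶠ a : ℕ in atTop,
      (finrank ℂ (SecS S.x S.g t a) : ℚ) = P.evalEval (a : ℚ) (t : ℚ))
    (hfd : ∀ t a, FiniteDimensional ℂ (S.SE c t a)) (degQ : Q.natDegree ≤ ν)
    (order : ¬ Polynomial.X ^ (j + 1) ∣ Q.coeff ν) {a₀ : ℕ}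
    (hQ : ∀ t a : ℕ, a₀ ≤ a → (finrank ℂ (S.SE c t a) : ℚ) = Q.evalEval (a : ℚ) (t : ℚ)) :
    ∃ k : IntermediateField ℂ M, Algebra.trdeg ℂ k ≤ (ν + j + 1 : ℕ) ∧
      ∀ a : ℕ, FiniteDimensional k (Submodule.span k {f | ∃ (i : ℕ) (s : K),
        Sec S.x S.g i a s ∧ f = algebraMap K M s * S.u ^ i}) := by
  obtain ⟨a₀', hP⟩ := S.unif hilbert
  obtain ⟨Ω, _, _, _, hΩ⟩ := exists_univ
  obtain ⟨E, _, _, _, _, b, φ, ⟨G⟩⟩ := exists_geo S Ω hΩ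
  have : CharZero E := charZero_of_injective_algebraMap (algebraMap ℂ E).injective
  have hb : b ≤ ν + j + 1 := by
    by_contra hb
    obtain ⟨g, rfl⟩ := Nat.exists_eq_add_of_lt (not_le.1 hb)
    obtain ⟨j₀, h⟩ := G.exists_Top
    obtain ⟨a₁, hc⟩ := G.geo_cmpk hd hk (by omega)
    obtain ⟨a₂, hl⟩ := G.cmp_low hd hk (by omega) h hfd
    obtain ⟨a₃, hu⟩ := G.cmp_up hd hk hs (by omega) h hfd
    obtain ⟨a, ha⟩ : ∃ a, a = a₀ + a₀' + a₁ + a₂ + a₃ + 1 := ⟨_, rfl⟩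
    have h1 : ∀ k₁ k₂ : ℕ, 0 < k₁ → 0 < k₂ → _ := fun k₁ k₂ h₁ h₂ => num_le deg deg
      (fun i => hP i (k₁ * a) (by nlinarith)) (fun i => hP i (k₂ * a) (by nlinarith))
      (k := k₁) (k' := k₂) (c := finrank Ω (G.R (k₂ * a)) * k₂ ^ (ν + j + 1 + g + 1))
      (c' := finrank Ω (G.R (k₁ * a)) * k₁ ^ (ν + j + 1 + g + 1)) (e := 2 * (ν + j + 1 + g + 1))
      fun s h0 => (hc a (by omega) k₁ k₂ s h₁ h₂ h0).mono fun m hm => by
        simpa only [S.finrank_V, mul_pow, pow_mul, mul_assoc] using hm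
    refine order (num_dvd (j + 1) _ (r := finrank Ω (G.R a)) (a := a)
      (c := (P.coeff ν).eval (a : ℚ)) (Nat.cast_ne_zero.2 (G.R_pos a).ne')
      (Nat.cast_ne_zero.2 (by omega)) fun l hl0 => ?_)
    have h2 := le_antisymm (h1 l 1 hl0 one_pos) (h1 1 l one_pos hl0)
    have h3 : a ≤ l * a := Nat.le_mul_of_pos_left a hl0
    have h4 := le_antisymm
      (num_le deg degQ (fun i => hP i (l * a) (by omega)) (fun i => hQ i (l * a) (by omega))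
        fun s h0 => by
          simpa only [S.finrank_V, S.finrank_VT hfd] using hl (l * a) (by omega) s h0)
      (num_le degQ deg (fun i => hQ i (l * a) (by omega)) (fun i => hP i (l * a) (by omega))
        fun s h0 => by
          simpa only [S.finrank_V, S.finrank_VT hfd] using hu (l * a) (by omega) s h0)
    rw [mul_assoc, mul_assoc] at h4
    replace h4 := mul_left_cancel₀ (pow_ne_zero _ (Nat.cast_ne_zero.2 (by omega))) h4
    refine ⟨l ^ g * finrank Ω (G.GT j₀ c (l * a)), mul_left_cancel₀ (mul_ne_zero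
      (pow_ne_zero (ν + 1) (Nat.cast_ne_zero.2 hl0.ne' : (l : ℚ) ≠ 0))
      (Nat.cast_ne_zero.2 (G.R_pos (l * a)).ne' : (finrank Ω (G.R (l * a)) : ℚ) ≠ 0)) ?_⟩
    rw [one_mul a] at h2
    simp only [one_mul, Nat.cast_one, one_pow, mul_one] at h2
    push_cast at h2 h4 ⊢
    linear_combination (finrank Ω (G.GT j₀ c (l * a)) : ℚ) * h2 -
      (l : ℚ) ^ (ν + 1) * (finrank Ω (G.R a) : ℚ) * h4
  refine ⟨G.k, ?_, fun a => ?_⟩
  · rw [G.trdeg_k]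
    exact_mod_cast hb
  · have := G.toFib.fd_k a.succ_pos
    refine Submodule.finiteDimensional_of_le (S₂ := Submodule.span G.k (S.U (a + 1) : Set M))
      (Submodule.span_mono ?_)
    rintro _ ⟨i, s, hs, rfl⟩
    exact S.U_mono a.le_succ (S.V_le_U i a (S.sec_mem_V le_rfl hs))

theorem Su.growthT (hd : S.d₀ = n - 1) (hk : S.VK ν) (hs : S.Sm ν) (c : Fin p → Fin k)
    (deg : P.natDegree ≤ ν) (top : P.coeff ν ≠ 0)
    (hilbert : ∀ t : ℕ, ∀ᶠ a : ℕ in atTop,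
      (finrank ℂ (SecS S.x S.g t a) : ℚ) = P.evalEval (a : ℚ) (t : ℚ))
    (hfd : ∀ t a, FiniteDimensional ℂ (S.SE c t a)) (degQ : Q.natDegree ≤ ν)
    (chi : (Q.coeff ν).eval 0 ≠ 0) {a₀ : ℕ}
    (hQ : ∀ t a : ℕ, a₀ ≤ a → (finrank ℂ (S.SE c t a) : ℚ) = Q.evalEval (a : ℚ) (t : ℚ)) :
    ∃ δ : ℚ, 0 < δ ∧ ∃ᶠ t : ℕ in atTop, δ * (t : ℚ) ^ ν ≤ finrank ℂ (SecS S.x S.g t 0) := by
  obtain ⟨k, h1, h2⟩ := S.baseT (j := 0) hd hk hs c deg hilbert hfd degQ (fun h => chi (by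
    rw [← coeff_zero_eq_eval_zero, ← X_dvd_iff]
    simpa using h)) hQ
  obtain ⟨a₀', hP⟩ := S.unif hilbert
  obtain ⟨a, c, -, hc0, big⟩ := num_big P deg top
    (fun t a => finrank ℂ (SecS S.x S.g t a)) a₀' hP
  exact DS.endgame S.frac S.norm S.one S.cart S.nef
    ((TCI.trdeg_eq_card S.τ S.hτ).trans (by rw [Fintype.card_fin])) S.u S.tr S.top k h1 a (h2 a)
    hc0 big

end Pool.Agent.Lib.MP_bc213e_ag.DD
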