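import Pool.Agent.Lib.MP_bc213e_ag.TE.LA
import Pool.Agent.Lib.MP_bc213e_ag.TE.U.E
import Pool.Agent.Lib.MP_bc213e_ag.TE.U.F

/-! The leading coefficients of tensors are regular on the fibre. -/

namespace Pool.Agent.Lib.MP_bc213e_ag.DD.Geo

open Pool.Agent.Lib.MP_bc213e_ag.Hyp Pool.Agent.Lib.MP_bc213e_ag.DA Pool.Agent.Lib.MP_bc213e_ag.Jet
open Pool.Agent.Lib.MP_bc213e_ag.TE Pool.Agent.Lib.MP_bc213e_ag.DL
open scoped TensorProduct MonomialOrder

variable {K M ι : Type} [Field K] [Algebra ℂ K] [Field M] [Algebra ℂ M] [Algebra K M] {n : ℕ}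
  {S : Su K M ι n} {Ω E : Type} [Field Ω] [Algebra ℂ Ω] [Field E] [Algebra ℂ E] [Algebra Ω E]
  [IsScalarTower ℂ Ω E] {b φ : ℕ} (G : Geo S Ω E b φ) {k p : ℕ} (j₀ : Fin b)

theorem dF_add (s : Fin k) (f g : E) : G.dF s (f + g) = G.dF s f + G.dF s g := by
  simp only [dF, map_add, add_mul, Finset.sum_add_distrib]

theorem dF_mul (s : Fin k) (f g : E) :
    G.dF s (f * g) = MvPolynomial.C f * G.dF s g + MvPolynomial.C g * G.dF s f := by
  simp only [dF, Derivation.leibniz, smul_eq_mul, map_add, map_mul, add_mul, Finset.mul_sum,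
    Finset.sum_add_distrib, mul_assoc]

theorem dF_mem {j : ι} (s : Fin k) {f : E} (hf : f ∈ G.C j) : ∃ t : Fin b ⊕ Option ι →₀ G.C j,
    G.dF s f = t.sum fun o a => MvPolynomial.C (a : E) * G.gn j₀ j s o := by
  have h : G.dF s f ∈ Submodule.span (G.C j) (Set.range (G.gn j₀ j s)) := by
    induction hf using Algebra.adjoin_induction with
    | mem x hx =>
      obtain ⟨o, rfl⟩ := hx
      exact Submodule.subset_span ⟨Sum.inr o, rfl⟩
    | algebraMap r => simp [dF]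
    | add x y _ _ hx hy =>
      rw [dF_add]
      exact add_mem hx hy
    | mul x y kx ky hx hy =>
      rw [dF_mul, ← MvPolynomial.smul_eq_C_mul, ← MvPolynomial.smul_eq_C_mul]
      exact add_mem (Submodule.smul_mem _ (⟨x, kx⟩ : G.C j) hy)
        (Submodule.smul_mem _ (⟨y, ky⟩ : G.C j) hx)
  obtain ⟨t, ht⟩ := Finsupp.mem_span_range_iff_exists_finsupp.1 h
  exact ⟨t, ht.symm.trans (Finset.sum_congr rfl fun o _ => MvPolynomial.smul_eq_C_mul _ _)⟩

/-- The module of the chart `j`. -/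
noncomputable def GTj (c : Fin p → Fin k) (a : ℕ) (j : ι) :
    Submodule Ω (MvPolynomial (Fin k × (Fin b ⊕ Fin φ)) E) :=
  Submodule.span Ω {T | ∃ f ∈ G.C j, ∃ o : Fin p → Fin b ⊕ Option ι,
    T = MvPolynomial.C (G.X j ^ a * f) * ∏ r, G.gn j₀ j (c r) (o r)}

variable {G j₀} {c : Fin p → Fin k} {a : ℕ} {j : ι}

theorem mul_mem_GTj {f : E} (hf : f ∈ G.C j) {T : MvPolynomial (Fin k × (Fin b ⊕ Fin φ)) E}
    (hT : T ∈ G.GTj j₀ c a j) : MvPolynomial.C f * T ∈ G.GTj j₀ c a j := by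
  induction hT using Submodule.span_induction with
  | mem x hx =>
    obtain ⟨g, hg, o, rfl⟩ := hx
    exact Submodule.subset_span ⟨f * g, mul_mem hf hg, o, by
      rw [← mul_assoc, ← map_mul, mul_left_comm]⟩
  | zero => simp
  | add x y _ _ hx hy =>
    rw [mul_add]
    exact add_mem hx hy
  | smul z x _ hx =>
    rw [mul_smul_comm]
    exact Submodule.smul_mem _ z hx

theorem psi_mem {z : Fin φ → M} (hz : ∀ d, z d ∈ S.B j) {f : E} (hf : f ∈ G.C j)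
    (o : Fin p → Fin b ⊕ Fin φ) :
    MvPolynomial.C (G.X j ^ a * f) * ∏ r, psi G j₀ G.D₀ z (c r, o r) ∈ G.GTj j₀ c a j := by
  classical
  have h : ∀ x : Fin k × (Fin b ⊕ Fin φ), ∃ t : Fin b ⊕ Option ι →₀ G.C j,
      psi G j₀ G.D₀ z x = t.sum fun o a => MvPolynomial.C (a : E) * G.gn j₀ j x.1 o := by
    rintro ⟨s, i | d⟩
    · refine ⟨Finsupp.single (Sum.inl i) 1, ?_⟩
      rw [Finsupp.sum_single_index (by simp), OneMemClass.coe_one, map_one, one_mul]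
      rfl
    · obtain ⟨t, ht⟩ := G.dF_mem j₀ s (G.ι_mem_C (hz d))
      exact ⟨t, Eq.trans (by simp only [psi, dF, DE_ι, Sum.elim_inr]) ht⟩
  choose t ht using h
  simp only [ht, Finsupp.sum]
  rw [Finset.prod_univ_sum, Finset.mul_sum]
  refine sum_mem fun o' _ => Submodule.subset_span
    ⟨f * ∏ r, (t (c r, o r) (o' r) : E), mul_mem hf (prod_mem fun r _ => SetLike.coe_mem _), o', ?_⟩
  simp only [Finset.prod_mul_distrib, map_mul, map_prod, mul_assoc]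

variable [IsScalarTower ℂ K M] [Fintype ι] [CharZero E]

theorem loc_mem_GTj (ev : G.C j →ₐ[Ω] Ω) {z : Fin φ → M}
    {D : Fin b ⊕ Fin φ → Derivation ℂ M M} (hz : ∀ d, z d ∈ S.B j)
    (hD : Coo (G.Oz ev) (Sum.elim G.y z) D) {m : ℕ} {α : Fin b →₀ ℕ}
    {T : MvPolynomial (Fin k × (Fin b ⊕ Fin φ)) E} (hT : T ∈ G.WE j₀ c m a α) :
    ∃ g : G.C j, ev g ≠ 0 ∧ MvPolynomial.C (g : E) * T ∈ G.GTj j₀ c a j := by
  classical
  obtain ⟨ω, h1, h2, h3⟩ := G.mem_WE.1 hT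
  have h4 : Ld MonomialOrder.degLex α (Pht G.ty.toRingHom wt (cmpT S (cut j₀ G.D₀) k Ω ω)) T :=
    fun ν => by
      rw [← PhP_eq, ← h3]
      exact ⟨(swp_mem_Fil _).1 h2 ν, (coeff_swp _ _ _).symm⟩
  obtain ⟨Λ, h5⟩ : ∃ Λ, Ld _ α _ Λ := ⟨_, Ld_change G j₀ hD.toFrame G.frame h4⟩
  have h6 : T = Λ.eval₂ MvPolynomial.C (psi G j₀ G.D₀ z) := MvPolynomial.ext _ _ fun ν =>
    (h4 ν).2.symm.trans (Ld_change G j₀ G.frame hD.toFrame h5 ν).2
  have h7 := coeff_VT_bc (δ := cut j₀ D) (e := G.ez ev) (fun d f hf => by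
    rw [cut]
    split_ifs
    exacts [zero_mem _, hD.pres d f hf]) h1
  have h8 : ∀ ν, (G.X j ^ a)⁻¹ * Λ.coeff ν ∈ G.OFz ev := fun ν => by
    have e := coeff_Fil_mul MonomialOrder.degLex (mem_Fil_zero _
      (tayL Ω G.ι (Comm.inl hD.comm) (1 ⊗ₜ (S.X j ^ a)⁻¹))) (h5 ν).1
    rw [zero_add, (h5 ν).2, MvPowerSeries.coeff_zero_eq_constantCoeff_apply, constantCoeff_tayL,
      evT_one, map_inv₀, map_pow, coeff_Pht, mul_left_comm] at e
    refine e ▸ ?_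
    rw [MvPowerSeries.coeff_monomial_mul]
    split_ifs
    · rw [one_mul]
      exact (map_mul (tayL Ω G.ι (Comm.inl hD.comm)) _ _) ▸ coeff_tayL_mem G.ι _
        (fun _ => ι_mem_OFz) (fun i => hD.pres _) (h7 ν).1 _
    · exact zero_mem _
  choose g g1 g2 using h8
  refine ⟨∏ ν ∈ Λ.support, g ν, ?_, ?_⟩
  · rw [map_prod]
    exact Finset.prod_ne_zero_iff.2 fun ν _ => g1 ν
  rw [h6, MvPolynomial.eval₂_eq, Finset.mul_sum]
  refine sum_mem fun ν hν => ?_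
  obtain ⟨o, ho⟩ : ∃ o : Fin p → Fin b ⊕ Fin φ, ∑ r, Finsupp.single (c r, o r) 1 = ν := by
    by_contra h0
    refine MvPolynomial.mem_support_iff.1 hν ?_
    rw [← (h5 ν).2, coeff_Pht, (h7 ν).2 fun o e => h0 ⟨o, e⟩, map_zero, mul_zero, map_zero]
  have e1 : ∏ x ∈ ν.support, psi G j₀ G.D₀ z x ^ ν x = ∏ r, psi G j₀ G.D₀ z (c r, o r) := by
    rw [← ho]
    refine (Finsupp.prod_finsetSum_index (h := fun x l => psi G j₀ G.D₀ z x ^ l)
      (fun _ => pow_zero _) fun _ => pow_add _).symm.trans (Finset.prod_congr rfl fun r _ => ?_)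
    rw [Finsupp.prod_single_index (by simp), pow_one]
  have e2 : (g ν : E) * Λ.coeff ν = G.X j ^ a * (g ν * ((G.X j ^ a)⁻¹ * Λ.coeff ν)) := by
    have := G.X_ne j
    field_simp
  rw [e1, ← Finset.prod_erase_mul _ _ hν, MulMemClass.coe_mul, map_mul, mul_assoc,
    ← mul_assoc (MvPolynomial.C (g ν : E)), ← map_mul, e2]
  exact mul_mem_GTj (SetLike.coe_mem _) (psi_mem hz (g2 ν) o)

variable (G)

theorem WE_le_GT [IsAlgClosed Ω] (_h : G.Top j₀) {d : ℕ} (hs : S.Sm d) (hb : d + 2 ≤ b)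
    (c : Fin p → Fin k) (m a : ℕ) (α : Fin b →₀ ℕ) : G.WE j₀ c m a α ≤ G.GT j₀ c a := by
  refine le_iInf fun j T hT => ?_
  have h1 := G.null j (T := {f | f ∈ G.C j ∧ MvPolynomial.C f * T ∈ G.GTj j₀ c a j})
    (fun f hf => hf.1) fun ev => by
      obtain ⟨z, D, hz, hD⟩ := G.exists_coo_sm hs hb ev
      obtain ⟨g, g1, g2⟩ := loc_mem_GTj ev hz hD hT
      exact ⟨g, ⟨g.2, g2⟩, g1⟩
  have h2 : ∀ f ∈ Submodule.span (G.C j)
      {f | f ∈ G.C j ∧ MvPolynomial.C f * T ∈ G.GTj j₀ c a j},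
      MvPolynomial.C f * T ∈ G.GTj j₀ c a j := fun f hf => by
    induction hf using Submodule.span_induction with
    | mem x hx => exact hx.2
    | zero => simp
    | add x y _ _ hx hy =>
      rw [map_add, add_mul]
      exact add_mem hx hy
    | smul z x _ hx =>
      rw [Subalgebra.smul_def, smul_eq_mul, map_mul, mul_assoc]
      exact mul_mem_GTj z.2 hx
  have h3 := h2 1 h1
  rwa [map_one, one_mul] at h3

end Pool.Agent.Lib.MP_bc213e_ag.DD.Geo
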