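import Pool.Agent.Lib.MP_bc213e_ag.TE.IDefs
import Pool.Agent.Lib.MP_bc213e_ag.TE.U.B

/-! Contraction of tensors: the poles of the contracted function. -/

namespace Pool.Agent.Lib.MP_bc213e_ag.DD

open Pool.Agent.Lib.MP_bc213e_ag.Hyp Pool.Agent.Lib.MP_bc213e_ag.KBB Pool.Agent.Lib.MP_bc213e_ag.OW
open Pool.Agent.Lib.MP_bc213e_ag.TE MvPolynomial Matrix
open scoped TensorProduct

noncomputable section

theorem multi_mem {R J V W : Type} [CommRing R] [Fintype J] [AddCommGroup V] [Module R V]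
    [AddCommGroup W] [Module R W] (μ : MultilinearMap R (fun _ : J => V) W) {s : J → Set V}
    {N : Submodule R W} (h : ∀ v, (∀ i, v i ∈ s i) → μ v ∈ N) {v : J → V}
    (hv : ∀ i, v i ∈ Submodule.span R (s i)) : μ v ∈ N := by
  classical
  choose l c g e using fun i => Submodule.mem_span_set'.1 (hv i)
  rw [← funext e, μ.map_sum]
  refine sum_mem fun r _ => ?_
  rw [μ.map_smul_univ]
  exact N.smul_mem _ (h _ fun i => (g i _).2)

theorem sum_update {J A : Type} [Fintype J] [DecidableEq J] [AddCommMonoid A] (x : A) (i : J) :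
    ∑ l, Function.update (fun _ => x) i 0 l = (Fintype.card J - 1) • x := by
  rw [Finset.sum_update_of_mem (Finset.mem_univ i), zero_add, Finset.sum_const,
    Finset.card_univ_sdiff, Finset.card_singleton]

section ev

variable {Ω M σ : Type} [Field Ω] [Algebra ℂ Ω] [Field M] [Algebra ℂ M]

theorem gm_bc {I : Type} [AddMonoid I] (F : I → Submodule ℂ M) [SetLike.GradedMonoid F] :
    SetLike.GradedMonoid fun i => (F i).baseChange Ω where
  one_mem := Submodule.tmul_mem_baseChange_of_mem 1 (SetLike.one_mem_graded F)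
  mul_mem := fun _ _ _ _ => baseChange_mul fun _ hf _ hg => SetLike.mul_mem_graded hf hg

/-- The value of a tensor. -/
def ev (θ : σ → Ω ⊗[ℂ] M) : Ω ⊗[ℂ] MvPolynomial σ M →ₐ[Ω] Ω ⊗[ℂ] M :=
  evT Ω (aevalTower Algebra.TensorProduct.includeRight θ)

theorem ev_C (θ : σ → Ω ⊗[ℂ] M) (f : M) : ev θ (1 ⊗ₜ C f) = 1 ⊗ₜ f := by simp [ev]

theorem ev_X (θ : σ → Ω ⊗[ℂ] M) (v : σ) : ev θ (1 ⊗ₜ X v) = θ v := by
  simp [ev, ← Algebra.TensorProduct.one_def]

/-- The components of a one-form. -/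
def row {n : ℕ} : Ω ⊗[ℂ] MvPolynomial (Fin 1 × Fin n) M →ₗ[Ω] Fin n → Ω ⊗[ℂ] M :=
  LinearMap.pi fun a => (ev fun v => if v.2 = a then 1 else 0).toLinearMap

end ev

namespace Su

variable {K M ι : Type} [Field K] [Algebra ℂ K] [Field M] [Algebra ℂ M] [Algebra K M] {n : ℕ}
  (S : Su K M ι n) (Ω : Type) [Field Ω] [Algebra ℂ Ω] {k p : ℕ}

/-- The differential of a function on `X`. -/
def dP (s : Fin k) (u : K) : Ω ⊗[ℂ] MvPolynomial (Fin k × Fin n) M :=
  ∑ a, (1 : Ω) ⊗ₜ C (algebraMap K M (S.D a u)) * (1 : Ω) ⊗ₜ MvPolynomial.X (s, a)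

/-- The tensors generated by products of differentials. -/
def Pu (c : Fin p → Fin k) (Q : Submodule ℂ M) (U : Set K) :
    Submodule Ω (Ω ⊗[ℂ] MvPolynomial (Fin k × Fin n) M) :=
  Submodule.span Ω {T | ∃ f ∈ Q, ∃ u : Fin p → K, (∀ r, u r ∈ U) ∧
    T = (1 : Ω) ⊗ₜ C f * ∏ r, S.dP Ω (c r) (u r)}

variable {S Ω}

theorem pure_mem {c : Fin p → Fin k} {Q : Submodule ℂ M} {U : Set K} {g : M} {f : K}
    {u : Fin p → K} (h : g * algebraMap K M f ∈ Q) (hu : ∀ r, u r ∈ U) :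
    (1 : Ω) ⊗ₜ[ℂ] (C g * MvPolynomial.map (algebraMap K M)
      (f • ∏ r, dT S.D MvPolynomial.X (c r) (u r))) ∈ S.Pu Ω c Q U := by
  refine Submodule.subset_span ⟨_, h, u, hu, ?_⟩
  simp only [dT, dP, smul_eq_C_mul, map_mul, map_prod, map_sum, map_C, map_X,
    ← Algebra.TensorProduct.includeRight_apply, mul_assoc]

theorem ev_dP (θ : Fin k × Fin n → Ω ⊗[ℂ] M) (s : Fin k) (u : K) :
    ev θ (S.dP Ω s u) = ∑ a, (1 : Ω) ⊗ₜ algebraMap K M (S.D a u) * θ (s, a) := by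
  simp only [dP, map_sum, map_mul, ev_C, ev_X]

theorem row_pure (f : M) (u : Fin 1 → K) (a : Fin n) :
    row ((1 : Ω) ⊗ₜ C f * ∏ r, S.dP Ω (DD.one 0 r) (u r)) a =
      (1 : Ω) ⊗ₜ f * (1 : Ω) ⊗ₜ algebraMap K M (S.D a (u 0)) := by
  simp [row, ev_C, ev_dP]

theorem row_expand {Q : Submodule ℂ M} {U : Set K} {γ : Ω ⊗[ℂ] MvPolynomial (Fin 1 × Fin n) M}
    (h : γ ∈ S.Pu Ω (DD.one 0) Q U) :
    γ = ∑ a, cT Ω _ M (row γ a) * (1 : Ω) ⊗ₜ MvPolynomial.X (0, a) := by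
  induction h using Submodule.span_induction with
  | mem x hx =>
    obtain ⟨f, -, u, -, rfl⟩ := hx
    simp only [row_pure, map_mul, mul_assoc, ← Finset.mul_sum]
    rw [Fin.prod_univ_one]
    rfl
  | zero => simp
  | add x y _ _ hx hy =>
    simp only [map_add, Pi.add_apply, add_mul, Finset.sum_add_distrib, ← hx, ← hy]
  | smul z x _ hx =>
    simp only [map_smul, Pi.smul_apply, smul_mul_assoc, ← Finset.smul_sum, ← hx]

section gr

variable {F : ℕ × ℕ → Submodule ℂ M} [SetLike.GradedMonoid F] {U : Set K}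
  (hj : ∀ u : Fin n → K, (∀ l, u l ∈ U) → algebraMap K M (jac S.D u) ∈ F (1, 0))
include hj

theorem det_mem {A : Fin n → ℕ} {γ : Fin n → Ω ⊗[ℂ] MvPolynomial (Fin 1 × Fin n) M}
    (h : ∀ i, γ i ∈ S.Pu Ω (DD.one 0) (F (0, A i)) U) :
    (of fun i => row (γ i)).det ∈ (F (1, ∑ i, A i)).baseChange Ω := by
  refine multi_mem ((detRowAlternating.toMultilinearMap.restrictScalars Ω).compLinearMap
    fun _ => row) (fun v hv => ?_) h
  choose f h1 u h2 e using hv
  have h3 := SetLike.mul_mem_graded (hj _ fun l => h2 l 0)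
    (SetLike.prod_mem_graded F (F := Finset.univ) _ _ fun i _ => h1 i)
  change (of fun i a => row (v i) a).det ∈ _
  simp only [e, row_pure]
  rw [det_mul_column]
  convert Submodule.tmul_mem_baseChange_of_mem (1 : Ω) h3 using 1
  · congr 2
    ext <;> simp [Prod.fst_sum, Prod.snd_sum]
  · simp only [← Algebra.TensorProduct.includeRight_apply, jac, map_mul, map_prod, mul_comm,
      RingHom.map_det, AlgHom.map_det]
    rw [← det_transpose]
    rfl

theorem dual_mem {a' : ℕ} {γ : Fin n → Ω ⊗[ℂ] MvPolynomial (Fin 1 × Fin n) M}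
    (h : ∀ i, γ i ∈ S.Pu Ω (DD.one 0) (F (0, a')) U) (t : Fin n → ℕ) {u : K} (hu : u ∈ U) :
    (fun a => (1 : Ω) ⊗ₜ algebraMap K M (S.D a u)) ⬝ᵥ
      ((of fun i => row (γ i)).adjugate *ᵥ fun i => t i) ∈ (F (1, (n - 1) * a')).baseChange Ω := by
  rw [dotProduct_mulVec, ← mulVec_transpose, adjugate_transpose, ← cramer_eq_adjugate_mulVec]
  refine sum_mem fun i _ => ?_
  have h4 := det_mem hj (A := Function.update (fun _ => a') i 0) (γ := Function.update γ i
    ((1 : Ω) ⊗ₜ C 1 * ∏ l, S.dP Ω (DD.one 0 l) u)) fun l => by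
      rcases eq_or_ne l i with rfl | e
      · rw [Function.update_self, Function.update_self]
        exact Submodule.subset_span ⟨1, SetLike.one_mem_graded F, _, fun _ => hu, rfl⟩
      · rw [Function.update_of_ne e, Function.update_of_ne e]
        exact h l
  rw [sum_update, Fintype.card_fin, smul_eq_mul] at h4
  rw [cramer_transpose_apply, ← nsmul_eq_mul']
  refine nsmul_mem ?_ _
  convert h4 using 2
  ext l a
  rcases eq_or_ne l i with rfl | e
  · rw [updateRow_self, of_apply, Function.update_self, row_pure,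
      ← Algebra.TensorProduct.one_def, one_mul]
  · rw [updateRow_ne e, of_apply, of_apply, Function.update_of_ne e]

/-- The contraction of a tensor with the vector fields dual to `n` one-forms. -/
theorem ev_mem {a a' : ℕ} {γ : Fin n → Ω ⊗[ℂ] MvPolynomial (Fin 1 × Fin n) M}
    (h : ∀ i, γ i ∈ S.Pu Ω (DD.one 0) (F (0, a')) U) (t : Fin k → Fin n → ℕ) {c : Fin p → Fin k}
    {ω : Ω ⊗[ℂ] MvPolynomial (Fin k × Fin n) M} (hω : ω ∈ S.Pu Ω c (F (0, a)) U) :
    ev (fun v => ((of fun i => row (γ i)).adjugate *ᵥ fun i => t v.1 i) v.2) ω ∈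
      (F (p, a + p * (n - 1) * a')).baseChange Ω := by
  have := gm_bc (Ω := Ω) F
  induction hω using Submodule.span_induction with
  | mem x hx =>
    obtain ⟨f, h1, u, h2, rfl⟩ := hx
    have h5 := SetLike.mul_mem_graded (A := fun i => (F i).baseChange Ω)
      (Submodule.tmul_mem_baseChange_of_mem 1 h1) (SetLike.prod_mem_graded
        (fun i => (F i).baseChange Ω) (F := Finset.univ) _ _
          fun r _ => dual_mem hj h (t (c r)) (h2 r))
    simp only [map_mul, map_prod, ev_C, ev_dP]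
    convert h5 using 3
    · simp [mul_assoc]
    · rfl
  | zero => simp
  | add x y _ _ hx hy => exact map_add (ev _) x y ▸ add_mem hx hy
  | smul z x _ hx => exact map_smul (ev _) z x ▸ Submodule.smul_mem _ z hx

end gr

variable [IsScalarTower ℂ K M] {c : Fin p → Fin k} {m a : ℕ}

theorem map_mem_Deg (f : K) : algebraMap K M f ∈ S.Deg 0 :=
  S.mem_Deg.2 ⟨Polynomial.C f, by simp, Polynomial.aeval_C _ _⟩

theorem pow_mem_Deg {i : ℕ} (h : i ≤ m) : S.u ^ i ∈ S.Deg m :=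
  S.mem_Deg.2 ⟨Polynomial.X ^ i, by simpa, by simp⟩

theorem VT_le_Deg : (S.VT c m a).baseChange Ω ≤ S.Pu Ω c (S.Deg m) Set.univ := by
  rw [VT, Submodule.baseChange_span, Submodule.span_le]
  rintro _ ⟨_, ⟨i, hi, ω, hω, rfl⟩, rfl⟩
  obtain ⟨f, rfl⟩ := (Submodule.mem_span_range_iff_exists_fun K).1 hω.1
  rw [map_sum, Finset.mul_sum, map_sum]
  refine sum_mem fun l _ => ?_
  have e : ∀ r, (MvPolynomial.X (c r, l r) : MvPolynomial _ K) =
      dT S.D MvPolynomial.X (c r) (S.τ (l r)) := fun r => by simp [dT, S.hD]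
  simp only [e]
  exact pure_mem (Deg_mul (S := S) (pow_mem_Deg hi) (map_mem_Deg (f l)) :) fun _ => trivial

variable [Fintype ι] {j : ι} {w : Val K}

theorem VT_le_Kw (hw : PrimeDiv (chart S.x j) w) :
    (S.VT c m a).baseChange Ω ≤ S.Pu Ω c (S.Kw j w 0 a) {u | w u ≤ 1} := by
  rw [VT, Submodule.baseChange_span, Submodule.span_le]
  rintro _ ⟨_, ⟨i, -, ω, hω, rfl⟩, rfl⟩
  have h0 : fr S.x S.g i a j ≠ 0 :=
    mul_ne_zero (zpow_ne_zero _ (S.g j).ne_zero) (pow_ne_zero _ (S.x j).ne_zero)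
  obtain ⟨l, z, g, e⟩ := Submodule.mem_span_set'.1 (hω.2 j w hw)
  rw [← smul_inv_smul₀ h0 ω, ← e, Finset.smul_sum, map_sum, Finset.mul_sum, map_sum]
  refine sum_mem fun r _ => ?_
  obtain ⟨f, u, h1, h2, e⟩ := (g r).2
  rw [e, ← smul_assoc (z r), smul_smul]
  refine pure_mem (mem_Kw_zero ?_) h2
  have e1 : S.u ^ i * algebraMap K M (fr S.x S.g i a j * z r • f) / S.X j ^ a =
      algebraMap ℂ M (z r) * (S.v j ^ i * algebraMap K M f) := by
    have := S.X_ne j
    rw [fr, Algebra.smul_def, zpow_natCast, v, IsScalarTower.algebraMap_apply ℂ K M]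
    simp only [map_mul, map_pow, Su.X, mul_pow] at this ⊢
    field_simp
  rw [e1]
  exact mul_mem (Subalgebra.algebraMap_mem _ _) (mul_mem (pow_mem (S.B_le_Ow j w (S.v_mem j)) _)
    (LocAt.map_mem hw.2.2 h1))

/-- A power of the contraction is a section. -/
theorem ev_pow_mem {m' a' : ℕ} {γ : Fin n → Ω ⊗[ℂ] MvPolynomial (Fin 1 × Fin n) M}
    (h : ∀ i, γ i ∈ (S.VT (DD.one 0) m' a').baseChange Ω) (t : Fin k → Fin n → ℕ)
    {ω : Ω ⊗[ℂ] MvPolynomial (Fin k × Fin n) M} (hω : ω ∈ (S.VT c m a).baseChange Ω) :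
    (1 : Ω) ⊗ₜ (S.u ^ p) *
      ev (fun v => ((of fun i => row (γ i)).adjugate *ᵥ fun i => t v.1 i) v.2) ω ^ S.m ∈
      (S.V (S.m * (m + p * (n - 1) * m') + p) (S.m * (a + p * (n - 1) * a'))).baseChange Ω := by
  have i1 : SetLike.GradedMonoid fun i : ℕ × ℕ => S.Deg i.2 :=
    { one_mem := map_one (algebraMap K M) ▸ map_mem_Deg 1
      mul_mem := fun _ _ _ _ => Deg_mul }
  have i2 := gm_bc (Ω := Ω) fun i : ℕ × ℕ => S.Deg i.2
  refine mem_bc.2 fun ℓ => ?_
  rw [co_mul, mul_comm (S.u ^ p)]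
  refine mem_V_of_Ow (Deg_mul (mem_bc.1 (SetLike.pow_mem_graded (A := fun i : ℕ × ℕ =>
    (S.Deg i.2).baseChange Ω) S.m (ev_mem (F := fun i => S.Deg i.2) (fun u _ => map_mem_Deg _)
      (fun i => VT_le_Deg (h i)) t (VT_le_Deg hω))) ℓ) (pow_mem_Deg le_rfl)) fun j w hw => ?_
  have i3 : SetLike.GradedMonoid fun i : ℕ × ℕ => S.Kw j w i.1 i.2 :=
    { one_mem := mem_Kw_zero (by simp)
      mul_mem := fun _ _ _ _ => Kw_mul }
  have i4 := gm_bc (Ω := Ω) fun i : ℕ × ℕ => S.Kw j w i.1 i.2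
  exact Kw_div (mem_bc.1 (SetLike.pow_mem_graded (A := fun i : ℕ × ℕ =>
    (S.Kw j w i.1 i.2).baseChange Ω) S.m (ev_mem (F := fun i => S.Kw j w i.1 i.2)
      (fun u => jac_mem_Kw hw) (fun i => VT_le_Kw hw (h i)) t (VT_le_Kw hw hω))) ℓ)

end Su

end

end Pool.Agent.Lib.MP_bc213e_ag.DD
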