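import Pool.Agent.Lib.MP_bc213e_ag.TE.LA
import Pool.Agent.Lib.MP_bc213e_ag.TE.U2a

/-! Contraction of a tensor with the vector fields dual to `n` one-forms. -/

namespace Pool.Agent.Lib.MP_bc213e_ag.DD

open Pool.Agent.Lib.MP_bc213e_ag.Hyp Pool.Agent.Lib.MP_bc213e_ag.DA Pool.Agent.Lib.MP_bc213e_ag.Jet
open Pool.Agent.Lib.MP_bc213e_ag.TE Matrix MvPowerSeries
open scoped TensorProduct MonomialOrder

theorem Fil_adj {β R J : Type} [CommRing R] [Fintype J] [DecidableEq J] (o : MonomialOrder β)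
    {δ : β →₀ ℕ} {P : Matrix J J (MvPowerSeries β R)} {P₀ : Matrix J J R}
    (h : ∀ i l, P i l ∈ Fil o δ ∧ coeff δ (P i l) = P₀ i l) (r i : J) :
    P.adjugate r i ∈ Fil o ((Fintype.card J - 1) • δ) ∧
      coeff ((Fintype.card J - 1) • δ) (P.adjugate r i) = P₀.adjugate r i := by
  have h1 := Fil_det o (α := Function.update (fun _ => δ) i 0)
    (A := (P.updateRow i (Pi.single r 1))ᵀ) fun l l' => by
      rcases eq_or_ne l' i with rfl | e
      · rw [Function.update_self]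
        exact mem_Fil_zero o _
      · rw [Function.update_of_ne e, transpose_apply, updateRow_ne e]
        exact (h _ _).1
  rw [sum_update, det_transpose, ← adjugate_apply] at h1
  refine ⟨h1.1, h1.2.trans ?_⟩
  rw [adjugate_apply, ← det_transpose]
  congr 1
  ext l l'
  rw [transpose_apply, of_apply, transpose_apply]
  rcases eq_or_ne l i with rfl | e
  · rw [Function.update_self, updateRow_self, updateRow_self, Pi.single_apply, Pi.single_apply]
    split_ifs <;> simp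
  · rw [Function.update_of_ne e, updateRow_ne e, updateRow_ne e, (h _ _).2]

namespace Geo

variable {K M ι : Type} [Field K] [Algebra ℂ K] [Field M] [Algebra ℂ M] [Algebra K M] {n : ℕ}
  {S : Su K M ι n} {Ω E : Type} [Field Ω] [Algebra ℂ Ω] [Field E] [Algebra ℂ E] [Algebra Ω E]
  [IsScalarTower ℂ Ω E] {b φ : ℕ} (G : Geo S Ω E b φ) [IsScalarTower ℂ K M] [Fintype ι]
  [CharZero E] {k p : ℕ} {j₀ : Fin b}

section pu

variable {c : Fin p → Fin k} {Q : Submodule ℂ M} {U : Set K}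
  {ω : Ω ⊗[ℂ] MvPolynomial (Fin k × Fin n) M} (hω : ω ∈ S.Pu Ω c Q U)
include hω

theorem hom_PhP : (G.PhP j₀ k ω).IsHomogeneous p := by
  induction hω using Submodule.span_induction with
  | mem x hx =>
    obtain ⟨f, -, u, -, rfl⟩ := hx
    simp only [Su.dP, map_mul, map_prod, map_sum, PhP_C, PhP_X, dL]
    have h := MvPolynomial.IsHomogeneous.prod Finset.univ _ (fun _ : Fin p => 1) fun r _ =>
      MvPolynomial.IsHomogeneous.sum Finset.univ _ 1 fun a _ =>
        (MvPolynomial.IsHomogeneous.sum Finset.univ _ 1 fun d _ => MvPolynomial.isHomogeneous_C_mul_X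
          (et E j₀ d * G.ty (rder (G.D₀ d) (1 ⊗ₜ algebraMap K M (S.τ a)))) (c r, d)).C_mul
          (G.ty (1 ⊗ₜ algebraMap K M (S.D a (u r))))
    simpa using h.C_mul _
  | zero => exact map_zero (G.PhP j₀ k) ▸ MvPolynomial.isHomogeneous_zero _ _ _
  | add x y _ _ hx hy => exact map_add (G.PhP j₀ k) x y ▸ hx.add hy
  | smul z x _ hx =>
    rw [map_smul, Algebra.smul_def]
    exact hx.C_mul _

theorem eval_lead {α β : Fin b →₀ ℕ} (h : G.Ph j₀ k ω ∈ Fil MonomialOrder.degLex α)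
    {ρ : Fin k × (Fin b ⊕ Fin φ) → MvPowerSeries (Fin b) E}
    (hρ : ∀ x, ρ x ∈ Fil MonomialOrder.degLex β) :
    (G.PhP j₀ k ω).eval ρ ∈ Fil MonomialOrder.degLex (α + p • β) ∧
      coeff (α + p • β) ((G.PhP j₀ k ω).eval ρ) =
        (coeff α (G.Ph j₀ k ω)).eval fun x => coeff β (ρ x) := by
  have h1 := Ld.eval _ (fun ν => ⟨(swp_mem_Fil _).1 h ν, (coeff_swp (Ω := Ω) _ _ _).symm⟩)
    (RingHom.id E) hρ fun ν hν => congrArg (· • β) ((DFunLike.congr_fun Finsupp.degree_eq_weight_one ν).trans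
      (G.hom_PhP hω (MvPolynomial.mem_support_iff.1 hν)))
  rwa [MvPowerSeries.map_id] at h1

theorem eval_hom {ρ : Fin k × (Fin b ⊕ Fin φ) → MvPowerSeries (Fin b) E}
    {κ : MvPowerSeries (Fin b) E} {θ : Fin k × Fin n → Ω ⊗[ℂ] M}
    (h : ∀ s a, (G.dL j₀ s (1 ⊗ₜ algebraMap K M (S.τ a))).eval ρ = κ * G.ty (θ (s, a))) :
    (G.PhP j₀ k ω).eval ρ = κ ^ p * G.ty (ev θ ω) := by
  induction hω using Submodule.span_induction with
  | mem x hx =>
    obtain ⟨f, -, u, -, rfl⟩ := hx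
    simp only [Su.dP, map_mul, map_prod, map_sum, PhP_C, PhP_X, h, ev_C, ev_X, MvPolynomial.eval_C,
      mul_left_comm _ κ, ← Finset.mul_sum, Finset.prod_mul_distrib, Finset.prod_const,
      Finset.card_fin]
    ring
  | zero => simp
  | add x y _ _ hx hy => simp only [map_add, hx, hy, mul_add]
  | smul z x _ hx =>
    rw [map_smul (G.PhP j₀ k), map_smul (ev θ), map_smul G.ty, Algebra.smul_def, Algebra.smul_def,
      map_mul, hx, MvPolynomial.algebraMap_apply, MvPolynomial.eval_C, mul_left_comm]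

end pu

omit [IsScalarTower ℂ K M] [Fintype ι] in
theorem eval_dL {cc : Fin n → Fin b ⊕ Fin φ} (h1 : Function.Injective cc)
    (h2 : ∀ d, d ∈ Set.range cc ↔ d ≠ Sum.inl j₀) (s : Fin k) (f : M)
    (ρ : Fin k × (Fin b ⊕ Fin φ) → MvPowerSeries (Fin b) E) : (G.dL j₀ s (1 ⊗ₜ f)).eval ρ =
      ∑ r, et E j₀ (cc r) * G.ty (1 ⊗ₜ G.D₀ (cc r) f) * ρ (s, cc r) := by
  simp only [dL, map_sum, map_mul, MvPolynomial.eval_C, MvPolynomial.eval_X, rder_tmul]
  refine (Fintype.sum_of_injective cc h1 _ _ (fun d hd => ?_) fun _ => rfl).symm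
  rw [not_not.1 (mt (h2 d).2 hd)]
  simp [et]

theorem up_two (h : G.Top j₀) (_hb : 2 ≤ b) {m' a' : ℕ} {δ : Fin b →₀ ℕ}
    (hγ : ∀ d, d ≠ Sum.inl j₀ → ∃ κ : E, κ ≠ 0 ∧
      MvPolynomial.C κ * MvPolynomial.X (0, d) ∈ G.WE j₀ (one (0 : Fin 1)) m' a' δ)
    {c : Fin p → Fin k} {m a : ℕ} {α : Fin b →₀ ℕ} (hα : G.WE j₀ c m a α ≠ ⊥) :
    ∃ α' : Fin b →₀ ℕ, α + (p * (n - 1)) • δ ≤ α' + p • uno b ∧
      G.W (S.m * (m + p * (n - 1) * m') + p) (S.m * (a + p * (n - 1) * a')) (S.m • α') ≠ ⊥ := by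
  classical
  obtain ⟨cc, c1, c2, c3⟩ := G.exists_cc h.1
  choose κ k0 k1 using fun i => hγ (cc i) ((c2 _).1 ⟨i, rfl⟩)
  choose γ g1 g2 g3 using fun i => G.mem_WE.1 (k1 i)
  obtain ⟨_, hω, w3⟩ := (Submodule.ne_bot_iff _).1 hα
  obtain ⟨ω, w1, w2, rfl⟩ := G.mem_WE.1 hω
  let N : Matrix (Fin n) (Fin n) (MvPowerSeries (Fin b) E) :=
    of fun a r => et E j₀ (cc r) * G.ty (1 ⊗ₜ G.D₀ (cc r) (algebraMap K M (S.τ a)))
  let P := G.ty.mapMatrix (of fun i => row (γ i)) * N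
  have hP : ∀ i r, P i r ∈ Fil MonomialOrder.degLex δ ∧ coeff δ (P i r) = diagonal κ i r := by
    intro i r
    have h1 := G.eval_lead (Su.VT_le_Deg (g1 i)) (g2 i) (ρ := fun x => if x.2 = cc r then 1 else 0)
      fun _ => mem_Fil_zero _ _
    rw [g3, smul_zero, add_zero, Su.row_expand (Su.VT_le_Deg (g1 i))] at h1
    simp only [map_sum, map_mul, PhP_cT, PhP_X, G.eval_dL c1 c2, c1.eq_iff, mul_ite, mul_one,
      mul_zero, Finset.sum_ite_eq', Finset.mem_univ, if_true, MvPolynomial.eval_C,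
      MvPolynomial.eval_X] at h1
    refine ⟨h1.1, ((map_sum _ _ _).trans h1.2).trans ?_⟩
    rw [diagonal_apply]
    split_ifs <;> simp
  have hA := Fil_adj _ hP
  rw [Fintype.card_fin, adjugate_diagonal] at hA
  let ρ : (Fin k × (Fin b ⊕ Fin φ) → ℕ) → Fin k × (Fin b ⊕ Fin φ) → MvPowerSeries (Fin b) E :=
    fun t x => cc.extend (P.adjugate *ᵥ fun i => t (x.1, cc i))
      (fun _ => monomial ((n - 1) • δ) (t x)) x.2
  have hρ : ∀ x, ∃ l : E, l ≠ 0 ∧ ∀ t, ρ t x ∈ Fil MonomialOrder.degLex ((n - 1) • δ) ∧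
      coeff ((n - 1) • δ) (ρ t x) = l * t x := by
    rintro ⟨s, d⟩
    by_cases hd : ∃ r, cc r = d
    · obtain ⟨r, rfl⟩ := hd
      refine ⟨_, Finset.prod_ne_zero_iff.2 fun i (_ : i ∈ Finset.univ.erase r) => k0 i, fun t => ?_⟩
      simp only [ρ, c1.extend_apply, mulVec, dotProduct, map_sum, ← nsmul_eq_mul', map_nsmul,
        (hA _ _).2]
      exact ⟨sum_mem fun i _ => nsmul_mem (hA r i).1 _, by simp [diagonal_apply]⟩
    · refine ⟨1, one_ne_zero, fun t => ?_⟩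
      simp only [ρ, Function.extend_apply' _ _ _ hd, coeff_monomial_same, one_mul, and_true]
      exact monomial_mem_Fil _ _ _
  choose l l0 l1 using hρ
  obtain ⟨t, ht⟩ : ∃ t : _ → ℕ, (coeff α (G.Ph j₀ k ω)).eval (fun x => l x * t x) ≠ 0 := by
    by_contra h0
    push Not at h0
    refine w3 (MvPolynomial.funext_set (fun x => Set.range fun i : ℕ => l x * i) (fun x =>
      Set.infinite_range_of_injective ((mul_right_injective₀ (l0 x)).comp Nat.cast_injective))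
      fun y hy => ?_)
    choose t ht using fun x => hy x trivial
    rw [map_zero, ← h0 t, funext ht]
  have h1 := G.eval_lead (Su.VT_le_Deg w1) w2 fun x => (l1 x t).1
  have h2 := Su.ev_pow_mem g1 (fun s i => t (s, cc i)) w1
  rw [G.eval_hom (Su.VT_le_Deg w1) (κ := N.det) (θ := fun v =>
    ((of fun i => row (γ i)).adjugate *ᵥ fun i => t (v.1, cc i)) v.2) fun s a => ?_] at h1
  swap
  · rw [G.eval_dL c1 c2]
    simp only [ρ, c1.extend_apply]
    change (N *ᵥ _) a = _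
    rw [mulVec_mulVec, adjugate_mul_distrib, ← Matrix.mul_assoc, mul_adjugate, Matrix.smul_mul,
      Matrix.one_mul, smul_mulVec, ← AlgHom.map_adjugate]
    simp [mulVec, dotProduct]
  generalize ev _ ω = f at h1 h2
  simp only [(l1 _ t).2] at h1
  have h3 := h1.2.trans_ne ht
  obtain ⟨α', f1, f2⟩ := exists_lead MonomialOrder.degLex (φ := G.ty f) fun e => h3 (by
    rw [e, mul_zero, map_zero])
  let e : Fin b ⊕ Fin φ → Fin b →₀ ℕ := Sum.elim (Finsupp.single · 1) 0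
  have h4 : N.det = monomial (∑ r, e (cc r)) 1 * G.ty (1 ⊗ₜ
      (of fun a r => G.D₀ (cc r) (algebraMap K M (S.τ a))).det) := by
    rw [det_mul_row, ← Algebra.TensorProduct.includeRight_apply, AlgHom.map_det, AlgHom.map_det]
    congr 1
    rw [← Finset.prod_const_one, ← prod_monomial]
    refine Finset.prod_congr rfl fun r _ => ?_
    have := (c2 _).1 ⟨r, rfl⟩
    generalize cc r = d at this ⊢
    rcases d with i | d
    · exact if_neg fun e => this (congrArg _ e)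
    · rfl
  have h5 : ∀ x : M, coeff 0 (G.ty (1 ⊗ₜ x)) = G.ι x := fun x =>
    (constantCoeff_tayL _ (Comm.inl G.frame.comm) _).trans (evT_one _ _)
  have h6 := Fil_mul MonomialOrder.degLex (monomial_mem_Fil _ (∑ r, e (cc r)) 1) (mem_Fil_zero _
    (G.ty (1 ⊗ₜ (of fun a r => G.D₀ (cc r) (algebraMap K M (S.τ a))).det)))
  have h7 := coeff_Fil_mul MonomialOrder.degLex (monomial_mem_Fil _ (∑ r, e (cc r)) 1)
    (mem_Fil_zero _ (G.ty (1 ⊗ₜ (of fun a r => G.D₀ (cc r) (algebraMap K M (S.τ a))).det)))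
  rw [← h4, add_zero] at h6 h7
  rw [coeff_monomial_same, one_mul, h5] at h7
  have h8 := lead_unique _ h1.1 h3 (Fil_mul _ (Fil_pow _ h6 p).1 f1) (by
    rw [coeff_Fil_mul _ (Fil_pow _ h6 p).1 f1, (Fil_pow _ h6 p).2, h7]
    exact mul_ne_zero (pow_ne_zero _ ((map_ne_zero _).2 c3)) f2)
  refine ⟨α', ?_, (Submodule.ne_bot_iff _).2 ⟨_, (mem_Wt _ _).2 ⟨_, h2, ?_, rfl⟩, ?_⟩⟩
  · rw [mul_smul, h8, add_comm]
    refine add_le_add_right (nsmul_le_nsmul_right ?_ p) _
    refine (Finset.sum_map Finset.univ ⟨cc, c1⟩ e).ge.trans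
      ((Finset.sum_le_sum_of_subset (Finset.subset_univ _)).trans fun i => ?_)
    simp [e, Finsupp.finsetSum_apply, Finsupp.single_apply]
  · rw [map_mul, map_pow]
    exact Ideal.mul_mem_left _ _ (Fil_pow _ f1 _).1
  · rw [map_mul, map_pow, ← zero_add (S.m • α'),
      coeff_Fil_mul _ (mem_Fil_zero _ _) (Fil_pow _ f1 _).1, (Fil_pow _ f1 _).2, h5]
    exact mul_ne_zero ((map_ne_zero _).2 (pow_ne_zero _ S.u_ne)) (pow_ne_zero _ f2)

end Geo

end Pool.Agent.Lib.MP_bc213e_ag.DD
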