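import Pool.Agent.Lib.MP_bc213e_ag.TE.Fin
import Pool.Agent.Lib.MP_bc213e_ag.TE.C.Shift
import Pool.Agent.Lib.MP_bc213e_ag.OW.G.Val

/-! The theorem on fibres along which `L` is torsion, for sheaves of tensors. -/

namespace Pool.Agent.Lib.MP_bc213e_ag.OW

open Pool.Agent.Lib.MP_bc213e_ag.Hyp Pool.Agent.Lib.MP_bc213e_ag.KBB WithZero Filter Module

theorem Emb.tensH {K K' κ : Type} [Field K] [Algebra ℂ K] [Field K'] [Algebra ℂ K'] [Algebra K K']
    [IsScalarTower ℂ K K'] [Fintype κ] {N n k p : ℕ} {x : Fin (N + 1) → Kˣ}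
    (normal : ∀ i, IsFractionRing (chart x i) K ∧ IsIntegrallyClosed (chart x i))
    {τ : Fin n → K} {D : Fin n → Derivation ℂ K K}
    (hD : ∀ a b, D a (τ b) = if a = b then 1 else 0) {L H : Prm x →₀ ℤ} (nef : IsNef L)
    (hH : ∀ i (w : Prm x), PrimeDiv (chart x i) w.1 → H w = ord w.1 ((x 0 : K) / x i))
    {ξ : Fin k × Fin n → K'} (hξ : AlgebraicIndependent K ξ) (c : Fin p → Fin k) (E : Emb L κ) :
    (∀ t : ℕ, ∀ᶠ a : ℕ in atTop, (finrank ℂ
      (SecE (P := MvPolynomial (Fin k × Fin n) K) D MvPolynomial.X c E.x' E.g' t a) : ℚ) =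
        chi (SectT D ξ c (t • L + (E.k * a) • H))) ∧
    ((∀ t a : ℕ, finrank ℂ
      (SecE (P := MvPolynomial (Fin k × Fin n) K) D MvPolynomial.X c E.x' E.g' t a) = 0) ∨
    ∃ e, ∀ t a : ℕ, finrank ℂ (SecS E.x' E.g' t a) ≤ finrank ℂ
      (SecE (P := MvPolynomial (Fin k × Fin n) K) D MvPolynomial.X c E.x' E.g' t (a + e))) := by
  have : Nonempty κ := ⟨E.k₀⟩
  obtain ⟨I, _, Λ, h1, h2⟩ := TE.exists_lat hD hξ c
  obtain ⟨-, -, e, h3, -⟩ := Λ.emb_main E normal nef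
  have e0 : (MvPolynomial.aeval ξ : MvPolynomial _ K →ₐ[K] K') ∘ MvPolynomial.X = ξ :=
    funext fun v => MvPolynomial.aeval_X ξ v
  have e1 : ∀ t a : ℕ, (SecE D MvPolynomial.X c E.x' E.g' t a).map
      ((MvPolynomial.aeval ξ : MvPolynomial _ K →ₐ[K] K').toLinearMap.restrictScalars ℂ) =
        Λ.SE E.x' E.g' t a := fun t a => by
    rw [map_SecE D _ c _ hξ, e0]
    refine Submodule.ext fun T => ?_
    rw [mem_SecE, Λ.mem_SE, h1, h2]
    simp only [Algebra.smul_def, map_inv₀, div_eq_inv_mul]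
    rfl
  have e2 : ∀ t a : ℕ, finrank ℂ (SecE (P := MvPolynomial (Fin k × Fin n) K) D MvPolynomial.X c
      E.x' E.g' t a) = finrank ℂ (Λ.SE E.x' E.g' t a) := fun t a =>
    ((Submodule.equivMapOfInjective
      ((MvPolynomial.aeval ξ : MvPolynomial _ K →ₐ[K] K').toLinearMap.restrictScalars ℂ)
      (fun _ _ h => hξ h) _).trans (LinearEquiv.ofEq _ _ (e1 t a))).finrank_eq
  have e3 : ∀ L' : Prm x →₀ ℤ, SectT D ξ c L' = Λ.TS L' := fun L' => funext fun σ => by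
    rw [SectT, TE.Lat.TS, h1, h2]
  have h4 : Tendsto (fun a : ℕ => E.k * a) atTop atTop :=
    tendsto_atTop_mono (fun a => Nat.le_mul_of_pos_left a E.kpos) tendsto_id
  simp only [e2, e3]
  refine ⟨fun t => (h4.eventually (Λ.chi_shift normal hH (t • L))).mono fun a ha => by
    rw [Λ.emb_rank, ha], ?_⟩
  rcases isEmpty_or_nonempty I with hI | ⟨⟨i₀⟩⟩
  · exact Or.inl fun t a => by simpa using (h3 t a).2
  · obtain ⟨e', h⟩ := Λ.lower (fun i => (E.normal normal i).1) E.g' i₀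
    exact Or.inr ⟨e', fun t a => h t a (h3 t (a + e')).1⟩

theorem exists_two0 (P : MvPolynomial (Fin 2) ℚ) : ∃ Q : Polynomial (Polynomial ℚ),
    ∀ t a : ℚ, Q.evalEval a t = MvPolynomial.eval ![t, a] P := by
  refine ⟨MvPolynomial.aeval ![Polynomial.X, Polynomial.C Polynomial.X] P, fun t a => ?_⟩
  simp only [Polynomial.evalEval]
  induction P using MvPolynomial.induction_on with
  | C r => simp
  | add p q hp hq => simp_all
  | mul_X p i hp => fin_cases i <;> simp_all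

theorem fibres_tens {K K' : Type} [Field K] [Algebra ℂ K] [Field K'] [Algebra ℂ K'] [Algebra K K']
    [IsScalarTower ℂ K K'] {N n m ν j k p : ℕ} (hm : 0 < m) (x : Fin (N + 1) → Kˣ)
    (normal : ∀ i, IsFractionRing (chart x i) K ∧ IsIntegrallyClosed (chart x i))
    (τ : Fin n → K) (hτ : IsTranscendenceBasis ℂ τ) (D : Fin n → Derivation ℂ K K)
    (hD : ∀ a b, D a (τ b) = if a = b then 1 else 0)
    (KX : Prm x →₀ ℤ) (canonical : IsCanonical D KX) (Δ : Prm x →₀ ℚ) (effective : 0 ≤ Δ)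
    (L : Prm x →₀ ℤ) (hL : ∀ w, (L w : ℚ) = m * (KX w + Δ w))
    (cartier : IsCartier L) (nef : IsNef L)
    (klt : ∀ (O : Subalgebra ℂ K) (F : Type) [Field F] [Algebra ℂ F] (ρ : O →ₐ[ℂ] F),
      IsPoint x O → Function.Surjective ρ → ((ν + j : ℕ) : Cardinal) < Algebra.trdeg ℂ F →
        KltAt D m L O ∧ (p = 0 ∨ SmoothAt n O))
    (H : Prm x →₀ ℤ)
    (hyperplane : ∀ i (w : Prm x), PrimeDiv (chart x i) w.1 → H w = ord w.1 ((x 0 : K) / x i))
    (ξ : Fin k × Fin n → K') (hξ : AlgebraicIndependent K ξ) (type : Fin p → Fin k)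
    (P : Polynomial (Polynomial ℚ))
    (euler : ∀ t a : ℕ, (chi (SectT D ξ type (t • L + a • H)) : ℚ) =
      (P.eval (Polynomial.C (t : ℚ))).eval (a : ℚ))
    (deg : P.natDegree ≤ ν) (order : ¬ Polynomial.X ^ (j + 1) ∣ P.coeff ν) :
    ∃ (F : IntermediateField ℂ K) (M : ℕ) (θ : Kˣ), Algebra.trdeg ℂ F ≤ (ν + j : ℕ) ∧ 0 < M ∧
      ∀ (V : ValuationSubring K) (O : Subalgebra ℂ K) (f : Kˣ), (∀ c ∈ F, c ∈ V) →
        IsPoint x O → (∀ r ∈ O, r ∈ V) → LocEq L O f →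
          V.valuation ((θ : K) * (f : K) ^ M) = 1 := by
  obtain ⟨κ, _, ⟨E⟩⟩ := exists_emb normal cartier
  have : Nonempty κ := ⟨E.k₀⟩
  have hk : (E.k : ℚ) ≠ 0 := Nat.cast_ne_zero.2 E.kpos.ne'
  obtain ⟨P₀, a₀, hP⟩ := uniform E.x' E.g' E.cart (E.nef (fun i => (normal i).1) nef)
  obtain ⟨P', p1⟩ := exists_two0 P₀
  obtain ⟨Q₀, a₁, -, -, e1, e2, -, -⟩ := E.tens normal hτ hD nef hξ type
  obtain ⟨e3, e4⟩ := E.tensH normal hD nef hyperplane hξ type
  obtain ⟨Q, hQ⟩ : ∃ Q, Q = P.map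
    (Polynomial.compRingHom (Polynomial.C (E.k : ℚ) * Polynomial.X)) := ⟨_, rfl⟩
  have q2 : Q.natDegree ≤ ν := hQ ▸ Polynomial.natDegree_map_le.trans deg
  have q3 : ¬ Polynomial.X ^ (j + 1) ∣ Q.coeff ν := fun h => order (by
    rw [hQ, Polynomial.coeff_map, Polynomial.coe_compRingHom_apply, Polynomial.X_pow_dvd_iff] at h
    refine Polynomial.X_pow_dvd_iff.2 fun d hd => ?_
    have h2 := h d hd
    rw [Polynomial.comp_C_mul_X_coeff] at h2
    exact (mul_eq_zero.1 h2).resolve_right (pow_ne_zero d hk))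
  have q0 : Q.coeff ν ≠ 0 := fun h => q3 (h ▸ dvd_zero _)
  obtain ⟨S, s1, s2, s3, s4, s5⟩ := E.exists_suT hm normal hτ hD canonical effective hL nef
    fun O F _ _ ρ h1 h2 h3 => (klt O F ρ h1 h2 h3).1
  have q1 : ∀ t a : ℕ, a₁ ≤ a → (finrank ℂ (S.SE type t a) : ℚ) = Q.evalEval (a : ℚ) (t : ℚ) :=
    fun t a ha => by
      have h1 := KBF.link e2 (p := fun t => Q.eval (Polynomial.C (t : ℚ))) (fun t => by
        filter_upwards [e3 t] with a ha
        have e : Polynomial.C (t : ℚ) = Polynomial.compRingHom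
            (Polynomial.C (E.k : ℚ) * Polynomial.X) (Polynomial.C (t : ℚ)) := by
          rw [Polynomial.coe_compRingHom_apply, Polynomial.C_comp]
        rw [ha, euler, hQ, e, Polynomial.eval_map, Polynomial.eval₂_at_apply,
          Polynomial.coe_compRingHom_apply, Polynomial.coe_compRingHom_apply, Polynomial.C_comp,
          Polynomial.eval_comp]
        simp) t
      rw [DD.Su.SE, s1, s2, s3, e2 t a ha, ← KBF.spec_eval, ← h1]
  obtain ⟨F, M, θ, k1, k2, k3⟩ : ∃ (F : IntermediateField ℂ K) (M : ℕ) (θ : K),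
      Algebra.trdeg ℂ F ≤ (ν + j : ℕ) ∧ 0 < M ∧ ∀ i (O : ValuationSubring K), (∀ c ∈ F, c ∈ O) →
        (∀ r ∈ chart S.x i, r ∈ O) → O.valuation θ = O.valuation ((S.g i : K) ^ M) := by
    rcases Nat.eq_zero_or_pos p with rfl | hp
    · refine S.torsionk s4 s5 q2 q3 fun t => ?_
      filter_upwards [eventually_ge_atTop a₁] with a ha
      rw [← q1 t a ha, S.finrank_SE_zero]
    have hs : S.Sm (ν + j) := fun i q hq h3 => by
      obtain ⟨F, _, _, ρ, h4, h5⟩ := exists_residue q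
      have h6 : Loc (chart x (E.j i)) (chart S.x i) := s1 ▸ E.loc i
      exact smooth_chart S.x i q
        ((klt _ F ρ (h6.isPoint q) h4 (h5 ▸ h3)).2.resolve_left hp.ne')
    rw [← s1, ← s2, ← s3] at e1 e4
    rw [← s1, ← s2] at hP
    obtain ⟨e, e4⟩ := e4.resolve_left fun h => top_ne_of_le (P := 0) (Q := Q) (a₀ := a₁) (e := 0)
      (c := 0) (by simp) q0 (fun t a ha => by rw [← q1 t a ha, h t a]; simp) (by simp)
    have p2 : P'.natDegree ≤ ν := Polynomial.natDegree_le_iff_coeff_eq_zero.2 fun d hd =>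
      by_contra fun h => top_ne_of_le (P := Q) (Q := P') (a₀ := a₀ + a₁) (e := e) (c := 1)
        (q2.trans hd.le) h (fun t a ha => by
          rw [p1, ← (hP t a (by omega)).2, one_mul, ← q1 t _ (by omega), Nat.abs_cast,
            Nat.abs_cast]
          exact Nat.cast_le.2 (e4 t a)) (Polynomial.coeff_eq_zero_of_natDegree_lt (q2.trans_lt hd))
    obtain ⟨F, h1, h2⟩ := S.baseT s4 s5 hs type p2 (fun t => by
      filter_upwards [eventually_ge_atTop a₀] with a ha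
      rw [(hP t a ha).2, p1]) e1 q2 q3 q1
    exact DS.torsion S.cart S.nef S.i₀ S.u S.tr S.top F h1 h2
  rw [s1, s2] at k3
  have h0 : θ ≠ 0 := fun e => by
    have h2 := k3 E.k₀ ⊤ (fun _ _ => trivial) fun _ _ => trivial
    rw [e, map_zero] at h2
    exact pow_ne_zero M (Units.ne_zero _) ((map_eq_zero _).1 h2.symm)
  refine ⟨F, M, Units.mk0 θ h0, k1, k2, fun V O f hV hO hO' hf => ?_⟩
  obtain ⟨a, ha⟩ := exists_chart_le E.x' V fun c => hV _ (F.algebraMap_mem c)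
  rw [Units.val_mk0, map_mul, k3 a V hV ha, ← map_mul, ← mul_pow, map_pow,
    E.val_eq normal V ha hO hO' hf, one_pow]

end Pool.Agent.Lib.MP_bc213e_ag.OW
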